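import Mathlib

set_option autoImplicit false

namespace PTD

/-- The union over `l ∈ L` of the segments `{l.1 + (p t) l.2 : t ∈ R}`, `R = Z / p^k`. -/
def Tub (p k n : ℕ) (L : Finset ((Fin n → ZMod (p ^ k)) × (Fin n → ZMod (p ^ k)))) :
    Set (Fin n → ZMod (p ^ k)) :=
  {x | ∃ l ∈ L, ∃ t : ZMod (p ^ k), x = l.1 + ((p : ZMod (p ^ k)) * t) • l.2}

/-- The union over `l ∈ L` of the dilated segments `{l.1 + t l.2 : t ∈ R}`, `R = Z / p^k`. -/
def Dil (p k n : ℕ) (L : Finset ((Fin n → ZMod (p ^ k)) × (Fin n → ZMod (p ^ k)))) :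
    Set (Fin n → ZMod (p ^ k)) :=
  {x | ∃ l ∈ L, ∃ t : ZMod (p ^ k), x = l.1 + t • l.2}

end PTD
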