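import Pool.Agent.helper23.PTD.NikU

set_option autoImplicit false

/-!
p-adic tube doubling, module PTD-NikS: the Nikodym bound over `Z/p^k`, all parameters.

Let `R = Z/p^k`, `N = p^k`.  For `x` on the left with direction `v` let `T_i`, `i < k`, be the set of the
`τ = p^i u` (`u` a unit) with `x + τ v ∈ E`.  If `x ∉ E` then `∑_(i < k) |T_i| ≥ μ` and, as
`∑_i 3^i / 4^(i+1) ≤ 1`, some `i < k` has `4^(i+1) |T_i| ≥ 3^i μ`; let `X_i` be the
set of those `x`.  For `i < k`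
split `R^n` into the cosets `x₀ + p^i R^n`, and parametrise each by `θ : (Z/p^(k-i))^n → R^n`,
`θ z = x₀ + p^i z` (injective).  `nikodymUnit` over `Z/p^(k-i)` for `θ⁻¹ E` and `μ_i = ⌈3^i μ / 4^(i+1)⌉`, summed over
the cosets: `|X_i| μ_i^n ≤ 2 n (2 n k)^(n-1) p^((k-i) n) |E|`, so
`|X_i| μ^n ≤ 4^n (4/(3p))^(i n) 2 n (2 n k)^(n-1) N^n |E|` and `(4/(3p))^(i n) ≤ (2/3)^i`.  The sum over `i < k` is
at most `3 · 4^n · 2 n (2 n k)^(n-1) N^n |E|`.
-/

namespace PTD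

/-- multiplication by `p ^ i` from `Z/p^(k-i)` to `Z/p^k` -/
def nikS_th (p k i : ℕ) (z : ZMod (p ^ (k - i))) : ZMod (p ^ k) := ((p ^ i * z.val : ℕ) : ZMod (p ^ k))

theorem nikS_th_nat {p k i : ℕ} (hi : i ≤ k) (m : ℕ) :
    nikS_th p k i (m : ZMod (p ^ (k - i))) = ((p ^ i * m : ℕ) : ZMod (p ^ k)) := by
  unfold nikS_th
  rw [ZMod.val_natCast, ← Nat.mul_mod_mul_left, ← pow_add, Nat.add_sub_cancel' hi, ZMod.natCast_mod]

theorem nikS_th_add {p k i : ℕ} (hp : p.Prime) (hi : i ≤ k) (z w : ZMod (p ^ (k - i))) :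
    nikS_th p k i (z + w) = nikS_th p k i z + nikS_th p k i w := by
  have : NeZero (p ^ (k - i)) := ⟨(pow_pos hp.pos _).ne'⟩
  have h1 : z + w = ((z.val + w.val : ℕ) : ZMod (p ^ (k - i))) := by
    rw [Nat.cast_add, ZMod.natCast_zmod_val, ZMod.natCast_zmod_val]
  rw [h1, nikS_th_nat hi]
  unfold nikS_th
  push_cast
  ring

theorem nikS_val {p k i : ℕ} (hp : p.Prime) (hi : i ≤ k) {c : ℕ} (hc : c < p ^ i)
    (z : ZMod (p ^ (k - i))) : ((c : ZMod (p ^ k)) + nikS_th p k i z).val = c + p ^ i * z.val := by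
  have : NeZero (p ^ (k - i)) := ⟨(pow_pos hp.pos _).ne'⟩
  have h1 : (c : ZMod (p ^ k)) + nikS_th p k i z = ((c + p ^ i * z.val : ℕ) : ZMod (p ^ k)) := by
    unfold nikS_th
    push_cast
    ring
  rw [h1, ZMod.val_natCast, Nat.mod_eq_of_lt]
  have h2 : z.val + 1 ≤ p ^ (k - i) := ZMod.val_lt z
  calc c + p ^ i * z.val < p ^ i + p ^ i * z.val := by omega
    _ = p ^ i * (z.val + 1) := by ring
    _ ≤ p ^ i * p ^ (k - i) := Nat.mul_le_mul_left _ h2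
    _ = p ^ k := by rw [← pow_add, Nat.add_sub_cancel' hi]

theorem nikS_inj {p k i : ℕ} (hp : p.Prime) (hi : i ≤ k) {c c' : ℕ} (hc : c < p ^ i) (hc' : c' < p ^ i)
    {z z' : ZMod (p ^ (k - i))}
    (h : (c : ZMod (p ^ k)) + nikS_th p k i z = (c' : ZMod (p ^ k)) + nikS_th p k i z') :
    c = c' ∧ z = z' := by
  have : NeZero (p ^ (k - i)) := ⟨(pow_pos hp.pos _).ne'⟩
  have h1 := congrArg ZMod.val h
  rw [nikS_val hp hi hc, nikS_val hp hi hc'] at h1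
  have h2 : c = c' := by
    have h3 := congrArg (· % p ^ i) h1
    simp only [Nat.add_mul_mod_self_left] at h3
    rwa [Nat.mod_eq_of_lt hc, Nat.mod_eq_of_lt hc'] at h3
  refine ⟨h2, ?_⟩
  rw [h2] at h1
  have h3 : p ^ i * z.val = p ^ i * z'.val := by omega
  exact ZMod.val_injective _ (Nat.eq_of_mul_eq_mul_left (pow_pos hp.pos _) h3)

/-- the quotient by `p ^ i` -/
def nikS_quo (p k i : ℕ) (x : ZMod (p ^ k)) : ZMod (p ^ (k - i)) := ((x.val / p ^ i : ℕ) : ZMod (p ^ (k - i)))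

theorem nikS_rec {p k i : ℕ} (hp : p.Prime) (hi : i ≤ k) (x : ZMod (p ^ k)) :
    ((x.val % p ^ i : ℕ) : ZMod (p ^ k)) + nikS_th p k i (nikS_quo p k i x) = x := by
  have : NeZero (p ^ k) := ⟨(pow_pos hp.pos _).ne'⟩
  unfold nikS_quo
  rw [nikS_th_nat hi, ← Nat.cast_add, Nat.mod_add_div, ZMod.natCast_zmod_val]

/-- a point on a line at a parameter of valuation `i` -/
theorem nikS_line {p k i : ℕ} (hp : p.Prime) (hi : i ≤ k) (x u v : ZMod (p ^ k)) :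
    x + ((p ^ i : ℕ) : ZMod (p ^ k)) * u * v =
      ((x.val % p ^ i : ℕ) : ZMod (p ^ k)) + nikS_th p k i (nikS_quo p k i x +
        (u.val : ZMod (p ^ (k - i))) * (v.val : ZMod (p ^ (k - i)))) := by
  have : NeZero (p ^ k) := ⟨(pow_pos hp.pos _).ne'⟩
  rw [nikS_th_add hp hi, ← add_assoc, nikS_rec hp hi x, ← Nat.cast_mul, nikS_th_nat hi]
  push_cast
  rw [ZMod.natCast_zmod_val, ZMod.natCast_zmod_val]
  ring

theorem nikS_unit {p k i : ℕ} (hp : p.Prime) {u : ZMod (p ^ k)} (hu : IsUnit u) :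
    IsUnit (u.val : ZMod (p ^ (k - i))) := by
  have : NeZero (p ^ k) := ⟨(pow_pos hp.pos _).ne'⟩
  rw [← ZMod.natCast_zmod_val u, ZMod.isUnit_iff_coprime] at hu
  rw [ZMod.isUnit_iff_coprime]
  exact hu.coprime_dvd_right (pow_dvd_pow p (Nat.sub_le k i))

/-- nonzero elements -/
theorem nikS_nz {p k : ℕ} (hp : p.Prime) {τ : ZMod (p ^ k)} (hτ : τ ≠ 0) :
    ∃ i < k, ∃ u : ZMod (p ^ k), IsUnit u ∧ τ = ((p ^ i : ℕ) : ZMod (p ^ k)) * u := by
  have : NeZero (p ^ k) := ⟨(pow_pos hp.pos _).ne'⟩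
  have h0 : τ.val ≠ 0 := by
    rwa [Ne, ZMod.val_eq_zero]
  obtain ⟨i, m, hm, hτm⟩ := Nat.exists_eq_pow_mul_and_not_dvd h0 p hp.ne_one
  have hi : i < k := by
    by_contra hcon
    have h1 : p ^ k ≤ p ^ i := Nat.pow_le_pow_right hp.pos (by omega)
    have h2 : τ.val < p ^ k := ZMod.val_lt τ
    have h3 : 1 ≤ m := by
      rcases Nat.eq_zero_or_pos m with h | h
      · exact absurd (h ▸ dvd_zero p) hm
      · exact h
    have h4 : p ^ i ≤ p ^ i * m := Nat.le_mul_of_pos_right _ h3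
    omega
  refine ⟨i, hi, (m : ZMod (p ^ k)), ?_, ?_⟩
  · rw [ZMod.isUnit_iff_coprime]
    exact (Nat.Coprime.pow_left k ((Nat.Prime.coprime_iff_not_dvd hp).2 hm)).symm
  · rw [← Nat.cast_mul, ← hτm, ZMod.natCast_zmod_val]

/-- the class of the points for which the parameters of valuation `i` are many -/
def nikS_X (p k n i m : ℕ) (E : Finset (Fin n → ZMod (p ^ k))) : Set (Fin n → ZMod (p ^ k)) :=
  {x | ∃ v : Fin n → ZMod (p ^ k), (∃ j, IsUnit (v j)) ∧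
    m ≤ {τ : ZMod (p ^ k) | (∃ u, IsUnit u ∧ τ = ((p ^ i : ℕ) : ZMod (p ^ k)) * u) ∧
      x + τ • v ∈ E}.ncard}

theorem nikS_scale {p k n i : ℕ} (hp : p.Prime) (hi : i < k) (E : Finset (Fin n → ZMod (p ^ k)))
    {m : ℕ} (hm : 1 ≤ m) :
    (nikS_X p k n i m E).ncard * m ^ n ≤
      2 * n * (2 * n * k) ^ (n - 1) * (p ^ (k - i)) ^ n * E.card := by
  classical
  have i1 : NeZero (p ^ k) := ⟨(pow_pos hp.pos _).ne'⟩
  have i2 : NeZero (p ^ (k - i)) := ⟨(pow_pos hp.pos _).ne'⟩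
  have hle : i ≤ k := hi.le
  have hpi : 0 < p ^ i := pow_pos hp.pos _
  -- the point of a coset
  set pt : (Fin n → Fin (p ^ i)) → (Fin n → ZMod (p ^ (k - i))) → (Fin n → ZMod (p ^ k)) :=
    fun c z j => (((c j : ℕ)) : ZMod (p ^ k)) + nikS_th p k i (z j) with hpt
  have hinj : ∀ c c' z z', pt c z = pt c' z' → c = c' ∧ z = z' := by
    intro c c' z z' h
    have h1 : ∀ j, (c j : ℕ) = (c' j : ℕ) ∧ z j = z' j := fun j =>
      nikS_inj hp hle (c j).2 (c' j).2 (congrFun h j)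
    exact ⟨funext fun j => Fin.ext (h1 j).1, funext fun j => (h1 j).2⟩
  set Ec : (Fin n → Fin (p ^ i)) → Finset (Fin n → ZMod (p ^ (k - i))) :=
    fun c => Finset.univ.filter fun z => pt c z ∈ E with hEc
  set Y : (Fin n → Fin (p ^ i)) → Set (Fin n → ZMod (p ^ (k - i))) := fun c =>
    {x | ∃ v : Fin n → ZMod (p ^ (k - i)), (∃ j, IsUnit (v j)) ∧
      m ≤ {τ : ZMod (p ^ (k - i)) | IsUnit τ ∧ x + τ • v ∈ Ec c}.ncard} with hY
  have hYc : ∀ c, (Y c).ncard * m ^ n ≤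
      2 * n * (2 * n * k) ^ (n - 1) * (p ^ (k - i)) ^ n * (Ec c).card := by
    intro c
    refine (nikodymUnit p (k - i) n hp (by omega) (Ec c) m hm).trans ?_
    gcongr
    omega
  -- the sets `X` and `Y`
  set XF : Finset (Fin n → ZMod (p ^ k)) := (nikS_X p k n i m E).toFinset with hXF
  have hX : (nikS_X p k n i m E).ncard = XF.card := Set.ncard_eq_toFinset_card' _
  have hXle : XF.card ≤ ∑ c, (Y c).ncard := by
    have h1 : XF.card ≤ (Finset.univ.sigma fun c => (Y c).toFinset).card := by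
      refine Finset.card_le_card_of_injOn
        (fun x => (⟨fun j => ⟨(x j).val % p ^ i, Nat.mod_lt _ hpi⟩, fun j => nikS_quo p k i (x j)⟩ :
          (_ : Fin n → Fin (p ^ i)) × (Fin n → ZMod (p ^ (k - i))))) ?_ ?_
      · intro x hx
        have hx' : x ∈ nikS_X p k n i m E := by
          simpa [hXF] using hx
        obtain ⟨v, ⟨j0, hj0⟩, hv⟩ := hx'
        simp only [Finset.coe_sigma, Set.mem_sigma_iff, Finset.coe_univ, Set.mem_univ, true_and,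
          Set.coe_toFinset]
        refine ⟨fun j => ((v j).val : ZMod (p ^ (k - i))), ⟨j0, nikS_unit hp hj0⟩, hv.trans ?_⟩
        refine (Set.ncard_le_ncard (t := nikS_th p k i '' {τ : ZMod (p ^ (k - i)) | IsUnit τ ∧
          (fun j => nikS_quo p k i (x j)) + τ • (fun j => ((v j).val : ZMod (p ^ (k - i)))) ∈
            Ec (fun j => ⟨(x j).val % p ^ i, Nat.mod_lt _ hpi⟩)}) ?_ (Set.toFinite _)).trans
              (Set.ncard_image_le (Set.toFinite _))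
        rintro τ ⟨⟨u, hu, rfl⟩, hτ⟩
        refine ⟨(u.val : ZMod (p ^ (k - i))), ⟨nikS_unit hp hu, ?_⟩, ?_⟩
        · rw [hEc]
          simp only [Finset.mem_filter, Finset.mem_univ, true_and]
          have h2 : pt (fun j => ⟨(x j).val % p ^ i, Nat.mod_lt _ hpi⟩)
              ((fun j => nikS_quo p k i (x j)) + (u.val : ZMod (p ^ (k - i))) •
                (fun j => ((v j).val : ZMod (p ^ (k - i))))) =
              x + (((p ^ i : ℕ) : ZMod (p ^ k)) * u) • v := by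
            funext j
            rw [hpt]
            simp only [Pi.add_apply, Pi.smul_apply, smul_eq_mul]
            exact (nikS_line hp hle (x j) u (v j)).symm
          rw [h2]
          exact hτ
        · rw [nikS_th_nat hle, Nat.cast_mul, ZMod.natCast_zmod_val]
      · intro x _ y _ hxy
        simp only [Sigma.mk.injEq] at hxy
        obtain ⟨h2, h3⟩ := hxy
        have h3 := eq_of_heq h3
        funext j
        have h4 : (x j).val % p ^ i = (y j).val % p ^ i := congrArg Fin.val (congrFun h2 j)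
        have h5 : nikS_quo p k i (x j) = nikS_quo p k i (y j) := congrFun h3 j
        rw [← nikS_rec hp hle (x j), ← nikS_rec hp hle (y j), h4, h5]
    rw [Finset.card_sigma] at h1
    refine h1.trans (le_of_eq ?_)
    refine Finset.sum_congr rfl fun c _ => ?_
    exact (Set.ncard_eq_toFinset_card' _).symm
  have hEle : ∑ c, (Ec c).card ≤ E.card := by
    rw [← Finset.card_sigma]
    refine Finset.card_le_card_of_injOn (fun q => pt q.1 q.2) ?_ ?_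
    · intro q hq
      simp only [Finset.coe_sigma, Set.mem_sigma_iff, Finset.coe_univ, Set.mem_univ, true_and] at hq
      have : q.2 ∈ Ec q.1 := hq
      rw [hEc] at this
      simpa using this
    · intro q _ q' _ h
      obtain ⟨h1, h2⟩ := hinj _ _ _ _ h
      cases q
      cases q'
      simp only at h1 h2
      subst h1
      subst h2
      rfl
  rw [hX]
  calc XF.card * m ^ n ≤ (∑ c, (Y c).ncard) * m ^ n := Nat.mul_le_mul_right _ hXle
    _ = ∑ c, (Y c).ncard * m ^ n := Finset.sum_mul _ _ _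
    _ ≤ ∑ c, 2 * n * (2 * n * k) ^ (n - 1) * (p ^ (k - i)) ^ n * (Ec c).card :=
        Finset.sum_le_sum fun c _ => hYc c
    _ = 2 * n * (2 * n * k) ^ (n - 1) * (p ^ (k - i)) ^ n * ∑ c, (Ec c).card := by
        rw [Finset.mul_sum]
    _ ≤ 2 * n * (2 * n * k) ^ (n - 1) * (p ^ (k - i)) ^ n * E.card := Nat.mul_le_mul_left _ hEle

/-- the estimate of one scale -/
theorem nikS_real {p k n i : ℕ} (hp : p.Prime) (hi : i < k) (hn : 1 ≤ n)
    (E : Finset (Fin n → ZMod (p ^ k))) {μ : ℕ} (hμ : 1 ≤ μ) {m : ℕ} (hm : 3 ^ i * μ ≤ 4 ^ (i + 1) * m) :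
    ((nikS_X p k n i m E).ncard : ℝ) * (μ : ℝ) ^ n ≤
      4 ^ n * (2 * n * (2 * n * k) ^ (n - 1)) * ((p : ℝ) ^ k) ^ n * E.card * (2 / 3 : ℝ) ^ i := by
  have hm1 : 1 ≤ m := by
    rcases Nat.eq_zero_or_pos m with h | h
    · subst h
      have : 0 < 3 ^ i * μ := by positivity
      omega
    · exact h
  have h1 : ((nikS_X p k n i m E).ncard : ℝ) * (m : ℝ) ^ n ≤
      2 * n * (2 * n * k) ^ (n - 1) * ((p : ℝ) ^ (k - i)) ^ n * E.card := by
    exact_mod_cast nikS_scale hp hi E hm1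
  obtain ⟨A, hA⟩ : ∃ A : ℝ, A = ((nikS_X p k n i m E).ncard : ℝ) := ⟨_, rfl⟩
  obtain ⟨C, hC⟩ : ∃ C : ℝ, C = 2 * n * (2 * n * k) ^ (n - 1) := ⟨_, rfl⟩
  have hA0 : 0 ≤ A := by rw [hA]; positivity
  have hC0 : 0 ≤ C := by rw [hC]; positivity
  rw [← hA, ← hC] at h1
  rw [← hA, ← hC]
  have hm' : (3 : ℝ) ^ i * μ ≤ 4 ^ (i + 1) * m := by exact_mod_cast hm
  have hp2 : (2 : ℝ) ≤ p := by exact_mod_cast hp.two_le
  have h2 : ((3 : ℝ) ^ i * μ) ^ n ≤ (4 ^ (i + 1) * m) ^ n := pow_le_pow_left₀ (by positivity) hm' n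
  have h3 : (A * (μ : ℝ) ^ n) * ((3 : ℝ) ^ i) ^ n ≤
      ((4 : ℝ) ^ i) ^ n * (4 ^ n * C * ((p : ℝ) ^ (k - i)) ^ n * E.card) := by
    calc (A * (μ : ℝ) ^ n) * ((3 : ℝ) ^ i) ^ n = A * ((3 : ℝ) ^ i * μ) ^ n := by rw [mul_pow]; ring
      _ ≤ A * (4 ^ (i + 1) * m) ^ n := mul_le_mul_of_nonneg_left h2 hA0
      _ = (4 ^ (i + 1) : ℝ) ^ n * (A * (m : ℝ) ^ n) := by rw [mul_pow]; ring
      _ ≤ (4 ^ (i + 1) : ℝ) ^ n * (C * ((p : ℝ) ^ (k - i)) ^ n * E.card) :=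
          mul_le_mul_of_nonneg_left h1 (by positivity)
      _ = _ := by rw [pow_succ, mul_pow]; ring
  have h4 : ((4 : ℝ) ^ i) ^ n ≤ (2 / 3 : ℝ) ^ i * ((p : ℝ) ^ i) ^ n * ((3 : ℝ) ^ i) ^ n := by
    have e1 : ((4 : ℝ) ^ i) ^ n = ((2 / 3 : ℝ) ^ i) ^ n * ((2 : ℝ) ^ i) ^ n * ((3 : ℝ) ^ i) ^ n := by
      rw [← mul_pow, ← mul_pow, ← mul_pow, ← mul_pow]
      norm_num
    rw [e1]
    have e2 : ((2 / 3 : ℝ) ^ i) ^ n ≤ (2 / 3 : ℝ) ^ i :=
      pow_le_of_le_one (by positivity) (pow_le_one₀ (by norm_num) (by norm_num)) (by omega)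
    have e3 : ((2 : ℝ) ^ i) ^ n ≤ ((p : ℝ) ^ i) ^ n :=
      pow_le_pow_left₀ (by positivity) (pow_le_pow_left₀ (by norm_num) hp2 i) n
    exact mul_le_mul_of_nonneg_right (mul_le_mul e2 e3 (by positivity) (by positivity)) (by positivity)
  have h5 : ((p : ℝ) ^ k) ^ n = ((p : ℝ) ^ i) ^ n * ((p : ℝ) ^ (k - i)) ^ n := by
    rw [← mul_pow, ← pow_add, Nat.add_sub_cancel' hi.le]
  have h6 : (0 : ℝ) < ((3 : ℝ) ^ i) ^ n := by positivity
  refine le_of_mul_le_mul_right ?_ h6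
  refine h3.trans ?_
  calc ((4 : ℝ) ^ i) ^ n * (4 ^ n * C * ((p : ℝ) ^ (k - i)) ^ n * E.card) ≤
        ((2 / 3 : ℝ) ^ i * ((p : ℝ) ^ i) ^ n * ((3 : ℝ) ^ i) ^ n) *
          (4 ^ n * C * ((p : ℝ) ^ (k - i)) ^ n * E.card) :=
        mul_le_mul_of_nonneg_right h4 (by positivity)
    _ = _ := by rw [h5]; ring

/-- pigeonhole over the scales -/
theorem nikS_pig {k : ℕ} (hk : 1 ≤ k) {μ : ℕ} (hμ : 1 ≤ μ) (a : ℕ → ℕ)
    (h : μ ≤ ∑ i ∈ Finset.range k, a i) : ∃ i < k, 3 ^ i * μ ≤ 4 ^ (i + 1) * a i := by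
  by_contra hcon
  push Not at hcon
  have h1 : ∀ i ∈ Finset.range k, (a i : ℝ) < (μ : ℝ) * ((3 / 4 : ℝ) ^ i / 4) := by
    intro i hi
    have h2 := hcon i (Finset.mem_range.1 hi)
    have h3 : (4 : ℝ) ^ (i + 1) * a i < 3 ^ i * μ := by exact_mod_cast h2
    have h4 : (0 : ℝ) < 4 ^ (i + 1) := by positivity
    have h5 : (μ : ℝ) * ((3 / 4 : ℝ) ^ i / 4) = (3 ^ i * μ) / 4 ^ (i + 1) := by
      rw [div_pow, pow_succ]
      field_simp
    rw [h5, lt_div_iff₀ h4]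
    linarith
  have h2 : (∑ i ∈ Finset.range k, (a i : ℝ)) < ∑ i ∈ Finset.range k, (μ : ℝ) * ((3 / 4 : ℝ) ^ i / 4) :=
    Finset.sum_lt_sum_of_nonempty (Finset.nonempty_range_iff.2 (by omega)) h1
  have h3 : ∑ i ∈ Finset.range k, (μ : ℝ) * ((3 / 4 : ℝ) ^ i / 4) = μ * (1 - (3 / 4 : ℝ) ^ k) := by
    rw [← Finset.mul_sum, ← Finset.sum_div, geom_sum_eq (by norm_num)]
    ring
  have h4 : (μ : ℝ) ≤ ∑ i ∈ Finset.range k, (a i : ℝ) := by exact_mod_cast h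
  have h5 : (0 : ℝ) ≤ μ * (3 / 4 : ℝ) ^ k := by positivity
  rw [h3] at h2
  linarith

theorem nikodym (p k n : ℕ) (hp : p.Prime) (hk : 1 ≤ k)
    (E : Finset (Fin n → ZMod (p ^ k))) (μ : ℕ) (hμ : 1 ≤ μ) :
    {x : Fin n → ZMod (p ^ k) | ∃ v : Fin n → ZMod (p ^ k), (∃ i, IsUnit (v i)) ∧
      μ ≤ {τ : ZMod (p ^ k) | x + τ • v ∈ E}.ncard}.ncard * μ ^ n ≤
      7 * n * 4 ^ n * (2 * n * k) ^ (n - 1) * (p ^ k) ^ n * E.card := by
  classical
  have i1 : NeZero (p ^ k) := ⟨(pow_pos hp.pos _).ne'⟩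
  set X : Set (Fin n → ZMod (p ^ k)) := {x : Fin n → ZMod (p ^ k) | ∃ v : Fin n → ZMod (p ^ k),
    (∃ i, IsUnit (v i)) ∧ μ ≤ {τ : ZMod (p ^ k) | x + τ • v ∈ E}.ncard} with hX
  rcases X.eq_empty_or_nonempty with h0 | ⟨x1, v1, ⟨j1, -⟩, hx1⟩
  · rw [h0, Set.ncard_empty, zero_mul]
    exact Nat.zero_le _
  have hn : 1 ≤ n := by
    have := j1.2
    omega
  have hμN : μ ≤ p ^ k := by
    refine hx1.trans ?_
    refine (Set.ncard_le_ncard (Set.subset_univ _) (Set.toFinite _)).trans ?_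
    rw [Set.ncard_univ, Nat.card_eq_fintype_card, ZMod.card]
  -- the number of parameters at scale `i`
  set m : ℕ → ℕ := fun i => (3 ^ i * μ + 4 ^ (i + 1) - 1) / 4 ^ (i + 1) with hm
  have hm1 : ∀ i, 3 ^ i * μ ≤ 4 ^ (i + 1) * m i := by
    intro i
    have h1 : 0 < 4 ^ (i + 1) := by positivity
    have h2 := Nat.div_add_mod (3 ^ i * μ + 4 ^ (i + 1) - 1) (4 ^ (i + 1))
    have h3 := Nat.mod_lt (3 ^ i * μ + 4 ^ (i + 1) - 1) h1
    show 3 ^ i * μ ≤ 4 ^ (i + 1) * ((3 ^ i * μ + 4 ^ (i + 1) - 1) / 4 ^ (i + 1))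
    omega
  have hm2 : ∀ i a, 3 ^ i * μ ≤ 4 ^ (i + 1) * a → m i ≤ a := by
    intro i a h
    have h1 : 0 < 4 ^ (i + 1) := by positivity
    show (3 ^ i * μ + 4 ^ (i + 1) - 1) / 4 ^ (i + 1) ≤ a
    rw [Nat.div_le_iff_le_mul_add_pred h1]
    omega
  have hsub : X ⊆ (E : Set (Fin n → ZMod (p ^ k))) ∪
      ⋃ i ∈ Finset.range k, nikS_X p k n i (m i) E := by
    rintro x ⟨v, hv, hx⟩
    by_cases hxE : x ∈ E
    · exact Or.inl hxE
    refine Or.inr ?_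
    have h1 : {τ : ZMod (p ^ k) | x + τ • v ∈ E} ⊆ ⋃ i ∈ Finset.range k,
        {τ : ZMod (p ^ k) | (∃ u, IsUnit u ∧ τ = ((p ^ i : ℕ) : ZMod (p ^ k)) * u) ∧
          x + τ • v ∈ E} := by
      intro τ hτ
      have hτ0 : τ ≠ 0 := by
        rintro rfl
        have hτ' : x + (0 : ZMod (p ^ k)) • v ∈ E := hτ
        rw [zero_smul, add_zero] at hτ'
        exact hxE hτ'
      obtain ⟨i, hi, u, hu, hτu⟩ := nikS_nz hp hτ0
      exact Set.mem_biUnion (Finset.mem_coe.2 (Finset.mem_range.2 hi)) ⟨⟨u, hu, hτu⟩, hτ⟩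
    have h2 : μ ≤ ∑ i ∈ Finset.range k,
        {τ : ZMod (p ^ k) | (∃ u, IsUnit u ∧ τ = ((p ^ i : ℕ) : ZMod (p ^ k)) * u) ∧
          x + τ • v ∈ E}.ncard :=
      hx.trans ((Set.ncard_le_ncard h1 (Set.toFinite _)).trans
        (Finset.set_ncard_biUnion_le (Finset.range k) _))
    obtain ⟨i, hi, h3⟩ := nikS_pig hk hμ _ h2
    exact Set.mem_biUnion (Finset.mem_coe.2 (Finset.mem_range.2 hi)) ⟨v, hv, hm2 i _ h3⟩
  have hcard : X.ncard ≤ E.card + ∑ i ∈ Finset.range k, (nikS_X p k n i (m i) E).ncard := by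
    refine (Set.ncard_le_ncard hsub (Set.toFinite _)).trans ((Set.ncard_union_le _ _).trans ?_)
    rw [Set.ncard_coe_finset]
    exact Nat.add_le_add_left (Finset.set_ncard_biUnion_le (Finset.range k) _) _
  obtain ⟨C, hC⟩ : ∃ C : ℝ, C = 2 * n * (2 * n * k) ^ (n - 1) := ⟨_, rfl⟩
  have hk' : (1 : ℝ) ≤ k := by exact_mod_cast hk
  have hn' : (1 : ℝ) ≤ n := by exact_mod_cast hn
  have hC2 : 2 ≤ C := by
    rw [hC]
    have e1 : (1 : ℝ) ≤ (2 * n * k) ^ (n - 1) := one_le_pow₀ (by nlinarith)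
    nlinarith
  have hN0 : (0 : ℝ) ≤ ((p : ℝ) ^ k) ^ n := by positivity
  have hreal : (X.ncard : ℝ) * (μ : ℝ) ^ n ≤
      7 * n * 4 ^ n * (2 * n * k) ^ (n - 1) * ((p : ℝ) ^ k) ^ n * E.card := by
    have h1 : (X.ncard : ℝ) ≤ E.card + ∑ i ∈ Finset.range k, ((nikS_X p k n i (m i) E).ncard : ℝ) := by
      exact_mod_cast hcard
    have h2 : (X.ncard : ℝ) * (μ : ℝ) ^ n ≤ E.card * (μ : ℝ) ^ n +
        ∑ i ∈ Finset.range k, ((nikS_X p k n i (m i) E).ncard : ℝ) * (μ : ℝ) ^ n := by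
      rw [← Finset.sum_mul, ← add_mul]
      exact mul_le_mul_of_nonneg_right h1 (by positivity)
    have h3 : (E.card : ℝ) * (μ : ℝ) ^ n ≤ E.card * ((p : ℝ) ^ k) ^ n := by
      refine mul_le_mul_of_nonneg_left (pow_le_pow_left₀ (by positivity) ?_ n) (by positivity)
      exact_mod_cast hμN
    have h4 : ∑ i ∈ Finset.range k, ((nikS_X p k n i (m i) E).ncard : ℝ) * (μ : ℝ) ^ n ≤
        ∑ i ∈ Finset.range k, 4 ^ n * C * ((p : ℝ) ^ k) ^ n * E.card * (2 / 3 : ℝ) ^ i := by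
      refine Finset.sum_le_sum fun i hi => ?_
      rw [hC]
      exact nikS_real hp (Finset.mem_range.1 hi) hn E hμ (hm1 i)
    have h5 : ∑ i ∈ Finset.range k, (2 / 3 : ℝ) ^ i ≤ 3 := by
      rw [geom_sum_eq (by norm_num)]
      have : (0 : ℝ) ≤ (2 / 3) ^ k := by positivity
      rw [div_le_iff_of_neg (by norm_num)]
      linarith
    rw [← Finset.mul_sum] at h4
    have h6 : 4 ^ n * C * ((p : ℝ) ^ k) ^ n * E.card * ∑ i ∈ Finset.range k, (2 / 3 : ℝ) ^ i ≤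
        4 ^ n * C * ((p : ℝ) ^ k) ^ n * E.card * 3 :=
      mul_le_mul_of_nonneg_left h5 (by positivity)
    have h7 : (E.card : ℝ) * ((p : ℝ) ^ k) ^ n ≤ 4 ^ n * C * ((p : ℝ) ^ k) ^ n * E.card / 2 := by
      have e1 : (1 : ℝ) ≤ 4 ^ n := one_le_pow₀ (by norm_num)
      have e2 : (1 : ℝ) ≤ 4 ^ n * C / 2 := by nlinarith
      have e3 : (0 : ℝ) ≤ (E.card : ℝ) * ((p : ℝ) ^ k) ^ n := by positivity
      nlinarith
    have h8 : 4 ^ n * C * ((p : ℝ) ^ k) ^ n * E.card / 2 + 4 ^ n * C * ((p : ℝ) ^ k) ^ n * E.card * 3 =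
        7 * n * 4 ^ n * (2 * n * k) ^ (n - 1) * ((p : ℝ) ^ k) ^ n * E.card := by
      rw [hC]
      ring
    linarith
  exact_mod_cast hreal

end PTD
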