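import Mathlib

set_option autoImplicit false

namespace PTD

open Filter Asymptotics

/-- A power of the logarithm is at most `δ ^ (-ε)` for small `δ`. -/
theorem log_small (p : ℝ) (A B : ℝ) (j : ℕ) (ε : ℝ) (hε : 0 < ε) :
    ∃ δ₀ : ℝ, 0 < δ₀ ∧ δ₀ ≤ 1 ∧ ∀ δ : ℝ, 0 < δ → δ < δ₀ →
      A * (B * (1 + Real.logb p (1 / δ))) ^ j ≤ δ ^ (-ε) := by
  have h1 : (fun x : ℝ => B * (1 + Real.logb p x)) =o[atTop] (fun x : ℝ => x ^ (ε / (j + 1))) := by
    have he : 0 < ε / (j + 1) := by positivity
    have h2 : (fun x : ℝ => Real.logb p x) =o[atTop] (fun x : ℝ => x ^ (ε / (j + 1))) := by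
      have h3 := (isLittleO_log_rpow_atTop he).const_mul_left (1 / Real.log p)
      refine h3.congr_left (fun x => ?_)
      rw [Real.logb]; ring
    have h4 : (fun _ : ℝ => (1 : ℝ)) =o[atTop] (fun x : ℝ => x ^ (ε / (j + 1))) := by
      rw [isLittleO_const_left]
      right
      exact tendsto_norm_atTop_atTop.comp (tendsto_rpow_atTop he)
    exact (h4.add h2).const_mul_left B
  have h5 : (fun x : ℝ => A * (B * (1 + Real.logb p x)) ^ j) =o[atTop] (fun x : ℝ => x ^ ε) := by
    have he : 0 < ε / (j + 1) := by positivity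
    have h6 : (fun x : ℝ => (B * (1 + Real.logb p x)) ^ j) =O[atTop]
        (fun x : ℝ => (x ^ (ε / (j + 1))) ^ j) := h1.isBigO.pow j
    have h7 : (fun x : ℝ => (x ^ (ε / (j + 1))) ^ j) =o[atTop] (fun x : ℝ => x ^ ε) := by
      have h8 : (fun x : ℝ => x ^ (ε / (j + 1) * j)) =o[atTop] (fun x : ℝ => x ^ ε) := by
        have hlt : 0 < ε - ε / (j + 1) * j := by
          have : ε = ε / (j + 1) * (j + 1) := by field_simp
          nlinarith
        rw [isLittleO_iff_tendsto']
        · have h9 := tendsto_rpow_neg_atTop hlt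
          refine h9.congr' ?_
          filter_upwards [eventually_gt_atTop (0 : ℝ)] with x hx
          rw [← Real.rpow_sub hx]
          congr 1
          ring
        · filter_upwards [eventually_gt_atTop (0 : ℝ)] with x hx h0
          exact absurd h0 (Real.rpow_pos_of_pos hx _).ne'
      refine h8.congr' ?_ EventuallyEq.rfl
      filter_upwards [eventually_ge_atTop (0 : ℝ)] with x hx
      rw [Real.rpow_mul hx, Real.rpow_natCast]
    exact (h6.trans_isLittleO h7).const_mul_left A
  have h9 : ∀ᶠ x : ℝ in atTop, A * (B * (1 + Real.logb p x)) ^ j ≤ x ^ ε := by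
    filter_upwards [h5.bound one_pos, eventually_ge_atTop (0 : ℝ)] with x hx hx0
    rw [one_mul, Real.norm_of_nonneg (Real.rpow_nonneg hx0 _)] at hx
    exact (le_abs_self _).trans hx
  obtain ⟨x₀, hx₀⟩ := (eventually_atTop.mp h9)
  refine ⟨1 / max x₀ 1, by positivity, ?_, ?_⟩
  · rw [div_le_one (by positivity)]
    exact le_max_right _ _
  · intro δ hδ hlt
    have h10 : x₀ ≤ 1 / δ := by
      have h11 : max x₀ 1 < 1 / δ := by
        rw [lt_div_iff₀ hδ]
        rw [lt_div_iff₀ (by positivity)] at hlt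
        linarith
      exact (le_max_left _ _).trans h11.le
    have h12 := hx₀ (1 / δ) h10
    refine h12.trans (le_of_eq ?_)
    rw [one_div, Real.inv_rpow hδ.le, Real.rpow_neg hδ.le]

end PTD
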