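import Pool.Agent.helper23.PTD.Tree
import Pool.Agent.helper23.PTD.Defs

set_option autoImplicit false

/-!
p-adic tube doubling, module PTD-Low: the lower bound.

Proof of `exists_lip`.  For a tree `w : T p j` put `S_w(t) = {ev w c + t c mod p^j}` (it is
enough to let `c` run over `c < p^j`, by `ev_lip`).  Double counting and `tree_count`:
`(j + p^2) ∑_w |S_w(t)| = (j + p^2) ∑_z #{w : z ∈ S_w(t)} ≤ p^j p^2 |T|` for every `t`; multiply by
`ω t`, sum over `t`, and take a `w` which is not above the average.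

Proof of `lower`.  Put `j = k - 1`.  Choose `g_1, …, g_(n-1)` one after the other with `exists_lip`,
the weight for `g_i` being `ω t = ∏_(l < i) |S_l(t)|`, `S_l(t) = {g_l(c) + t c mod p^j : c}`.  So
`(j + p^2)^(n-1) ∑_t ∏_l |S_l(t)| ≤ (p^2 p^j)^(n-1) p^j`.  Let
`L = {((0, p g_1(c_1), …), (1, c_1, …, c_(n-1))) : c ∈ (Z/p^k)^(n-1)}` (`c` through its
representatives `< p^k`).  A point of `Tub` has `x_0 = p t`, `x_l = p (g_l(c_l) + t c_l)`; it is
determined by `t mod p^j` and the classes mod `p^j` of `g_l(c_l) + t c_l`, so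
`|Tub| ≤ ∑_t ∏_l |S_l(t)|`.  For a unit `t` the map `c ↦ p g(c) + t c` on `Z/p^k` is injective
(if `p^i ∣ c - c'` with `i ≤ j`, then `p^(i+1) ∣ p (g c - g c') = t (c' - c)`), hence bijective, so
`Dil` contains every `x` with `x_0` a unit: `|Dil| ≥ (p^k - p^(k-1)) p^(k (n-1)) ≥ p^(k n - 1)`.
As `j + p^2 ≥ k` this gives `k^(n-1) |Tub| ≤ p^(2(n-1) + (k-1) n) ≤ p^(n-1) |Dil|`.
-/

namespace PTD


theorem low_nonempty (p : ℕ) [NeZero p] : ∀ j : ℕ, Nonempty (T p j)
  | 0 => ⟨(() : Unit)⟩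
  | j + 1 => by
    obtain ⟨w⟩ := low_nonempty p j
    exact ⟨fun _ => (⟨0, Nat.pos_of_ne_zero (NeZero.ne p)⟩, w)⟩

theorem low_mem (p : ℕ) [NeZero p] (j : ℕ) [NeZero (p ^ j)] (w : T p j) (t z : ZMod (p ^ j))
    (h : z ∈ Set.range (fun c : ℕ => (ev p j w c : ZMod (p ^ j)) + t * c)) :
    ∃ c : ℕ, c < p ^ j ∧
      ((p : ℤ) ^ j ∣ (ev p j w c : ℤ) + (t.val : ℤ) * c - (z.val : ℤ)) := by
  obtain ⟨c0, rfl⟩ := h
  have hpos : 0 < p ^ j := Nat.pos_of_ne_zero (NeZero.ne _)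
  refine ⟨c0 % p ^ j, Nat.mod_lt _ hpos, ?_⟩
  have h1 : c0 % p ^ j ≡ c0 [MOD p ^ j] := Nat.mod_modEq c0 (p ^ j)
  have h2 := ev_lip p j w j le_rfl _ _ h1
  have h3 : ((c0 % p ^ j : ℕ) : ZMod (p ^ j)) = (c0 : ZMod (p ^ j)) :=
    (ZMod.natCast_eq_natCast_iff _ _ _).2 h1
  have h4 : ((ev p j w (c0 % p ^ j) : ℕ) : ZMod (p ^ j)) = (ev p j w c0 : ZMod (p ^ j)) :=
    (ZMod.natCast_eq_natCast_iff _ _ _).2 h2
  have h5 : (((ev p j w (c0 % p ^ j) : ℤ) + (t.val : ℤ) * (c0 % p ^ j : ℕ) -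
      ((((ev p j w c0 : ZMod (p ^ j)) + t * c0).val : ℕ) : ℤ) : ℤ) : ZMod (p ^ j)) = 0 := by
    push_cast
    rw [ZMod.natCast_zmod_val, ZMod.natCast_zmod_val]
    have h3' : ((c0 : ZMod (p ^ j)) : ZMod (p ^ j)) = ((c0 % p ^ j : ℕ) : ZMod (p ^ j)) := h3.symm
    rw [h4]
    have h6 : (((c0 : ℤ) % ((p : ℤ) ^ j) : ℤ) : ZMod (p ^ j)) = (c0 : ZMod (p ^ j)) := by
      have h7 : ((c0 : ℤ) % ((p : ℤ) ^ j) : ℤ) = ((c0 % p ^ j : ℕ) : ℤ) := by push_cast; rfl
      rw [h7, Int.cast_natCast, h3]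
    rw [h6]
    ring
  have h6 := (ZMod.intCast_zmod_eq_zero_iff_dvd _ (p ^ j)).1 h5
  rw [Nat.cast_pow] at h6
  exact h6


open Classical in
theorem low_ncard {α : Type*} [Fintype α] (S : Set α) :
    S.ncard = ∑ z : α, if z ∈ S then 1 else 0 := by
  have h1 : S = ((Finset.univ.filter (fun z => z ∈ S) : Finset α) : Set α) := by
    ext z; simp
  conv_lhs => rw [h1]
  rw [Set.ncard_coe_finset, Finset.card_filter]

theorem low_double (p : ℕ) (hp : p.Prime) [NeZero p] (j : ℕ) [NeZero (p ^ j)]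
    (t : ZMod (p ^ j)) :
    (j + p ^ 2) * ∑ w : T p j,
      (Set.range (fun c : ℕ => (ev p j w c : ZMod (p ^ j)) + t * c)).ncard ≤
    p ^ 2 * p ^ j * Fintype.card (T p j) := by
  classical
  have h1 : ∀ z : ZMod (p ^ j),
      (∑ w : T p j, if z ∈ Set.range (fun c : ℕ => (ev p j w c : ZMod (p ^ j)) + t * c)
        then 1 else 0) * (j + p ^ 2) ≤ p ^ 2 * Fintype.card (T p j) := by
    intro z
    refine le_trans ?_ (tree_count p hp.two_le j (t.val : ℤ) (z.val : ℤ))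
    refine Nat.mul_le_mul_right _ ?_
    rw [← Finset.card_filter]
    refine Finset.card_le_card ?_
    intro w hw
    rw [Finset.mem_filter] at hw ⊢
    exact ⟨Finset.mem_univ _, low_mem p j w t z hw.2⟩
  calc (j + p ^ 2) * ∑ w : T p j,
      (Set.range (fun c : ℕ => (ev p j w c : ZMod (p ^ j)) + t * c)).ncard
      = (j + p ^ 2) * ∑ w : T p j, ∑ z : ZMod (p ^ j),
        (if z ∈ Set.range (fun c : ℕ => (ev p j w c : ZMod (p ^ j)) + t * c)
          then 1 else 0) := by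
        congr 1
        exact Finset.sum_congr rfl (fun w _ => low_ncard _)
    _ = ∑ z : ZMod (p ^ j), (∑ w : T p j,
        if z ∈ Set.range (fun c : ℕ => (ev p j w c : ZMod (p ^ j)) + t * c)
          then 1 else 0) * (j + p ^ 2) := by
        rw [Finset.sum_comm, mul_comm, Finset.sum_mul]
    _ ≤ ∑ z : ZMod (p ^ j), p ^ 2 * Fintype.card (T p j) :=
        Finset.sum_le_sum (fun z _ => h1 z)
    _ = p ^ 2 * p ^ j * Fintype.card (T p j) := by
        rw [Finset.sum_const, Finset.card_univ, ZMod.card, smul_eq_mul]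
        ring

/-- One Lipschitz function, weighted over the slopes. -/
theorem exists_lip (p j : ℕ) (hp : p.Prime) [NeZero (p ^ j)] (ω : ZMod (p ^ j) → ℕ) :
    ∃ g : ℕ → ℕ, (∀ i ≤ j, ∀ c c' : ℕ, c ≡ c' [MOD p ^ i] → g c ≡ g c' [MOD p ^ i]) ∧
      (j + p ^ 2) * ∑ t : ZMod (p ^ j),
        ω t * (Set.range (fun c : ℕ => (g c : ZMod (p ^ j)) + t * c)).ncard ≤
      p ^ 2 * p ^ j * ∑ t : ZMod (p ^ j), ω t := by
  classical
  have : NeZero p := ⟨hp.ne_zero⟩
  have := low_nonempty p j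
  obtain ⟨w, -, hw⟩ := Finset.exists_le_of_sum_le (s := (Finset.univ : Finset (T p j)))
    (f := fun w => (j + p ^ 2) * ∑ t : ZMod (p ^ j),
        ω t * (Set.range (fun c : ℕ => (ev p j w c : ZMod (p ^ j)) + t * c)).ncard)
    (g := fun _ => p ^ 2 * p ^ j * ∑ t : ZMod (p ^ j), ω t)
    Finset.univ_nonempty (by
      calc ∑ w : T p j, (j + p ^ 2) * ∑ t : ZMod (p ^ j),
          ω t * (Set.range (fun c : ℕ => (ev p j w c : ZMod (p ^ j)) + t * c)).ncard
          = ∑ t : ZMod (p ^ j), ω t * ((j + p ^ 2) * ∑ w : T p j,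
            (Set.range (fun c : ℕ => (ev p j w c : ZMod (p ^ j)) + t * c)).ncard) := by
            rw [← Finset.mul_sum, Finset.sum_comm, Finset.mul_sum]
            refine Finset.sum_congr rfl (fun t _ => ?_)
            rw [← Finset.mul_sum]
            ring
        _ ≤ ∑ t : ZMod (p ^ j), ω t * (p ^ 2 * p ^ j * Fintype.card (T p j)) :=
            Finset.sum_le_sum (fun t _ => Nat.mul_le_mul_left _ (low_double p hp j t))
        _ = ∑ w : T p j, p ^ 2 * p ^ j * ∑ t : ZMod (p ^ j), ω t := by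
            rw [Finset.sum_const, Finset.card_univ, smul_eq_mul, ← Finset.sum_mul]
            ring)
  exact ⟨ev p j w, fun i hi c c' h => ev_lip p j w i hi c c' h, hw⟩

theorem low_chain (p j : ℕ) (hp : p.Prime) [NeZero (p ^ j)] : ∀ d : ℕ,
    ∃ g : Fin d → ℕ → ℕ,
      (∀ l, ∀ i ≤ j, ∀ c c' : ℕ, c ≡ c' [MOD p ^ i] → g l c ≡ g l c' [MOD p ^ i]) ∧
      (j + p ^ 2) ^ d * ∑ t : ZMod (p ^ j), ∏ l : Fin d,
        (Set.range (fun c : ℕ => (g l c : ZMod (p ^ j)) + t * c)).ncard ≤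
      (p ^ 2 * p ^ j) ^ d * p ^ j
  | 0 => by
    refine ⟨fun l => l.elim0, fun l => l.elim0, ?_⟩
    simp
  | d + 1 => by
    obtain ⟨g, hg, hs⟩ := low_chain p j hp d
    obtain ⟨h, hh, hw⟩ := exists_lip p j hp (fun t => ∏ l : Fin d,
        (Set.range (fun c : ℕ => (g l c : ZMod (p ^ j)) + t * c)).ncard)
    refine ⟨Fin.cons h g, ?_, ?_⟩
    · intro l
      refine Fin.cases ?_ ?_ l
      · simpa using hh
      · intro l; simpa using hg l
    · have h1 : ∀ t : ZMod (p ^ j), ∏ l : Fin (d + 1),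
          (Set.range (fun c : ℕ => (((Fin.cons h g : Fin (d + 1) → ℕ → ℕ) l c : ℕ) :
            ZMod (p ^ j)) + t * c)).ncard =
          (∏ l : Fin d, (Set.range (fun c : ℕ => (g l c : ZMod (p ^ j)) + t * c)).ncard) *
          (Set.range (fun c : ℕ => (h c : ZMod (p ^ j)) + t * c)).ncard := by
        intro t
        rw [Fin.prod_univ_succ, mul_comm]
        simp only [Fin.cons_zero, Fin.cons_succ]
      rw [Finset.sum_congr rfl (fun t _ => h1 t), pow_succ, mul_assoc]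
      calc (j + p ^ 2) ^ d * ((j + p ^ 2) * ∑ t : ZMod (p ^ j), (∏ l : Fin d,
            (Set.range (fun c : ℕ => (g l c : ZMod (p ^ j)) + t * c)).ncard) *
            (Set.range (fun c : ℕ => (h c : ZMod (p ^ j)) + t * c)).ncard)
          ≤ (j + p ^ 2) ^ d * (p ^ 2 * p ^ j * ∑ t : ZMod (p ^ j), ∏ l : Fin d,
            (Set.range (fun c : ℕ => (g l c : ZMod (p ^ j)) + t * c)).ncard) :=
            Nat.mul_le_mul_left _ hw
        _ = p ^ 2 * p ^ j * ((j + p ^ 2) ^ d * ∑ t : ZMod (p ^ j), ∏ l : Fin d,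
            (Set.range (fun c : ℕ => (g l c : ZMod (p ^ j)) + t * c)).ncard) := by ring
        _ ≤ p ^ 2 * p ^ j * ((p ^ 2 * p ^ j) ^ d * p ^ j) := Nat.mul_le_mul_left _ hs
        _ = (p ^ 2 * p ^ j) ^ (d + 1) * p ^ j := by ring


/-- Multiplication by `p` from `Z / p^j` to `Z / p^(j+1)`. -/
def lowMu (p j : ℕ) (a : ZMod (p ^ j)) : ZMod (p ^ (j + 1)) := ((p * a.val : ℕ) : ZMod (p ^ (j + 1)))

theorem lowMu_natCast (p j : ℕ) [NeZero (p ^ j)] (m : ℕ) :
    lowMu p j (m : ZMod (p ^ j)) = ((p * m : ℕ) : ZMod (p ^ (j + 1))) := by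
  unfold lowMu
  rw [ZMod.val_natCast, ZMod.natCast_eq_natCast_iff]
  have h1 : p ^ (j + 1) = p * p ^ j := by ring
  rw [h1]
  exact Nat.ModEq.mul_left' p (Nat.mod_modEq m (p ^ j))

theorem low_inj (p j : ℕ) [NeZero (p ^ (j + 1))] (g : ℕ → ℕ)
    (hg : ∀ i ≤ j, ∀ c c' : ℕ, c ≡ c' [MOD p ^ i] → g c ≡ g c' [MOD p ^ i])
    (t : ZMod (p ^ (j + 1))) (ht : IsUnit t) :
    Function.Injective (fun c : ZMod (p ^ (j + 1)) =>
      ((p * g c.val : ℕ) : ZMod (p ^ (j + 1))) + t * c) := by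
  intro a b hab
  have hco : Nat.Coprime t.val (p ^ (j + 1)) := by
    rw [← ZMod.isUnit_iff_coprime, ZMod.natCast_zmod_val]
    exact ht
  have hmod : p * g a.val + t.val * a.val ≡ p * g b.val + t.val * b.val [MOD p ^ (j + 1)] := by
    rw [← ZMod.natCast_eq_natCast_iff]
    have h := hab
    simp only at h
    push_cast at h ⊢
    rw [ZMod.natCast_zmod_val, ZMod.natCast_zmod_val, ZMod.natCast_zmod_val]
    exact h
  have key : ∀ i ≤ j + 1, a.val ≡ b.val [MOD p ^ i] := by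
    intro i
    induction i with
    | zero => intro _; rw [pow_zero]; exact Nat.modEq_one
    | succ i ih =>
      intro hi
      have h1 := hg i (by omega) _ _ (ih (by omega))
      have h2 : p * g a.val ≡ p * g b.val [MOD p ^ (i + 1)] := by
        rw [pow_succ, mul_comm (p ^ i) p]
        exact Nat.ModEq.mul_left' p h1
      have h3 : p * g a.val + t.val * a.val ≡ p * g b.val + t.val * b.val [MOD p ^ (i + 1)] :=
        hmod.of_dvd (pow_dvd_pow p hi)
      have h4 : t.val * a.val ≡ t.val * b.val [MOD p ^ (i + 1)] :=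
        Nat.ModEq.add_left_cancel h2 h3
      have h5 : Nat.Coprime (p ^ (i + 1)) t.val :=
        (Nat.Coprime.coprime_dvd_right (pow_dvd_pow p hi) hco).symm
      exact Nat.ModEq.cancel_left_of_coprime h5 h4
  have h6 := key (j + 1) le_rfl
  rw [← ZMod.natCast_eq_natCast_iff, ZMod.natCast_zmod_val, ZMod.natCast_zmod_val] at h6
  exact h6

/-- The line set of `lower`. -/
def lowLine (p j d : ℕ) (g : Fin d → ℕ → ℕ) (c : Fin d → ZMod (p ^ (j + 1))) :
    (Fin (d + 1) → ZMod (p ^ (j + 1))) × (Fin (d + 1) → ZMod (p ^ (j + 1))) :=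
  (Fin.cons 0 (fun l => ((p * g l (c l).val : ℕ) : ZMod (p ^ (j + 1)))), Fin.cons 1 c)

theorem low_dil (p j d : ℕ) (hp : p.Prime) [NeZero (p ^ (j + 1))] (g : Fin d → ℕ → ℕ)
    (hg : ∀ l, ∀ i ≤ j, ∀ c c' : ℕ, c ≡ c' [MOD p ^ i] → g l c ≡ g l c' [MOD p ^ i])
    (L : Finset ((Fin (d + 1) → ZMod (p ^ (j + 1))) × (Fin (d + 1) → ZMod (p ^ (j + 1)))))
    (hL : ∀ c, lowLine p j d g c ∈ L) :
    p ^ j * (p ^ (j + 1)) ^ d ≤ (Dil p (j + 1) (d + 1) L).ncard := by
  classical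
  have hsub : Set.range (fun q : (ZMod (p ^ (j + 1)))ˣ × (Fin d → ZMod (p ^ (j + 1))) =>
      (Fin.cons (q.1 : ZMod (p ^ (j + 1))) q.2 : Fin (d + 1) → ZMod (p ^ (j + 1)))) ⊆
      Dil p (j + 1) (d + 1) L := by
    rintro _ ⟨⟨u, y⟩, rfl⟩
    have hsurj : ∀ l : Fin d, ∃ c : ZMod (p ^ (j + 1)),
        ((p * g l c.val : ℕ) : ZMod (p ^ (j + 1))) + (u : ZMod (p ^ (j + 1))) * c = y l := by
      intro l
      exact (Finite.injective_iff_surjective.1 (low_inj p j (g l) (hg l) _ u.isUnit)) (y l)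
    choose c hc using hsurj
    refine ⟨_, hL c, u, ?_⟩
    funext l
    refine Fin.cases ?_ ?_ l
    · simp [lowLine]
    · intro l
      have := hc l
      simp only [lowLine, Fin.cons_succ, Pi.add_apply, Pi.smul_apply, smul_eq_mul]
      exact this.symm
  have hinj : Function.Injective
      (fun q : (ZMod (p ^ (j + 1)))ˣ × (Fin d → ZMod (p ^ (j + 1))) =>
      (Fin.cons (q.1 : ZMod (p ^ (j + 1))) q.2 : Fin (d + 1) → ZMod (p ^ (j + 1)))) := by
    rintro ⟨u, y⟩ ⟨u', y'⟩ h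
    simp only at h
    have h1 := Fin.cons_injective2 h
    exact Prod.ext (Units.ext h1.1) h1.2
  have hcard : (Set.range (fun q : (ZMod (p ^ (j + 1)))ˣ × (Fin d → ZMod (p ^ (j + 1))) =>
      (Fin.cons (q.1 : ZMod (p ^ (j + 1))) q.2 : Fin (d + 1) → ZMod (p ^ (j + 1))))).ncard =
      Nat.totient (p ^ (j + 1)) * (p ^ (j + 1)) ^ d := by
    rw [← Set.image_univ, Set.ncard_image_of_injective _ hinj, Set.ncard_univ,
      Nat.card_eq_fintype_card, Fintype.card_prod, ZMod.card_units_eq_totient, Fintype.card_fun,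
      ZMod.card, Fintype.card_fin]
  calc p ^ j * (p ^ (j + 1)) ^ d ≤ Nat.totient (p ^ (j + 1)) * (p ^ (j + 1)) ^ d := by
        refine Nat.mul_le_mul_right _ ?_
        rw [Nat.totient_prime_pow_succ hp]
        exact Nat.le_mul_of_pos_right _ (by have := hp.two_le; omega)
    _ = _ := hcard.symm
    _ ≤ _ := Set.ncard_le_ncard hsub (Set.toFinite _)

theorem low_tub (p j d : ℕ) [NeZero (p ^ j)] [NeZero (p ^ (j + 1))]
    (g : Fin d → ℕ → ℕ)
    (L : Finset ((Fin (d + 1) → ZMod (p ^ (j + 1))) × (Fin (d + 1) → ZMod (p ^ (j + 1)))))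
    (hL : ∀ l ∈ L, ∃ c, l = lowLine p j d g c) :
    (Tub p (j + 1) (d + 1) L).ncard ≤ ∑ t : ZMod (p ^ j), ∏ l : Fin d,
        (Set.range (fun c : ℕ => (g l c : ZMod (p ^ j)) + t * c)).ncard := by
  classical
  let F : Finset (Σ _ : ZMod (p ^ j), (Fin d → ZMod (p ^ j))) :=
    Finset.univ.sigma (fun t => Fintype.piFinset (fun l =>
      (Set.range (fun c : ℕ => (g l c : ZMod (p ^ j)) + t * c)).toFinset))
  have hF : F.card = ∑ t : ZMod (p ^ j), ∏ l : Fin d,
        (Set.range (fun c : ℕ => (g l c : ZMod (p ^ j)) + t * c)).ncard := by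
    rw [Finset.card_sigma]
    refine Finset.sum_congr rfl (fun t _ => ?_)
    rw [Fintype.card_piFinset]
    refine Finset.prod_congr rfl (fun l _ => ?_)
    rw [Set.ncard_eq_toFinset_card']
  have hsub : Tub p (j + 1) (d + 1) L ⊆ ((F.image (fun q =>
      (Fin.cons (lowMu p j q.1) (fun l => lowMu p j (q.2 l)) :
        Fin (d + 1) → ZMod (p ^ (j + 1)))) : Finset _) : Set (Fin (d + 1) → ZMod (p ^ (j + 1)))) := by
    rintro x ⟨l, hl, t, rfl⟩
    obtain ⟨c, rfl⟩ := hL l hl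
    rw [Finset.coe_image, Set.mem_image]
    refine ⟨⟨(t.val : ZMod (p ^ j)), fun l => ((g l (c l).val : ℕ) : ZMod (p ^ j)) +
      (t.val : ZMod (p ^ j)) * ((c l).val : ℕ)⟩, ?_, ?_⟩
    · rw [Finset.mem_coe, Finset.mem_sigma]
      refine ⟨Finset.mem_univ _, ?_⟩
      rw [Fintype.mem_piFinset]
      intro l
      rw [Set.mem_toFinset]
      exact ⟨(c l).val, rfl⟩
    · funext l
      refine Fin.cases ?_ ?_ l
      · simp only [lowLine, Fin.cons_zero, Pi.add_apply, Pi.smul_apply, smul_eq_mul]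
        rw [lowMu_natCast]
        push_cast
        rw [ZMod.natCast_zmod_val]
        ring
      · intro l
        simp only [lowLine, Fin.cons_succ, Pi.add_apply, Pi.smul_apply, smul_eq_mul]
        have h1 : ((g l (c l).val : ℕ) : ZMod (p ^ j)) +
            (t.val : ZMod (p ^ j)) * ((c l).val : ℕ) =
            ((g l (c l).val + t.val * (c l).val : ℕ) : ZMod (p ^ j)) := by push_cast; ring
        rw [h1, lowMu_natCast]
        push_cast
        rw [ZMod.natCast_zmod_val, ZMod.natCast_zmod_val]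
        ring
  calc (Tub p (j + 1) (d + 1) L).ncard ≤ _ := Set.ncard_le_ncard hsub (Finset.finite_toSet _)
    _ = _ := Set.ncard_coe_finset _
    _ ≤ F.card := Finset.card_image_le
    _ = _ := hF

/-- The lower bound: a loss of at least `(k / p)^(n-1)` occurs. -/
theorem lower (p k n : ℕ) (hp : p.Prime) (hk : 1 ≤ k) (hn : 1 ≤ n) :
    ∃ L : Finset ((Fin n → ZMod (p ^ k)) × (Fin n → ZMod (p ^ k))),
      (∀ l ∈ L, ∃ i, IsUnit (l.2 i)) ∧ L.Nonempty ∧
      k ^ (n - 1) * (Tub p k n L).ncard ≤ p ^ (n - 1) * (Dil p k n L).ncard := by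
  classical
  obtain ⟨d, rfl⟩ : ∃ d, n = d + 1 := ⟨n - 1, by omega⟩
  obtain ⟨j, rfl⟩ : ∃ j, k = j + 1 := ⟨k - 1, by omega⟩
  have i1 : NeZero (p ^ j) := ⟨pow_ne_zero _ hp.ne_zero⟩
  have i2 : NeZero (p ^ (j + 1)) := ⟨pow_ne_zero _ hp.ne_zero⟩
  obtain ⟨g, hg, hs⟩ := low_chain p j hp d
  refine ⟨Finset.univ.image (lowLine p j d g), ?_, ?_, ?_⟩
  · intro l hl
    obtain ⟨c, -, rfl⟩ := Finset.mem_image.1 hl
    exact ⟨0, by simp [lowLine]⟩
  · exact Finset.univ_nonempty.image _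
  · have h1 := low_dil p j d hp g hg (Finset.univ.image (lowLine p j d g))
      (fun c => Finset.mem_image_of_mem _ (Finset.mem_univ c))
    have h2 := low_tub p j d g (Finset.univ.image (lowLine p j d g))
      (fun l hl => by
        obtain ⟨c, -, rfl⟩ := Finset.mem_image.1 hl
        exact ⟨c, rfl⟩)
    have h3 : j + 1 ≤ j + p ^ 2 := by
      have : 1 ≤ p ^ 2 := Nat.one_le_pow _ _ hp.pos
      omega
    rw [Nat.add_sub_cancel]
    calc (j + 1) ^ d * (Tub p (j + 1) (d + 1) (Finset.univ.image (lowLine p j d g))).ncard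
        ≤ (j + p ^ 2) ^ d * ∑ t : ZMod (p ^ j), ∏ l : Fin d,
          (Set.range (fun c : ℕ => (g l c : ZMod (p ^ j)) + t * c)).ncard :=
          Nat.mul_le_mul (Nat.pow_le_pow_left h3 d) h2
      _ ≤ (p ^ 2 * p ^ j) ^ d * p ^ j := hs
      _ = p ^ d * (p ^ j * (p ^ (j + 1)) ^ d) := by
          have : p ^ 2 * p ^ j = p * p ^ (j + 1) := by ring
          rw [this, mul_pow]
          ring
      _ ≤ p ^ d * (Dil p (j + 1) (d + 1) (Finset.univ.image (lowLine p j d g))).ncard :=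
          Nat.mul_le_mul_left _ h1

end PTD
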