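import Pool.Agent.helper23.PTD.Slice

set_option autoImplicit false

/-!
p-adic tube doubling, module PTD-Thick: the discrete form with thickened dilates.

Reduction mod `p^k` (`ZMod.castHom`) sends `L` to `L'` over `Z/p^k`; `DilT` is contained in the
preimage of `Dil p k n L'`, fibres have at most `p^n` elements, `Tub p k n L'` is contained in the
image of `Tub p (k+1) n L`; apply `upper` over `Z/p^k`.
-/

namespace PTD

/-- The dilated segments of `L` over `Z/p^(k+1)`, thickened by `p^k (Z/p^(k+1))^n`. -/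
def DilT (p k n : ℕ) (L : Finset ((Fin n → ZMod (p ^ (k + 1))) × (Fin n → ZMod (p ^ (k + 1))))) :
    Set (Fin n → ZMod (p ^ (k + 1))) :=
  {x | ∃ l ∈ L, ∃ r : ZMod (p ^ (k + 1)), ∀ i, ∃ z : ZMod (p ^ (k + 1)),
    x i - (l.1 i + r * l.2 i) = (p : ZMod (p ^ (k + 1))) ^ k * z}

theorem upperThick (p k n : ℕ) (hp : p.Prime) (hk : 1 ≤ k)
    (L : Finset ((Fin n → ZMod (p ^ (k + 1))) × (Fin n → ZMod (p ^ (k + 1)))))
    (hL : ∀ l ∈ L, ∃ i, IsUnit (l.2 i)) :
    (DilT p k n L).ncard ≤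
      p ^ n * (1 + 2 * n * p ^ n * (2 * n * k) ^ (n - 1)) * (Tub p (k + 1) n L).ncard := by
  classical
  have hpk : NeZero (p ^ k) := ⟨pow_ne_zero _ hp.ne_zero⟩
  have hpk1 : NeZero (p ^ (k + 1)) := ⟨pow_ne_zero _ hp.ne_zero⟩
  have hdvd : p ^ k ∣ p ^ (k + 1) := pow_dvd_pow p (Nat.le_succ k)
  let φ : ZMod (p ^ (k + 1)) →+* ZMod (p ^ k) := ZMod.castHom hdvd (ZMod (p ^ k))
  have hval : ∀ x : ZMod (p ^ (k + 1)), x.val % p ^ k = (φ x).val := by
    intro x
    have h1 : φ x = ((x.val : ℕ) : ZMod (p ^ k)) := by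
      change ZMod.castHom hdvd (ZMod (p ^ k)) x = _
      rw [ZMod.castHom_apply, ZMod.natCast_val]
    rw [h1, ZMod.val_natCast]
  have hsurj : Function.Surjective φ := ZMod.castHom_surjective hdvd
  let Φ : (Fin n → ZMod (p ^ (k + 1))) → (Fin n → ZMod (p ^ k)) := fun x i => φ (x i)
  let L' : Finset ((Fin n → ZMod (p ^ k)) × (Fin n → ZMod (p ^ k))) :=
    L.image (fun l => (Φ l.1, Φ l.2))
  have hL' : ∀ l ∈ L', ∃ i, IsUnit (l.2 i) := by
    intro l hl
    obtain ⟨l₀, hl₀, rfl⟩ := Finset.mem_image.1 hl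
    obtain ⟨i, hi⟩ := hL l₀ hl₀
    exact ⟨i, hi.map φ⟩
  have hp0 : (p : ZMod (p ^ k)) ^ k = 0 := by
    have h1 : ((p ^ k : ℕ) : ZMod (p ^ k)) = 0 := ZMod.natCast_self _
    rw [Nat.cast_pow] at h1
    exact h1
  -- the dilated sets
  have hDil : ∀ x ∈ DilT p k n L, Φ x ∈ Dil p k n L' := by
    rintro x ⟨l, hl, r, hr⟩
    refine ⟨(Φ l.1, Φ l.2), Finset.mem_image_of_mem _ hl, φ r, ?_⟩
    funext i
    obtain ⟨z, hz⟩ := hr i
    have h1 := congrArg φ hz
    rw [map_sub, map_add, map_mul, map_mul, map_pow, map_natCast, hp0, zero_mul, sub_eq_zero] at h1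
    simpa [Φ] using h1
  -- the fibres
  have hfib : ∀ (s : Finset (Fin n → ZMod (p ^ (k + 1)))) (a : Fin n → ZMod (p ^ k)),
      (s.filter (fun x => Φ x = a)).card ≤ p ^ n := by
    intro s a
    have hlt : ∀ x : ZMod (p ^ (k + 1)), x.val / p ^ k < p := by
      intro x
      rw [Nat.div_lt_iff_lt_mul (Nat.pos_of_ne_zero hpk.out)]
      have h1 : x.val < p ^ (k + 1) := ZMod.val_lt x
      have h2 : p ^ (k + 1) = p * p ^ k := by rw [pow_succ, mul_comm]
      omega
    have h2 : (s.filter (fun x => Φ x = a)).card ≤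
        (Finset.univ : Finset (Fin n → Fin p)).card := by
      refine Finset.card_le_card_of_injOn (fun x i => ⟨(x i).val / p ^ k, hlt (x i)⟩)
        (fun _ _ => Finset.mem_coe.2 (Finset.mem_univ _)) ?_
      intro x hx y hy hxy
      rw [Finset.mem_coe, Finset.mem_filter] at hx hy
      funext i
      apply ZMod.val_injective
      have h3 : (x i).val / p ^ k = (y i).val / p ^ k := by
        have := congrFun hxy i
        exact congrArg Fin.val this
      have h4 : (x i).val % p ^ k = (y i).val % p ^ k := by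
        rw [hval, hval]
        have h5 : Φ x i = Φ y i := by rw [hx.2, hy.2]
        exact congrArg ZMod.val h5
      rw [← Nat.div_add_mod (x i).val (p ^ k), ← Nat.div_add_mod (y i).val (p ^ k), h3, h4]
    rw [Finset.card_univ, Fintype.card_fun, Fintype.card_fin, Fintype.card_fin] at h2
    exact h2
  have h1 : (DilT p k n L).ncard ≤ p ^ n * (Dil p k n L').ncard := by
    have hfin : (DilT p k n L).Finite := Set.toFinite _
    have hfin' : (Dil p k n L').Finite := Set.toFinite _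
    rw [Set.ncard_eq_toFinset_card _ hfin, Set.ncard_eq_toFinset_card _ hfin']
    refine (Finset.card_le_mul_card_image (f := Φ) hfin.toFinset (p ^ n)
      (fun a _ => hfib _ a)).trans ?_
    refine Nat.mul_le_mul_left _ (Finset.card_le_card ?_)
    intro y hy
    obtain ⟨x, hx, rfl⟩ := Finset.mem_image.1 hy
    rw [Set.Finite.mem_toFinset] at hx ⊢
    exact hDil x hx
  -- the tubes
  have h2 : (Tub p k n L').ncard ≤ (Tub p (k + 1) n L).ncard := by
    have hsub : Tub p k n L' ⊆ Φ '' (Tub p (k + 1) n L) := by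
      rintro y ⟨l', hl', t', rfl⟩
      obtain ⟨l, hl, rfl⟩ := Finset.mem_image.1 hl'
      obtain ⟨t, rfl⟩ := hsurj t'
      refine ⟨l.1 + ((p : ZMod (p ^ (k + 1))) * t) • l.2, ⟨l, hl, t, rfl⟩, ?_⟩
      funext i
      simp only [Φ, Pi.add_apply, Pi.smul_apply, smul_eq_mul, map_add, map_mul, map_natCast]
    exact (Set.ncard_le_ncard hsub (Set.toFinite _)).trans (Set.ncard_image_le (Set.toFinite _))
  have h3 := upper p k n hp hk L' hL'
  calc (DilT p k n L).ncard ≤ p ^ n * (Dil p k n L').ncard := h1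
    _ ≤ p ^ n * ((1 + 2 * n * p ^ n * (2 * n * k) ^ (n - 1)) * (Tub p k n L').ncard) :=
      Nat.mul_le_mul_left _ h3
    _ ≤ p ^ n * ((1 + 2 * n * p ^ n * (2 * n * k) ^ (n - 1)) * (Tub p (k + 1) n L).ncard) :=
      Nat.mul_le_mul_left _ (Nat.mul_le_mul_left _ h2)
    _ = p ^ n * (1 + 2 * n * p ^ n * (2 * n * k) ^ (n - 1)) * (Tub p (k + 1) n L).ncard := by
      rw [Nat.mul_assoc (p ^ n) (1 + 2 * n * p ^ n * (2 * n * k) ^ (n - 1))]

end PTD
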