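import Pool.Agent.helper23.PTD.QpMeas
import Pool.Agent.helper23.PTD.Thick
import Pool.Agent.helper23.PTD.Low

set_option autoImplicit false

/-!
p-adic tube doubling, module PTD-QpMain: both bounds over `ℚ_p`.

`upperQp`.  Choose `k ≥ 1` with `p^(-k) < δ ≤ p^(1-k)`, so `k - 1 ≤ log_p (1/δ)`, `k ≤ Λ`,
`Λ = 1 + log_p (1/δ)`.  The closed balls `B` of radius `p` are pairwise disjoint or equal, open, and
so there are countably many (`Set.PairwiseDisjoint.countable_of_isOpen`); they cover the space.  A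
tube or its dilate lies in the ball `B` containing `l.1` (`mem_tube_iff`, `mem_dtube_iff` with
`c = l.1`).  For `B = closedBall c p` let `L_c = {(rho k c l.1, bar k l.2) : l ∈ 𝕋, dist l.1 c ≤ p}`
(a subset of a finite type).  Then `E ∩ B = {x : dist x c ≤ p, rho k c x ∈ Tub L_c}` and
`D ∩ B = {x : dist x c ≤ p, rho k c x ∈ DilT L_c}`, so by `measure_rho` and `upperThick`
`μ (D ∩ B) ≤ p^n (1 + 2 n p^n (2 n k)^(n-1)) μ (E ∩ B)`; sum over the countably many `B`.  Finally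
`p^n (1 + 2 n p^n (2 n k)^(n-1)) ≤ 3 n p^(2n) (2 n Λ)^(n-1)`.

`lowerQp`.  The same `k`; `lower` at `k + 1` gives `L` over `Z/p^(k+1)`; lift its members to pairs
`(a, u)`, `dist a 0 ≤ p`, `‖u‖ = 1` (`rho_surj`, `bar_surj`) with `c = 0`.  Then `μ E = |Tub| μ(H)`,
`μ D ≥ |Dil| μ(H)`, `((k+1)/p)^(n-1) |Tub| ≤ |Dil|`, and `Λ ≤ k + 1`.
-/

namespace PTD

open MeasureTheory

variable {p : ℕ} [Fact p.Prime] {n : ℕ}

theorem QpMain_scale (δ : ℝ) (h0 : 0 < δ) (h1 : δ ≤ 1) :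
    ∃ k : ℕ, 1 ≤ k ∧ (p : ℝ) ^ (-(k : ℤ)) < δ ∧ δ ≤ (p : ℝ) ^ (1 - (k : ℤ)) ∧
      (k : ℝ) ≤ 1 + Real.logb p (1 / δ) ∧ 1 + Real.logb p (1 / δ) ≤ k + 1 := by
  have hp1 : (1 : ℝ) < p := by exact_mod_cast (Fact.out : p.Prime).one_lt
  have hp0 : (0 : ℝ) < p := by linarith
  obtain ⟨m, hm1, hm2⟩ := exists_mem_Ioc_zpow (y := (p : ℝ)) h0 hp1
  have hm : m < 0 := by
    by_contra hcon
    have : (1 : ℝ) ≤ (p : ℝ) ^ m := one_le_zpow₀ hp1.le (by omega)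
    linarith
  obtain ⟨k, hk⟩ : ∃ k : ℕ, m = -(k : ℤ) := ⟨m.natAbs, by omega⟩
  subst hk
  have hm2' : δ ≤ (p : ℝ) ^ (1 - (k : ℤ)) := by
    have : (1 - (k : ℤ)) = -(k : ℤ) + 1 := by ring
    rw [this]; exact hm2
  have hd : 0 < 1 / δ := by positivity
  refine ⟨k, by omega, hm1, hm2', ?_, ?_⟩
  · have h2 : (k : ℝ) - 1 ≤ Real.logb p (1 / δ) := by
      rw [Real.le_logb_iff_rpow_le hp1 hd]
      have h3 : (p : ℝ) ^ ((k : ℝ) - 1) = ((p : ℝ) ^ (1 - (k : ℤ)))⁻¹ := by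
        rw [← zpow_neg, ← Real.rpow_intCast]
        congr 1
        push_cast
        ring
      rw [h3, one_div]
      exact inv_anti₀ h0 hm2'
    linarith
  · have h2 : Real.logb p (1 / δ) ≤ k := by
      rw [Real.logb_le_iff_le_rpow hp1 hd]
      have h3 : (p : ℝ) ^ ((k : ℝ)) = ((p : ℝ) ^ (-(k : ℤ)))⁻¹ := by
        rw [← zpow_neg, ← Real.rpow_intCast]
        congr 1
        push_cast
        ring
      rw [h3, one_div]
      exact inv_anti₀ (by positivity) hm1.le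
    linarith

theorem QpMain_near (k : ℕ) (δ : ℝ) (hδ1 : (p : ℝ) ^ (-(k : ℤ)) < δ)
    (hδ2 : δ ≤ (p : ℝ) ^ (1 - (k : ℤ))) (hk : 1 ≤ k) (c : Fin n → ℚ_[p])
    (l : (Fin n → ℚ_[p]) × (Fin n → ℚ_[p])) (hu : ‖l.2‖ = 1) (x : Fin n → ℚ_[p])
    (hx : dist x c ≤ p) (h : x ∈ tube δ l ∨ x ∈ dtube δ l) : dist l.1 c ≤ p := by
  have hp0 : dist l.1 l.1 ≤ (p : ℝ) := by rw [dist_self]; positivity
  have h1 : dist x l.1 ≤ p := by
    rcases h with h | h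
    · exact ((mem_tube_iff k δ hδ1 hδ2 hk l.1 l hu hp0 x).1 h).1
    · exact ((mem_dtube_iff k δ hδ1 hδ2 hk l.1 l hu hp0 x).1 h).1
  refine (dist_triangle_max l.1 x c).trans (max_le ?_ hx)
  rw [dist_comm]
  exact h1

theorem QpMain_tube (k : ℕ) (δ : ℝ) (hδ1 : (p : ℝ) ^ (-(k : ℤ)) < δ)
    (hδ2 : δ ≤ (p : ℝ) ^ (1 - (k : ℤ))) (hk : 1 ≤ k) (c : Fin n → ℚ_[p])
    (𝕋 : Set ((Fin n → ℚ_[p]) × (Fin n → ℚ_[p]))) (hu : ∀ l ∈ 𝕋, ‖l.2‖ = 1)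
    (L : Finset ((Fin n → ZMod (p ^ (k + 1))) × (Fin n → ZMod (p ^ (k + 1)))))
    (hL : ∀ v, v ∈ L ↔ ∃ l ∈ 𝕋, dist l.1 c ≤ p ∧ (rho k c l.1, bar k l.2) = v) :
    (⋃ l ∈ 𝕋, tube δ l) ∩ Metric.closedBall c p =
      {x | dist x c ≤ p ∧ rho k c x ∈ Tub p (k + 1) n L} := by
  ext x
  simp only [Set.mem_inter_iff, Set.mem_iUnion, exists_prop, Metric.mem_closedBall,
    Set.mem_ofPred_eq, Tub]
  constructor
  · rintro ⟨⟨l, hl, hx⟩, hxc⟩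
    have hc := QpMain_near k δ hδ1 hδ2 hk c l (hu l hl) x hxc (Or.inl hx)
    obtain ⟨-, r, hr⟩ := (mem_tube_iff k δ hδ1 hδ2 hk c l (hu l hl) hc x).1 hx
    exact ⟨hxc, (rho k c l.1, bar k l.2), (hL _).2 ⟨l, hl, hc, rfl⟩, r, hr⟩
  · rintro ⟨hxc, v, hv, r, hr⟩
    obtain ⟨l, hl, hc, rfl⟩ := (hL v).1 hv
    exact ⟨⟨l, hl, (mem_tube_iff k δ hδ1 hδ2 hk c l (hu l hl) hc x).2 ⟨hxc, r, hr⟩⟩, hxc⟩

theorem QpMain_dtube (k : ℕ) (δ : ℝ) (hδ1 : (p : ℝ) ^ (-(k : ℤ)) < δ)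
    (hδ2 : δ ≤ (p : ℝ) ^ (1 - (k : ℤ))) (hk : 1 ≤ k) (c : Fin n → ℚ_[p])
    (𝕋 : Set ((Fin n → ℚ_[p]) × (Fin n → ℚ_[p]))) (hu : ∀ l ∈ 𝕋, ‖l.2‖ = 1)
    (L : Finset ((Fin n → ZMod (p ^ (k + 1))) × (Fin n → ZMod (p ^ (k + 1)))))
    (hL : ∀ v, v ∈ L ↔ ∃ l ∈ 𝕋, dist l.1 c ≤ p ∧ (rho k c l.1, bar k l.2) = v) :
    (⋃ l ∈ 𝕋, dtube δ l) ∩ Metric.closedBall c p =
      {x | dist x c ≤ p ∧ rho k c x ∈ DilT p k n L} := by
  ext x
  simp only [Set.mem_inter_iff, Set.mem_iUnion, exists_prop, Metric.mem_closedBall,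
    Set.mem_ofPred_eq, DilT]
  constructor
  · rintro ⟨⟨l, hl, hx⟩, hxc⟩
    have hc := QpMain_near k δ hδ1 hδ2 hk c l (hu l hl) x hxc (Or.inr hx)
    obtain ⟨-, r, hr⟩ := (mem_dtube_iff k δ hδ1 hδ2 hk c l (hu l hl) hc x).1 hx
    exact ⟨hxc, (rho k c l.1, bar k l.2), (hL _).2 ⟨l, hl, hc, rfl⟩, r, hr⟩
  · rintro ⟨hxc, v, hv, r, hr⟩
    obtain ⟨l, hl, hc, rfl⟩ := (hL v).1 hv
    exact ⟨⟨l, hl, (mem_dtube_iff k δ hδ1 hδ2 hk c l (hu l hl) hc x).2 ⟨hxc, r, hr⟩⟩, hxc⟩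

variable [MeasurableSpace (Fin n → ℚ_[p])] [BorelSpace (Fin n → ℚ_[p])]

theorem upperQp (μ : Measure (Fin n → ℚ_[p])) [μ.IsAddHaarMeasure] (hn : 1 ≤ n) (δ : ℝ)
    (h0 : 0 < δ) (h1 : δ ≤ 1) (𝕋 : Set ((Fin n → ℚ_[p]) × (Fin n → ℚ_[p])))
    (hu : ∀ l ∈ 𝕋, ‖l.2‖ = 1) :
    μ (⋃ l ∈ 𝕋, dtube δ l) ≤
      ENNReal.ofReal (3 * n * (p : ℝ) ^ (2 * n) *
        (2 * n * (1 + Real.logb p (1 / δ))) ^ (n - 1)) * μ (⋃ l ∈ 𝕋, tube δ l) := by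
  classical
  obtain ⟨k, hk, hδ1, hδ2, hk1, hk2⟩ := QpMain_scale (p := p) δ h0 h1
  have hpp : p.Prime := Fact.out
  have hp1 : (1 : ℝ) < p := by exact_mod_cast hpp.one_lt
  have hp0 : (0 : ℝ) < p := by linarith
  have : NeZero (p ^ (k + 1)) := ⟨pow_ne_zero _ hpp.ne_zero⟩
  set E := ⋃ l ∈ 𝕋, tube δ l with hE
  set D := ⋃ l ∈ 𝕋, dtube δ l with hD
  set K : ℕ := p ^ n * (1 + 2 * n * p ^ n * (2 * n * k) ^ (n - 1)) with hK
  set F : Set (Set (Fin n → ℚ_[p])) :=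
    Set.range (fun c : Fin n → ℚ_[p] => Metric.closedBall c (p : ℝ)) with hF
  have hFd : F.PairwiseDisjoint id := by
    rintro _ ⟨c, rfl⟩ _ ⟨c', rfl⟩ hne
    rcases IsUltrametricDist.closedBall_eq_or_disjoint c c' (p : ℝ) with h | h
    · exact absurd h hne
    · exact h
  have hFc : F.Countable := by
    apply hFd.countable_of_isOpen
    · rintro _ ⟨c, rfl⟩
      exact IsUltrametricDist.isOpen_closedBall c hp0.ne'
    · rintro _ ⟨c, rfl⟩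
      exact ⟨c, Metric.mem_closedBall_self hp0.le⟩
  have hcov : ∀ S : Set (Fin n → ℚ_[p]), S = ⋃ B ∈ F, S ∩ B := by
    intro S
    ext x
    simp only [Set.mem_iUnion, Set.mem_inter_iff, exists_prop]
    constructor
    · intro hx
      exact ⟨_, ⟨x, rfl⟩, hx, Metric.mem_closedBall_self hp0.le⟩
    · rintro ⟨B, -, hx, -⟩
      exact hx
  have hloc : ∀ B ∈ F, MeasurableSet (E ∩ B) ∧ μ (D ∩ B) ≤ (K : ENNReal) * μ (E ∩ B) := by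
    rintro _ ⟨c, rfl⟩
    set L : Finset ((Fin n → ZMod (p ^ (k + 1))) × (Fin n → ZMod (p ^ (k + 1)))) :=
      (Set.toFinite {v | ∃ l ∈ 𝕋, dist l.1 c ≤ p ∧ (rho k c l.1, bar k l.2) = v}).toFinset with hLd
    have hL : ∀ v, v ∈ L ↔ ∃ l ∈ 𝕋, dist l.1 c ≤ p ∧ (rho k c l.1, bar k l.2) = v := by
      intro v
      rw [hLd, Set.Finite.mem_toFinset]
      exact Iff.rfl
    have e1 := QpMain_tube k δ hδ1 hδ2 hk c 𝕋 hu L hL
    have e2 := QpMain_dtube k δ hδ1 hδ2 hk c 𝕋 hu L hL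
    have hLu : ∀ l ∈ L, ∃ i, IsUnit (l.2 i) := by
      intro v hv
      obtain ⟨l, hl, -, rfl⟩ := (hL v).1 hv
      exact bar_unit k l.2 (hu l hl)
    constructor
    · rw [hE]
      change MeasurableSet ((⋃ l ∈ 𝕋, tube δ l) ∩ Metric.closedBall c (p : ℝ))
      rw [e1]
      exact measurable_rho k c _
    · change μ ((⋃ l ∈ 𝕋, dtube δ l) ∩ Metric.closedBall c (p : ℝ)) ≤
        K * μ ((⋃ l ∈ 𝕋, tube δ l) ∩ Metric.closedBall c (p : ℝ))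
      rw [e1, e2, measure_rho, measure_rho, ← mul_assoc]
      gcongr
      exact_mod_cast upperThick p k n hpp hk L hLu
  have hsum : μ D ≤ (K : ENNReal) * μ E := by
    calc μ D = μ (⋃ B ∈ F, D ∩ B) := by rw [← hcov D]
      _ ≤ ∑' B : F, μ (D ∩ B) := measure_biUnion_le μ hFc _
      _ ≤ ∑' B : F, (K : ENNReal) * μ (E ∩ B) := ENNReal.tsum_le_tsum fun B => (hloc B B.2).2
      _ = (K : ENNReal) * ∑' B : F, μ (E ∩ B) := ENNReal.tsum_mul_left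
      _ = (K : ENNReal) * μ (⋃ B ∈ F, E ∩ B) := by
        have hm := measure_biUnion (μ := μ) (f := fun B => E ∩ B) hFc
          (fun B hB B' hB' hne =>
            (hFd hB hB' hne).mono Set.inter_subset_right Set.inter_subset_right)
          fun B hB => (hloc B hB).1
        rw [hm]
      _ = (K : ENNReal) * μ E := by rw [← hcov E]
  refine hsum.trans ?_
  gcongr
  rw [← ENNReal.ofReal_natCast]
  apply ENNReal.ofReal_le_ofReal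
  rw [hK]
  push_cast
  have hn1 : (1 : ℝ) ≤ n := by exact_mod_cast hn
  have hk1' : (1 : ℝ) ≤ k := by exact_mod_cast hk
  have hpn : (1 : ℝ) ≤ (p : ℝ) ^ n := one_le_pow₀ hp1.le
  have hA : (1 : ℝ) ≤ (2 * n * (k : ℝ)) ^ (n - 1) := one_le_pow₀ (by nlinarith)
  have hB : (2 * n * (k : ℝ)) ^ (n - 1) ≤ (2 * n * (1 + Real.logb p (1 / δ))) ^ (n - 1) := by
    gcongr
  have hC : (p : ℝ) ^ (2 * n) = (p : ℝ) ^ n * (p : ℝ) ^ n := by rw [← pow_add]; congr 1; ring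
  rw [hC]
  set P := (p : ℝ) ^ n
  set A := (2 * n * (k : ℝ)) ^ (n - 1)
  set A' := (2 * n * (1 + Real.logb p (1 / δ))) ^ (n - 1)
  have h5 : (1 : ℝ) ≤ n * P * A := by
    calc (1 : ℝ) = 1 * 1 * 1 := by ring
      _ ≤ n * P * A := by gcongr
  calc P * (1 + 2 * n * P * A) ≤ P * (n * P * A + 2 * n * P * A) := by gcongr
    _ = 3 * n * (P * P) * A := by ring
    _ ≤ 3 * n * (P * P) * A' := by gcongr

theorem lowerQp (μ : Measure (Fin n → ℚ_[p])) [μ.IsAddHaarMeasure] (hn : 1 ≤ n) (δ : ℝ)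
    (h0 : 0 < δ) (h1 : δ ≤ 1) :
    ∃ 𝕋 : Finset ((Fin n → ℚ_[p]) × (Fin n → ℚ_[p])), 𝕋.Nonempty ∧
      (∀ l ∈ 𝕋, ‖l.2‖ = 1) ∧
      ENNReal.ofReal (((1 + Real.logb p (1 / δ)) / p) ^ (n - 1)) * μ (⋃ l ∈ 𝕋, tube δ l) ≤
        μ (⋃ l ∈ 𝕋, dtube δ l) := by
  classical
  obtain ⟨k, hk, hδ1, hδ2, hk1, hk2⟩ := QpMain_scale (p := p) δ h0 h1
  have hpp : p.Prime := Fact.out
  have hp1 : (1 : ℝ) < p := by exact_mod_cast hpp.one_lt
  have hp0 : (0 : ℝ) < p := by linarith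
  have : NeZero (p ^ (k + 1)) := ⟨pow_ne_zero _ hpp.ne_zero⟩
  obtain ⟨L, hLu, hLn, hLc⟩ := lower p (k + 1) n hpp (by omega) hn
  choose a ha1 ha2 using fun v => rho_surj (p := p) (n := n) k 0 v
  have hb : ∀ v : Fin n → ZMod (p ^ (k + 1)), ∃ u : Fin n → ℚ_[p],
      (∃ i, IsUnit (v i)) → ‖u‖ = 1 ∧ bar k u = v := by
    intro v
    by_cases hv : ∃ i, IsUnit (v i)
    · obtain ⟨u, hu⟩ := bar_surj (p := p) (n := n) k v hv
      exact ⟨u, fun _ => hu⟩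
    · exact ⟨0, fun h => absurd h hv⟩
  choose u hu using hb
  set 𝕋 : Finset ((Fin n → ℚ_[p]) × (Fin n → ℚ_[p])) := L.image (fun v => (a v.1, u v.2)) with hT
  have huT : ∀ l ∈ 𝕋, ‖l.2‖ = 1 := by
    intro l hl
    obtain ⟨v, hv, rfl⟩ := Finset.mem_image.1 hl
    exact (hu v.2 (hLu v hv)).1
  have hL : ∀ v, v ∈ L ↔ ∃ l ∈ (𝕋 : Set ((Fin n → ℚ_[p]) × (Fin n → ℚ_[p]))),
      dist l.1 0 ≤ p ∧ (rho k 0 l.1, bar k l.2) = v := by
    intro v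
    constructor
    · intro hv
      refine ⟨(a v.1, u v.2), Finset.mem_coe.2 (Finset.mem_image_of_mem _ hv), ha1 v.1, ?_⟩
      exact Prod.ext (ha2 v.1) (hu v.2 (hLu v hv)).2
    · rintro ⟨l, hl, -, rfl⟩
      obtain ⟨w, hw, rfl⟩ := Finset.mem_image.1 (Finset.mem_coe.1 hl)
      have : (rho k 0 (a w.1), bar k (u w.2)) = w := Prod.ext (ha2 w.1) (hu w.2 (hLu w hw)).2
      rw [this]
      exact hw
  have huT' : ∀ l ∈ (𝕋 : Set ((Fin n → ℚ_[p]) × (Fin n → ℚ_[p]))), ‖l.2‖ = 1 :=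
    fun l hl => huT l (Finset.mem_coe.1 hl)
  have e1 := QpMain_tube k δ hδ1 hδ2 hk 0 (𝕋 : Set _) huT' L hL
  have e2 := QpMain_dtube k δ hδ1 hδ2 hk 0 (𝕋 : Set _) huT' L hL
  refine ⟨𝕋, hLn.image _, huT, ?_⟩
  have e3 : (⋃ l ∈ 𝕋, tube δ l) ⊆ (⋃ l ∈ (𝕋 : Set ((Fin n → ℚ_[p]) × (Fin n → ℚ_[p]))),
      tube δ l) ∩ Metric.closedBall 0 (p : ℝ) := by
    intro x hx
    simp only [Set.mem_iUnion, exists_prop] at hx
    obtain ⟨l, hl, hx⟩ := hx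
    have hd : dist l.1 0 ≤ (p : ℝ) := by
      obtain ⟨v, hv, rfl⟩ := Finset.mem_image.1 hl
      exact ha1 v.1
    refine ⟨?_, ?_⟩
    · simp only [Set.mem_iUnion, exists_prop]
      exact ⟨l, Finset.mem_coe.2 hl, hx⟩
    · rw [Metric.mem_closedBall]
      exact ((mem_tube_iff k δ hδ1 hδ2 hk 0 l (huT l hl) hd x).1 hx).1
  have e4 : (⋃ l ∈ (𝕋 : Set ((Fin n → ℚ_[p]) × (Fin n → ℚ_[p]))),
      dtube δ l) ∩ Metric.closedBall 0 (p : ℝ) ⊆ (⋃ l ∈ 𝕋, dtube δ l) := by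
    rintro x ⟨hx, -⟩
    simp only [Set.mem_iUnion, exists_prop] at hx ⊢
    obtain ⟨l, hl, hx⟩ := hx
    exact ⟨l, Finset.mem_coe.1 hl, hx⟩
  have hsub : Dil p (k + 1) n L ⊆ DilT p k n L := by
    rintro x ⟨l, hl, t, rfl⟩
    refine ⟨l, hl, t, fun i => ⟨0, ?_⟩⟩
    simp
  have hcard : (Dil p (k + 1) n L).ncard ≤ (DilT p k n L).ncard :=
    Set.ncard_le_ncard hsub (Set.toFinite _)
  calc ENNReal.ofReal (((1 + Real.logb p (1 / δ)) / p) ^ (n - 1)) * μ (⋃ l ∈ 𝕋, tube δ l)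
      ≤ ENNReal.ofReal (((1 + Real.logb p (1 / δ)) / p) ^ (n - 1)) *
          (((Tub p (k + 1) n L).ncard : ENNReal) *
            μ (Metric.closedBall 0 ((p : ℝ) ^ (-(k : ℤ))))) := by
        gcongr
        refine (measure_mono e3).trans ?_
        rw [e1, measure_rho]
    _ ≤ ((DilT p k n L).ncard : ENNReal) * μ (Metric.closedBall 0 ((p : ℝ) ^ (-(k : ℤ)))) := by
        rw [← mul_assoc]
        gcongr
        rw [← ENNReal.ofReal_natCast, ← ENNReal.ofReal_natCast,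
          ← ENNReal.ofReal_mul (by
            have : (0 : ℝ) ≤ 1 + Real.logb p (1 / δ) := le_trans (by positivity) hk1
            positivity)]
        apply ENNReal.ofReal_le_ofReal
        have hc2 : (((k + 1 : ℕ) : ℝ)) ^ (n - 1) * ((Tub p (k + 1) n L).ncard : ℝ) ≤
            (p : ℝ) ^ (n - 1) * ((Dil p (k + 1) n L).ncard : ℝ) := by exact_mod_cast hLc
        have hc3 : ((Dil p (k + 1) n L).ncard : ℝ) ≤ ((DilT p k n L).ncard : ℝ) := by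
          exact_mod_cast hcard
        have hc4 : (1 + Real.logb p (1 / δ)) ^ (n - 1) ≤ (((k + 1 : ℕ) : ℝ)) ^ (n - 1) := by
          have : (0 : ℝ) ≤ 1 + Real.logb p (1 / δ) := le_trans (by positivity) hk1
          gcongr
          push_cast
          exact hk2
        rw [div_pow, div_mul_eq_mul_div, div_le_iff₀ (by positivity)]
        calc (1 + Real.logb p (1 / δ)) ^ (n - 1) * ((Tub p (k + 1) n L).ncard : ℝ)
            ≤ (((k + 1 : ℕ) : ℝ)) ^ (n - 1) * ((Tub p (k + 1) n L).ncard : ℝ) := by gcongr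
          _ ≤ (p : ℝ) ^ (n - 1) * ((Dil p (k + 1) n L).ncard : ℝ) := hc2
          _ ≤ (p : ℝ) ^ (n - 1) * ((DilT p k n L).ncard : ℝ) := by gcongr
          _ = ((DilT p k n L).ncard : ℝ) * (p : ℝ) ^ (n - 1) := by ring
    _ ≤ μ (⋃ l ∈ 𝕋, dtube δ l) := by
        rw [← measure_rho μ k 0, ← e2]
        exact measure_mono e4

end PTD
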