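import Mathlib

set_option autoImplicit false

namespace PTD

open Polynomial

/-- A homogeneous system with more unknowns than equations over a valuation ring has a
solution with one coordinate equal to `1`. -/
theorem exists_sol {A : Type} [CommRing A] [IsDomain A] [ValuationRing A]
    {α β : Type} [Fintype α] [Fintype β] (h : Fintype.card β < Fintype.card α)
    (M : β → α → A) :
    ∃ c : α → A, (∃ a₀, c a₀ = 1) ∧ ∀ b, ∑ a, M b a * c a = 0 := by
  classical
  have h1 : ∃ c : α → A, c ≠ 0 ∧ ∀ b, ∑ a, M b a * c a = 0 := by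
    by_contra hcon
    push Not at hcon
    have hinj : Function.Injective (Matrix.mulVecLin (M : Matrix β α A)) := by
      rw [← LinearMap.ker_eq_bot, LinearMap.ker_eq_bot']
      intro c hc
      by_contra hc0
      obtain ⟨b, hb⟩ := hcon c hc0
      apply hb
      have := congrFun hc b
      simpa [Matrix.mulVecLin, Matrix.mulVec, dotProduct] using this
    have := card_le_of_injective A _ hinj
    omega
  obtain ⟨c, hc0, hc⟩ := h1
  have h2 : ∀ s : Finset α, s.Nonempty → ∃ a₀ ∈ s, ∀ a ∈ s, c a₀ ∣ c a := by
    intro s hs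
    induction hs using Finset.Nonempty.cons_induction with
    | singleton a => exact ⟨a, by simp, by simp⟩
    | cons a s ha hs ih =>
      obtain ⟨a₁, ha₁, hd⟩ := ih
      rcases ValuationRing.dvd_total (c a) (c a₁) with h | h
      · refine ⟨a, by simp, ?_⟩
        intro x hx
        rw [Finset.mem_cons] at hx
        rcases hx with rfl | hx
        · exact dvd_refl _
        · exact h.trans (hd x hx)
      · refine ⟨a₁, by simp [ha₁], ?_⟩
        intro x hx
        rw [Finset.mem_cons] at hx
        rcases hx with rfl | hx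
        · exact h
        · exact hd x hx
  have hne : (Finset.univ : Finset α).Nonempty := by
    rw [← Finset.card_pos, Finset.card_univ]
    omega
  obtain ⟨a₀, -, hd⟩ := h2 Finset.univ hne
  have ha0 : c a₀ ≠ 0 := by
    intro h0
    apply hc0
    funext a
    have := hd a (Finset.mem_univ a)
    rw [h0, zero_dvd_iff] at this
    exact this
  choose c' hc' using fun a => hd a (Finset.mem_univ a)
  refine ⟨c', ⟨a₀, ?_⟩, ?_⟩
  · have := hc' a₀
    exact (mul_left_cancel₀ ha0 (by rw [mul_one]; exact this)).symm
  · intro b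
    have h3 : c a₀ * ∑ a, M b a * c' a = 0 := by
      rw [← hc b, Finset.mul_sum]
      apply Finset.sum_congr rfl
      intro a _
      rw [hc' a]
      ring
    exact (mul_eq_zero.mp h3).resolve_left ha0

/-- Pigeonhole for residues. -/
theorem exists_residue {ι : Type} [Fintype ι] (Y : Finset (ι → ℕ)) (Q : ℕ) (hQ : 0 < Q) :
    ∃ q : ι → ℕ, Y.card ≤ Q ^ (Fintype.card ι) *
      (Y.filter (fun y => ∀ i, y i % Q = q i)).card := by
  classical
  have : NeZero Q := ⟨hQ.ne'⟩
  let f : (ι → ℕ) → (ι → Fin Q) := fun y i => ⟨y i % Q, Nat.mod_lt _ hQ⟩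
  have h1 : Y.card = ∑ q : ι → Fin Q, (Y.filter (fun y => f y = q)).card :=
    Finset.card_eq_sum_card_fiberwise (fun y _ => Finset.mem_coe.mpr (Finset.mem_univ _))
  obtain ⟨q, -, hq⟩ := Finset.exists_max_image (Finset.univ : Finset (ι → Fin Q))
    (fun q => (Y.filter (fun y => f y = q)).card) ⟨fun _ => 0, Finset.mem_univ _⟩
  refine ⟨fun i => q i, ?_⟩
  have h2 : (Y.filter (fun y => f y = q)).card ≤
      (Y.filter (fun y => ∀ i, y i % Q = (q i : ℕ))).card := by
    apply Finset.card_le_card
    intro y hy
    rw [Finset.mem_filter] at hy ⊢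
    refine ⟨hy.1, fun i => ?_⟩
    have := congrArg Fin.val (congrFun hy.2 i)
    simpa [f] using this
  calc Y.card = ∑ q : ι → Fin Q, (Y.filter (fun y => f y = q)).card := h1
    _ ≤ ∑ _q : ι → Fin Q, (Y.filter (fun y => f y = q)).card :=
        Finset.sum_le_sum fun q' hq' => hq q' hq'
    _ = Q ^ (Fintype.card ι) * (Y.filter (fun y => f y = q)).card := by
        rw [Finset.sum_const, Finset.card_univ, smul_eq_mul]
        simp
    _ ≤ _ := Nat.mul_le_mul_left _ h2

/-- A polynomial over a domain vanishing at distinct points is divisible by the product. -/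
theorem prod_dvd {A : Type} [CommRing A] [IsDomain A] (f : A[X]) {σ : Type} (S : Finset σ)
    (r : σ → A) (hr : Function.Injective r) (hf : ∀ i ∈ S, f.eval (r i) = 0) :
    (∏ i ∈ S, (X - C (r i))) ∣ f := by
  classical
  by_cases hf0 : f = 0
  · rw [hf0]; exact dvd_zero _
  have h1 : (Multiset.map (fun a => X - C a) (Multiset.map r S.val)).prod ∣ f := by
    rw [Multiset.prod_X_sub_C_dvd_iff_le_roots hf0]
    rw [Multiset.le_iff_subset]
    · intro a ha
      rw [Multiset.mem_map] at ha
      obtain ⟨i, hi, rfl⟩ := ha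
      rw [mem_roots hf0]
      exact hf i hi
    · exact Multiset.Nodup.map hr S.nodup
  rw [Multiset.map_map] at h1
  exact h1

/-- Order of vanishing at `1` against degree. -/
theorem order_bound {κ : Type} [Field κ] (g W : κ[X]) (P J μ : ℕ) (hg : g ≠ 0) (hW : W ≠ 0)
    (hd : (X - C (1 : κ)) ^ P ∣ g * W) (hJ : g.natDegree < J)
    (hμ : rootMultiplicity 1 W ≤ μ) : P < J + μ := by
  classical
  have h0 : g * W ≠ 0 := mul_ne_zero hg hW
  have h1 : P ≤ rootMultiplicity 1 (g * W) := (le_rootMultiplicity_iff h0).mpr hd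
  rw [rootMultiplicity_mul h0] at h1
  have h2 : rootMultiplicity 1 g ≤ g.natDegree := by
    rw [← count_roots]
    exact (Multiset.count_le_card _ _).trans (card_roots' g)
  omega

end PTD
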