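import Mathlib

set_option autoImplicit false

namespace PTD

/-- A valuation ring of characteristic `0` with a primitive `p ^ M`-th root of unity which is
`1` modulo a map to a field of characteristic `p`. -/
theorem exists_ring (p M : ℕ) (hp : p.Prime) :
    ∃ (A : Type) (_ : CommRing A) (_ : IsDomain A) (_ : ValuationRing A)
      (κ : Type) (_ : Field κ) (_ : CharP κ p) (π : A →+* κ) (ζ : A),
      IsPrimitiveRoot ζ (p ^ M) ∧ π ζ = 1 := by
  classical
  have : Fact p.Prime := ⟨hp⟩
  let A₀ : Subring ℂ := (Int.castRingHom ℂ).range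
  let I : Ideal A₀ := Ideal.span {(p : A₀)}
  have hI : I ≠ ⊤ := by
    intro h
    have h1 : (1 : A₀) ∈ I := h ▸ Submodule.mem_top
    rw [Ideal.mem_span_singleton] at h1
    obtain ⟨⟨c, ⟨a, ha⟩⟩, hc⟩ := h1
    have h2 : (1 : ℂ) = (p : ℂ) * c := by
      have := congrArg (Subtype.val) hc
      simpa using this
    rw [← ha] at h2
    have h3 : (1 : ℤ) = (p : ℤ) * a := by
      have h4 : ((1 : ℤ) : ℂ) = (((p : ℤ) * a : ℤ) : ℂ) := by
        push_cast
        simpa using h2
      exact_mod_cast h4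
    have h5 : (p : ℤ) ∣ 1 := ⟨a, h3⟩
    have h6 : (p : ℕ) ∣ 1 := by exact_mod_cast h5
    exact hp.one_lt.ne' (Nat.dvd_one.mp h6)
  obtain ⟨B, hB1, hB2⟩ := Ideal.image_subset_nonunits_valuationSubring I hI
  have hpB : (p : ℂ) ∈ B.nonunits := by
    apply hB2
    exact ⟨(p : A₀), Ideal.subset_span rfl, by simp⟩
  have hN : p ^ M ≠ 0 := pow_ne_zero _ hp.ne_zero
  have hζ := Complex.isPrimitiveRoot_exp (p ^ M) hN
  set z : ℂ := Complex.exp (2 * Real.pi * Complex.I / ((p ^ M : ℕ) : ℂ)) with hz
  have hzB : z ∈ B := by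
    rcases B.mem_or_inv_mem z with h | h
    · exact h
    · have h1 : z ^ (p ^ M) = 1 := hζ.pow_eq_one
      have h2 : z = (z⁻¹) ^ (p ^ M - 1) := by
        have h3 : z ≠ 0 := by
          intro h0
          rw [h0, zero_pow hN] at h1
          exact zero_ne_one h1
        rw [inv_pow, eq_comm, inv_eq_iff_eq_inv, eq_comm, inv_eq_iff_eq_inv]
        have h4 : z ^ (p ^ M - 1) * z = 1 := by
          rw [← pow_succ, Nat.sub_add_cancel (Nat.one_le_iff_ne_zero.mpr hN)]
          exact h1
        exact eq_inv_of_mul_eq_one_right h4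
      rw [h2]
      exact pow_mem h _
  have hpk : IsLocalRing.residue B (p : B) = 0 := by
    rw [IsLocalRing.residue_eq_zero_iff, ← ValuationSubring.coe_mem_nonunits_iff]
    simpa using hpB
  have hp0 : ((p : ℕ) : IsLocalRing.ResidueField B) = 0 := by
    simpa using hpk
  have hchar : CharP (IsLocalRing.ResidueField B) p := by
    obtain ⟨q, hq⟩ := CharP.exists (IsLocalRing.ResidueField B)
    have h1 : q ∣ p := (CharP.cast_eq_zero_iff _ q p).mp hp0
    rcases (Nat.dvd_prime hp).mp h1 with h | h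
    · exact absurd h (CharP.char_ne_one (IsLocalRing.ResidueField B) q)
    · subst h
      exact hq
  refine ⟨B, inferInstance, inferInstance, inferInstance, IsLocalRing.ResidueField B,
    inferInstance, hchar, IsLocalRing.residue B, ⟨z, hzB⟩, ?_, ?_⟩
  · apply IsPrimitiveRoot.of_map_of_injective (f := B.subtype)
    · simpa using hζ
    · exact Subtype.val_injective
  · have := hchar
    have h1 : (⟨z, hzB⟩ : B) ^ (p ^ M) = 1 := by
      apply Subtype.ext
      simpa using hζ.pow_eq_one
    have h2 : (IsLocalRing.residue B ⟨z, hzB⟩ - 1) ^ (p ^ M) = 0 := by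
      rw [sub_pow_char_pow, ← map_pow, h1, map_one, one_pow, sub_self]
    exact sub_eq_zero.mp (pow_eq_zero_iff hN |>.mp h2)

end PTD
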