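import Pool.Agent.helper23.PTD.Mult
import Pool.Agent.helper23.PTD.Ring
import Pool.Agent.helper23.PTD.LinAlg

set_option autoImplicit false

namespace PTD

open Polynomial

/-- The exponents in the residue class of `a` mod `Q`, other than `a`. -/
def cls (P Q a : ℕ) : Finset ℕ := (Finset.range P).filter (fun c => c % Q = a % Q ∧ c ≠ a)

section
variable {A : Type} [CommRing A] {ι : Type} [Fintype ι]

/-- The restriction of the test function of `y'` to the curve `T ↦ (T, w_i T^(y_i))`. -/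
noncomputable def curveW (P Q : ℕ) (w : ι → A) (y y' : ι → ℕ) : A[X] :=
  ∏ i : ι, ∏ c ∈ cls P Q (y' i), (C (w i) * X ^ (y i) - X ^ c)

end

/-- Reduction step: if the combination with coefficients `g` vanishes at the points of a line,
the coefficient polynomial of its direction reduces to `0`. -/
theorem reduce (p M m : ℕ) (hp : p.Prime) {ι : Type} [Fintype ι]
    (Q : ℕ) (hQ0 : 0 < Q) (hQ : Nat.Coprime Q p)
    {A : Type} [CommRing A] [IsDomain A] {κ : Type} [Field κ] [CharP κ p] (π : A →+* κ)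
    (e : ZMod (p ^ M) → A) (he0 : ∀ a b, e (a + b) = e a * e b)
    (he1 : Function.Injective e) (he2 : ∀ a, π (e a) = 1)
    (hen : ∀ (n : ℕ) (a : ZMod (p ^ M)), e (a * n) = e a ^ n)
    (Ys : Finset (ι → ℕ)) (hYs : ∀ y ∈ Ys, ∀ i, y i < p ^ m)
    (q : ι → ℕ) (hq : ∀ y ∈ Ys, ∀ i, y i % Q = q i)
    (μ J : ℕ) (hJ : J + Fintype.card ι * m * p ^ m / Q ≤ μ)
    (g : (ι → ℕ) → A[X]) (y : ι → ℕ) (hy : y ∈ Ys) (hg : (g y).natDegree < J)
    (S : Finset (ZMod (p ^ M))) (hS : μ ≤ S.card) (b : ι → ZMod (p ^ M))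
    (hvan : ∀ s ∈ S, ∑ y' ∈ Ys, (g y').eval (e s) *
      ∏ i : ι, ∏ c ∈ cls (p ^ m) Q (y' i),
        (e (s * (y i : ZMod (p ^ M)) + b i) - e s ^ c) = 0) :
    (g y).map π = 0 := by
  classical
  set P := p ^ m with hP
  have hP0 : 0 < P := pow_pos hp.pos m
  let w : ι → A := fun i => e (b i)
  let f : A[X] := ∑ y' ∈ Ys, g y' * curveW P Q w y y'
  have hf : ∀ s ∈ S, f.eval (e s) = 0 := by
    intro s hs
    rw [← hvan s hs, eval_finsetSum]
    apply Finset.sum_congr rfl
    intro y' _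
    rw [eval_mul]
    congr 1
    rw [curveW, eval_prod]
    apply Finset.prod_congr rfl
    intro i _
    rw [eval_prod]
    apply Finset.prod_congr rfl
    intro c _
    rw [he0 _ (b i), hen]
    simp only [eval_sub, eval_mul, eval_C, eval_pow, eval_X, w]
    ring
  have hdvd : (∏ s ∈ S, (X - C (e s))) ∣ f := prod_dvd f S e he1 hf
  have hdvd2 : (X - C (1 : κ)) ^ S.card ∣ f.map π := by
    have h1 := Polynomial.map_dvd π hdvd
    rw [Polynomial.map_prod] at h1
    have h2 : ∏ s ∈ S, (X - C (e s)).map π = (X - C (1 : κ)) ^ S.card := by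
      rw [Finset.prod_congr rfl (fun i _ => by
        rw [Polynomial.map_sub, map_X, map_C, he2]), Finset.prod_const]
    rwa [h2] at h1
  have hfmap : f.map π = (g y).map π *
      ∏ i : ι, ∏ c ∈ cls P Q (y i), ((X : κ[X]) ^ (y i) - X ^ c) := by
    have h1 : ∀ y' : ι → ℕ, (curveW P Q w y y').map π =
        ∏ i : ι, ∏ c ∈ cls P Q (y' i), ((X : κ[X]) ^ (y i) - X ^ c) := by
      intro y'
      rw [curveW, Polynomial.map_prod]
      apply Finset.prod_congr rfl
      intro i _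
      rw [Polynomial.map_prod]
      apply Finset.prod_congr rfl
      intro c _
      simp only [Polynomial.map_sub, Polynomial.map_mul, Polynomial.map_pow, map_X, map_C, w, he2]
      simp
    have h2 : f.map π = ∑ y' ∈ Ys, (g y').map π *
        ∏ i : ι, ∏ c ∈ cls P Q (y' i), ((X : κ[X]) ^ (y i) - X ^ c) := by
      rw [Polynomial.map_sum]
      apply Finset.sum_congr rfl
      intro y' _
      rw [Polynomial.map_mul, h1]
    rw [h2]
    apply Finset.sum_eq_single_of_mem y hy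
    intro y' hy' hne
    have h3 : ∃ i, y' i ≠ y i := by
      by_contra hcon
      push Not at hcon
      exact hne (funext hcon)
    obtain ⟨i, hi⟩ := h3
    have h4 : ∏ i : ι, ∏ c ∈ cls P Q (y' i), ((X : κ[X]) ^ (y i) - X ^ c) = 0 := by
      apply Finset.prod_eq_zero (Finset.mem_univ i)
      apply Finset.prod_eq_zero (i := y i)
      · rw [cls, Finset.mem_filter, Finset.mem_range]
        exact ⟨hYs y hy i, by rw [hq y hy i, hq y' hy' i], hi.symm⟩
      · exact sub_self _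
    rw [h4, mul_zero]
  by_contra hne
  obtain ⟨hW0, hW⟩ := mult_prod p m Q hp hQ0 hQ κ y (hYs y hy)
  have hμ : rootMultiplicity 1
      (∏ i : ι, ∏ c ∈ cls P Q (y i), ((X : κ[X]) ^ (y i) - X ^ c)) ≤
        Fintype.card ι * m * P / Q := by
    rw [Nat.le_div_iff_mul_le hQ0, mul_comm]
    exact hW
  have hdeg : ((g y).map π).natDegree < J := lt_of_le_of_lt natDegree_map_le hg
  have h5 := order_bound ((g y).map π) _ S.card J _ hne hW0 (hfmap ▸ hdvd2) hdeg hμ
  omega

/-- Kakeya bound over `Z / p^M` for an arbitrary finite set `Y` of directions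
(`y ∈ [0, p^m)^ι`), each with a line on which at least `μ` of the points are in `K`. -/
theorem coreGen (p M m : ℕ) (hp : p.Prime) {ι : Type} [Fintype ι]
    (K : Finset (ZMod (p ^ M) × (ι → ZMod (p ^ M))))
    (Y : Finset (ι → ℕ)) (hY : ∀ y ∈ Y, ∀ i, y i < p ^ m) (μ : ℕ) (hμ0 : 0 < μ)
    (hK : ∀ y ∈ Y, ∃ (S : Finset (ZMod (p ^ M))) (b : ι → ZMod (p ^ M)), μ ≤ S.card ∧
      ∀ s ∈ S, ((s, fun i => s * (y i : ZMod (p ^ M)) + b i) :
          ZMod (p ^ M) × (ι → ZMod (p ^ M))) ∈ K)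
    (Q : ℕ) (hQ0 : 0 < Q) (hQ : Nat.Coprime Q p)
    (hQ2 : 2 * (Fintype.card ι * m * p ^ m) ≤ Q * μ) :
    Y.card * μ ≤ 2 * Q ^ (Fintype.card ι) * K.card := by
  classical
  set P := p ^ m with hP
  set d := Fintype.card ι with hd
  have hP0 : 0 < P := pow_pos hp.pos m
  have hN0 : 0 < p ^ M := pow_pos hp.pos _
  have : NeZero (p ^ M) := ⟨hN0.ne'⟩
  obtain ⟨q, hq⟩ := exists_residue Y Q hQ0
  set Ys := Y.filter (fun y => ∀ i, y i % Q = q i) with hYs
  set ee := d * m * P / Q with hee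
  have he1 : 2 * ee ≤ μ := by
    have h1 : ee * Q ≤ d * m * P := Nat.div_mul_le_self _ _
    have h2 : 2 * ee * Q ≤ μ * Q := by nlinarith
    exact Nat.le_of_mul_le_mul_right h2 hQ0
  set J := μ - ee with hJ
  have hJ1 : J + ee ≤ μ := by omega
  have hJ2 : μ ≤ 2 * J := by omega
  have hJ0 : 0 < J := by omega
  have key : Ys.card * J ≤ K.card := by
    by_contra hcon
    push Not at hcon
    obtain ⟨A, iA, iD, iV, κ, iF, iC, π, ζ, hζ, hπ⟩ := exists_ring p M hp
    have hζ1 : ζ ^ (p ^ M) = 1 := hζ.pow_eq_one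
    let e : ZMod (p ^ M) → A := fun a => AddChar.zmodChar (p ^ M) hζ1 a
    have hev : ∀ a, e a = ζ ^ a.val := fun a => AddChar.zmodChar_apply hζ1 a
    have hcard : Fintype.card K < Fintype.card (Ys × Fin J) := by
      rw [Fintype.card_prod, Fintype.card_fin, Fintype.card_coe, Fintype.card_coe]
      exact hcon
    obtain ⟨c, ⟨a₀, ha₀⟩, hc⟩ := exists_sol hcard
      (fun (k : K) (a : Ys × Fin J) => e k.1.1 ^ (a.2 : ℕ) *
        ∏ i : ι, ∏ c' ∈ cls P Q (a.1.1 i), (e (k.1.2 i) - e k.1.1 ^ c'))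
    let g : (ι → ℕ) → A[X] := fun y =>
      if h : y ∈ Ys then ∑ j : Fin J, C (c (⟨y, h⟩, j)) * X ^ (j : ℕ) else 0
    have hmem : a₀.1.1 ∈ Ys := a₀.1.2
    have hgdeg : (g a₀.1.1).natDegree < J := by
      have h1 : g a₀.1.1 = ∑ j : Fin J, C (c (a₀.1, j)) * X ^ (j : ℕ) := by
        simp only [g, dif_pos hmem]
      rw [h1]
      have h2 : (∑ j : Fin J, C (c (a₀.1, j)) * X ^ (j : ℕ)).natDegree ≤ J - 1 := by
        apply natDegree_sum_le_of_forall_le
        intro j _
        have := j.2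
        exact (natDegree_C_mul_X_pow_le _ _).trans (by omega)
      omega
    have hmemY : a₀.1.1 ∈ Y := (Finset.mem_filter.mp hmem).1
    obtain ⟨S, b, hS, hsb⟩ := hK a₀.1.1 hmemY
    have hred := reduce p M m hp Q hQ0 hQ π e
      (fun a b => AddChar.map_add_eq_mul _ a b)
      (by
        intro a b hab
        rw [hev, hev] at hab
        exact ZMod.val_injective _ (hζ.pow_inj (ZMod.val_lt a) (ZMod.val_lt b) hab))
      (by
        intro a
        rw [hev, map_pow, hπ, one_pow])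
      (by
        intro n a
        have h1 : a * (n : ZMod (p ^ M)) = n • a := by rw [nsmul_eq_mul, mul_comm]
        rw [h1]
        exact AddChar.map_nsmul_eq_pow _ n a)
      Ys (fun y hy => hY y (Finset.mem_filter.mp hy).1) q
      (fun y hy => (Finset.mem_filter.mp hy).2) μ J hJ1 g a₀.1.1 hmem hgdeg S hS b
      (by
        intro s hs
        have h1 := hc ⟨_, hsb s hs⟩
        rw [← h1, Fintype.sum_prod_type, ← Finset.sum_coe_sort Ys]
        apply Finset.sum_congr rfl
        intro y' _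
        have h2 : g y' = ∑ j : Fin J, C (c (y', j)) * X ^ (j : ℕ) := by
          simp only [g, dif_pos y'.2]
        rw [h2, eval_finsetSum, Finset.sum_mul]
        apply Finset.sum_congr rfl
        intro j _
        simp only [eval_mul, eval_C, eval_pow, eval_X]
        ring)
    have h3 : (g a₀.1.1).coeff (a₀.2 : ℕ) = 1 := by
      have h1 : g a₀.1.1 = ∑ j : Fin J, C (c (a₀.1, j)) * X ^ (j : ℕ) := by
        simp only [g, dif_pos hmem]
      rw [h1, finsetSum_coeff]
      rw [Finset.sum_eq_single a₀.2]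
      · simp [ha₀]
      · intro j _ hj
        rw [coeff_C_mul, coeff_X_pow, if_neg, mul_zero]
        intro h
        exact hj (Fin.ext h).symm
      · intro h
        exact absurd (Finset.mem_univ _) h
    have h4 := congrArg (fun f => coeff f (a₀.2 : ℕ)) hred
    simp only [coeff_map, h3, map_one, coeff_zero] at h4
    exact one_ne_zero h4
  calc Y.card * μ ≤ (Q ^ d * Ys.card) * (2 * J) := Nat.mul_le_mul hq hJ2
    _ = 2 * Q ^ d * (Ys.card * J) := by ring
    _ ≤ 2 * Q ^ d * K.card := Nat.mul_le_mul_left _ key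

/-- Kakeya bound over `Z / p^(m+1)` for an arbitrary finite set `Y` of directions
(`y ∈ [0, p^m)^ι`), segments over one residue class mod `p` of the first coordinate. -/
theorem core (p m : ℕ) (hp : p.Prime) {ι : Type} [Fintype ι]
    (K : Finset (ZMod (p ^ (m + 1)) × (ι → ZMod (p ^ (m + 1)))))
    (Y : Finset (ι → ℕ)) (hY : ∀ y ∈ Y, ∀ i, y i < p ^ m)
    (hK : ∀ y ∈ Y, ∃ (s₀ : ZMod (p ^ (m + 1))) (b : ι → ZMod (p ^ (m + 1))),
      ∀ r : ZMod (p ^ (m + 1)),
        ((s₀ + p * r, fun i => (s₀ + p * r) * (y i : ZMod (p ^ (m + 1))) + b i) :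
          ZMod (p ^ (m + 1)) × (ι → ZMod (p ^ (m + 1)))) ∈ K)
    (Q : ℕ) (hQ0 : 0 < Q) (hQ : Nat.Coprime Q p) (hQ2 : 2 * (Fintype.card ι * m) ≤ Q) :
    Y.card * p ^ m ≤ 2 * Q ^ (Fintype.card ι) * K.card := by
  classical
  have hP0 : 0 < p ^ m := pow_pos hp.pos m
  have hN0 : 0 < p ^ (m + 1) := pow_pos hp.pos _
  have : NeZero (p ^ (m + 1)) := ⟨hN0.ne'⟩
  refine coreGen p (m + 1) m hp K Y hY (p ^ m) hP0 ?_ Q hQ0 hQ (by nlinarith)
  intro y hy
  obtain ⟨s₀, b, h⟩ := hK y hy
  refine ⟨(Finset.range (p ^ m)).image (fun i : ℕ => s₀ + p * (i : ZMod (p ^ (m + 1)))), b,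
    ?_, ?_⟩
  · rw [Finset.card_image_of_injOn, Finset.card_range]
    intro i hi j hj hij
    rw [Finset.coe_range, Set.mem_Iio] at hi hj
    have h2 : ((p * i : ℕ) : ZMod (p ^ (m + 1))) = ((p * j : ℕ) : ZMod (p ^ (m + 1))) := by
      push_cast
      exact add_left_cancel hij
    have h3 : ∀ t, t < p ^ m → p * t < p ^ (m + 1) := by
      intro t ht
      rw [pow_succ, mul_comm (p ^ m) p]
      exact Nat.mul_lt_mul_of_pos_left ht hp.pos
    have h4 := congrArg ZMod.val h2
    rw [ZMod.val_natCast_of_lt (h3 i hi), ZMod.val_natCast_of_lt (h3 j hj)] at h4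
    exact Nat.eq_of_mul_eq_mul_left hp.pos h4
  · intro s hs
    rw [Finset.mem_image] at hs
    obtain ⟨i, -, rfl⟩ := hs
    exact h _

end PTD
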