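import Pool.Agent.helper23.PTD.Core

set_option autoImplicit false

namespace PTD

/-- Choice of the modulus `Q`. -/
theorem exists_Q (p D μ : ℕ) (hp : p.Prime) (hμ : 0 < μ) :
    ∃ Q : ℕ, 0 < Q ∧ Nat.Coprime Q p ∧ D ≤ Q * μ ∧ Q * μ ≤ D + 2 * μ := by
  -- `Q₀ = D / μ + 1`, and `Q₀` or `Q₀ + 1`... is prime to `p`
  have h1 : ∃ Q₀ : ℕ, 0 < Q₀ ∧ D ≤ Q₀ * μ ∧ Q₀ * μ ≤ D + μ := by
    rcases Nat.eq_zero_or_pos D with h | h
    · exact ⟨1, one_pos, by omega, by omega⟩
    · refine ⟨(D - 1) / μ + 1, Nat.succ_pos _, ?_, ?_⟩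
      · have := Nat.lt_div_mul_add (a := D - 1) hμ
        have h2 : ((D - 1) / μ + 1) * μ = (D - 1) / μ * μ + μ := by ring
        omega
      · have := Nat.div_mul_le_self (D - 1) μ
        have h2 : ((D - 1) / μ + 1) * μ = (D - 1) / μ * μ + μ := by ring
        omega
  obtain ⟨Q₀, h0, h2, h3⟩ := h1
  by_cases hc : Nat.Coprime Q₀ p
  · exact ⟨Q₀, h0, hc, h2, by omega⟩
  · refine ⟨Q₀ + 1, Nat.succ_pos _, ?_, ?_, ?_⟩
    · have hd : p ∣ Q₀ := by
        by_contra hnd
        exact hc ((Nat.Prime.coprime_iff_not_dvd hp).mpr hnd).symm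
      have hnd : ¬ p ∣ Q₀ + 1 := by
        intro h
        have := (Nat.dvd_add_right hd).mp h
        exact hp.one_lt.ne' (Nat.dvd_one.mp this)
      exact ((Nat.Prime.coprime_iff_not_dvd hp).mpr hnd).symm
    · have : (Q₀ + 1) * μ = Q₀ * μ + μ := by ring
      omega
    · have : (Q₀ + 1) * μ = Q₀ * μ + μ := by ring
      omega

/-- The primitive directions in which some line has at least `μ` points in `K`. -/
def richDirs (p k n : ℕ) (K : Finset (Fin n → ZMod (p ^ k))) (μ : ℕ) :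
    Set (Fin n → ZMod (p ^ k)) :=
  {u | (∃ i, IsUnit (u i)) ∧ ∃ a : Fin n → ZMod (p ^ k),
    μ ≤ {t : ZMod (p ^ k) | a + t • u ∈ K}.ncard}

theorem rich_chart (p k n : ℕ) (hp : p.Prime) (hk : 1 ≤ k)
    (K : Finset (Fin n → ZMod (p ^ k))) (μ : ℕ) (hμ : 1 ≤ μ) (hμN : μ ≤ p ^ k) (i : Fin n) :
    {u | IsUnit (u i) ∧ ∃ a : Fin n → ZMod (p ^ k),
      μ ≤ {t : ZMod (p ^ k) | a + t • u ∈ K}.ncard}.ncard * μ ^ n ≤
      2 * (2 * n * k) ^ (n - 1) * (p ^ k) ^ n * K.card := by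
  classical
  have hN0 : 0 < p ^ k := pow_pos hp.pos _
  have : NeZero (p ^ k) := ⟨hN0.ne'⟩
  set U : Set (Fin n → ZMod (p ^ k)) := {u | IsUnit (u i) ∧ ∃ a : Fin n → ZMod (p ^ k),
      μ ≤ {t : ZMod (p ^ k) | a + t • u ∈ K}.ncard} with hU
  have hn : 1 ≤ n := by
    have := i.2
    omega
  have hcard : Fintype.card {j : Fin n // j ≠ i} = n - 1 := by
    rw [Fintype.card_subtype_compl, Fintype.card_fin, Fintype.card_subtype_eq]
  have hUfin : U.Finite := Set.toFinite _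
  let yy : (Fin n → ZMod (p ^ k)) → ({j : Fin n // j ≠ i} → ℕ) :=
    fun u j => (u j.1 * (u i)⁻¹).val
  let Y : Finset ({j : Fin n // j ≠ i} → ℕ) := hUfin.toFinset.image yy
  let ψ : (Fin n → ZMod (p ^ k)) → ZMod (p ^ k) × ({j : Fin n // j ≠ i} → ZMod (p ^ k)) :=
    fun x => (x i, fun j => x j.1)
  obtain ⟨Q, hQ0, hQ, hQ1, hQ2⟩ := exists_Q p (2 * ((n - 1) * k * p ^ k)) μ hp hμ
  have hcore := coreGen p k k hp (K.image ψ) Y
    (by
      intro y hy j
      simp only [Y, Finset.mem_image] at hy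
      obtain ⟨u, -, rfl⟩ := hy
      exact ZMod.val_lt _)
    μ hμ
    (by
      intro y hy
      simp only [Y, Finset.mem_image, Set.Finite.mem_toFinset] at hy
      obtain ⟨u, ⟨hu1, a, ha⟩, rfl⟩ := hy
      have hu2 : u i * (u i)⁻¹ = 1 := ZMod.mul_inv_of_unit _ hu1
      refine ⟨(Set.toFinite {t : ZMod (p ^ k) | a + t • u ∈ K}).toFinset.image
        (fun t => a i + t * u i), fun j => a j.1 - a i * (u j.1 * (u i)⁻¹), ?_, ?_⟩
      · rw [Finset.card_image_of_injective]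
        · rw [← Set.ncard_eq_toFinset_card _ (Set.toFinite _)]
          exact ha
        · intro t t' h
          have h1 : t * u i = t' * u i := add_left_cancel h
          exact hu1.mul_right_cancel h1
      · intro s hs
        rw [Finset.mem_image] at hs ⊢
        obtain ⟨t, ht, rfl⟩ := hs
        rw [Set.Finite.mem_toFinset] at ht
        refine ⟨a + t • u, ht, ?_⟩
        refine Prod.ext ?_ ?_
        · simp [ψ]
        · funext j
          simp only [ψ, yy, Pi.add_apply, Pi.smul_apply, smul_eq_mul, ZMod.natCast_val,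
            ZMod.cast_id', id_eq]
          linear_combination (- t * u j.1) * hu2)
    Q hQ0 hQ (by rw [hcard]; exact hQ1)
  rw [hcard] at hcore
  have hUY : U.ncard ≤ p ^ k * Y.card := by
    rw [Set.ncard_eq_toFinset_card _ hUfin]
    have h1 : hUfin.toFinset.card ≤
        ((Finset.univ : Finset (ZMod (p ^ k))) ×ˢ Y).card := by
      apply Finset.card_le_card_of_injOn (fun u => (u i, yy u))
      · intro u hu
        rw [Finset.mem_coe] at hu
        rw [Finset.mem_coe, Finset.mem_product]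
        exact ⟨Finset.mem_univ _, Finset.mem_image_of_mem _ hu⟩
      · intro u hu u' hu' h
        rw [Finset.mem_coe, Set.Finite.mem_toFinset] at hu hu'
        have h1 : u i = u' i := congrArg Prod.fst h
        have h2 : yy u = yy u' := congrArg Prod.snd h
        funext j
        by_cases hj : j = i
        · rw [hj]; exact h1
        · have h3 := congrFun h2 ⟨j, hj⟩
          have h4 : u j * (u i)⁻¹ = u' j * (u' i)⁻¹ := ZMod.val_injective _ h3
          have hu2 : u i * (u i)⁻¹ = 1 := ZMod.mul_inv_of_unit _ hu.1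
          rw [← h1] at h4
          linear_combination (u i) * h4 - (u j - u' j) * hu2
    rw [Finset.card_product, Finset.card_univ, ZMod.card] at h1
    exact h1
  have hKc : (K.image ψ).card ≤ K.card := Finset.card_image_le
  have hQ3 : Q * μ ≤ 2 * n * k * p ^ k := by
    have h1 : 2 * ((n - 1) * k * p ^ k) + 2 * μ ≤ 2 * n * k * p ^ k := by
      obtain ⟨d, rfl⟩ : ∃ d, n = d + 1 := ⟨n - 1, by omega⟩
      have h2 : d + 1 - 1 = d := by omega
      rw [h2]
      nlinarith [Nat.mul_le_mul hk hμN]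
    omega
  obtain ⟨d, hd⟩ : ∃ d, n = d + 1 := ⟨n - 1, by omega⟩
  have hd1 : n - 1 = d := by omega
  rw [hd1] at hcore ⊢
  have hμn : μ ^ n = μ ^ d * μ := by rw [hd, pow_succ]
  have hNn : (p ^ k) ^ n = (p ^ k) ^ d * p ^ k := by rw [hd, pow_succ]
  rw [hμn, hNn]
  calc U.ncard * (μ ^ d * μ) ≤ (p ^ k * Y.card) * (μ ^ d * μ) := Nat.mul_le_mul_right _ hUY
    _ = p ^ k * μ ^ d * (Y.card * μ) := by ring
    _ ≤ p ^ k * μ ^ d * (2 * Q ^ d * (K.image ψ).card) := Nat.mul_le_mul_left _ hcore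
    _ = 2 * p ^ k * (Q * μ) ^ d * (K.image ψ).card := by rw [mul_pow]; ring
    _ ≤ 2 * p ^ k * (2 * n * k * p ^ k) ^ d * K.card :=
        Nat.mul_le_mul (Nat.mul_le_mul_left _ (Nat.pow_le_pow_left hQ3 d)) hKc
    _ = 2 * (2 * n * k) ^ d * ((p ^ k) ^ d * p ^ k) * K.card := by
        rw [mul_pow (2 * n * k) (p ^ k) d]; ring

/-- The Kakeya maximal function bound over `Z / p^k`: the number of primitive directions in
which some line has at least `μ` points in `K`. -/
theorem rich (p k n : ℕ) (hp : p.Prime) (hk : 1 ≤ k)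
    (K : Finset (Fin n → ZMod (p ^ k))) (μ : ℕ) (hμ : 1 ≤ μ) :
    (richDirs p k n K μ).ncard * μ ^ n ≤
      2 * n * (2 * n * k) ^ (n - 1) * (p ^ k) ^ n * K.card := by
  classical
  have hN0 : 0 < p ^ k := pow_pos hp.pos _
  have : NeZero (p ^ k) := ⟨hN0.ne'⟩
  by_cases hμN : μ ≤ p ^ k
  · have h1 : richDirs p k n K μ ⊆ ⋃ i : Fin n,
        {u | IsUnit (u i) ∧ ∃ a : Fin n → ZMod (p ^ k),
          μ ≤ {t : ZMod (p ^ k) | a + t • u ∈ K}.ncard} := by
      rintro u ⟨⟨i, hi⟩, ha⟩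
      exact Set.mem_iUnion.mpr ⟨i, hi, ha⟩
    have h2 : (richDirs p k n K μ).ncard ≤ ∑ i : Fin n,
        {u | IsUnit (u i) ∧ ∃ a : Fin n → ZMod (p ^ k),
          μ ≤ {t : ZMod (p ^ k) | a + t • u ∈ K}.ncard}.ncard := by
      refine (Set.ncard_le_ncard h1 (Set.toFinite _)).trans ?_
      exact Set.ncard_iUnion_le_of_fintype _
    calc (richDirs p k n K μ).ncard * μ ^ n
        ≤ (∑ i : Fin n, {u | IsUnit (u i) ∧ ∃ a : Fin n → ZMod (p ^ k),
          μ ≤ {t : ZMod (p ^ k) | a + t • u ∈ K}.ncard}.ncard) * μ ^ n :=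
          Nat.mul_le_mul_right _ h2
      _ = ∑ i : Fin n, {u | IsUnit (u i) ∧ ∃ a : Fin n → ZMod (p ^ k),
          μ ≤ {t : ZMod (p ^ k) | a + t • u ∈ K}.ncard}.ncard * μ ^ n := by
          rw [Finset.sum_mul]
      _ ≤ ∑ _i : Fin n, 2 * (2 * n * k) ^ (n - 1) * (p ^ k) ^ n * K.card :=
          Finset.sum_le_sum fun i _ => rich_chart p k n hp hk K μ hμ hμN i
      _ = 2 * n * (2 * n * k) ^ (n - 1) * (p ^ k) ^ n * K.card := by
          rw [Finset.sum_const, Finset.card_univ, Fintype.card_fin, smul_eq_mul]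
          ring
  · have h1 : richDirs p k n K μ = ∅ := by
      rw [Set.eq_empty_iff_forall_notMem]
      rintro u ⟨-, a, ha⟩
      have h2 : {t : ZMod (p ^ k) | a + t • u ∈ K}.ncard ≤ p ^ k := by
        refine (Set.ncard_le_ncard (Set.subset_univ _) (Set.toFinite _)).trans ?_
        rw [Set.ncard_univ, Nat.card_eq_fintype_card, ZMod.card]
      omega
    rw [h1, Set.ncard_empty, zero_mul]
    exact Nat.zero_le _

end PTD
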