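import Mathlib

set_option autoImplicit false

/-!
p-adic tube doubling, module PTD-Mult.

Multiplicity at `1` of `X ^ a - X ^ c` in characteristic `p` is `p ^ v_p(a - c)`, and the
sum of these over the `c < p ^ m`, `c ≡ a mod Q`, `c ≠ a` is at most `m p^m / Q`:
`p ^ v ≤ ∑_{r < m, p^r ∣ a - c} p ^ r`, and the number of `c ≠ a` in `[0, p^m)` with
`c ≡ a mod Q p^r` is at most `(p^m - 1) / (Q p^r)`.
-/

namespace PTD

open Polynomial

/-- multiplicity of a finite product -/
theorem mult_rm_prod {κ : Type} [Field κ] {α : Type} (s : Finset α) (f : α → κ[X])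
    (hf : ∀ a ∈ s, f a ≠ 0) (x : κ) :
    rootMultiplicity x (∏ a ∈ s, f a) = ∑ a ∈ s, rootMultiplicity x (f a) := by
  classical
  induction s using Finset.induction_on with
  | empty =>
    rw [Finset.prod_empty, Finset.sum_empty]
    exact rootMultiplicity_eq_zero (by simp [IsRoot])
  | insert b s hb ih =>
    rw [Finset.prod_insert hb, Finset.sum_insert hb, rootMultiplicity_mul, ih]
    · intro a ha
      exact hf a (Finset.mem_insert_of_mem ha)
    · refine mul_ne_zero (hf b (Finset.mem_insert_self b s)) ?_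
      exact Finset.prod_ne_zero_iff.mpr fun a ha => hf a (Finset.mem_insert_of_mem ha)

theorem mult_sub_ne {κ : Type} [Field κ] {a c : ℕ} (h : a ≠ c) :
    (X : κ[X]) ^ a - X ^ c ≠ 0 := by
  intro h0
  have h1 : (X : κ[X]) ^ a = X ^ c := sub_eq_zero.mp h0
  have h2 := congrArg natDegree h1
  rw [natDegree_X_pow, natDegree_X_pow] at h2
  exact h h2

/-- a simple root -/
theorem mult_coprime {κ : Type} [Field κ] (p : ℕ) [CharP κ p] {e : ℕ} (he : ¬ p ∣ e) :
    rootMultiplicity 1 ((X : κ[X]) ^ e - 1) ≤ 1 := by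
  by_contra hc
  have he0 : e ≠ 0 := by
    rintro rfl
    exact he (dvd_zero p)
  have hne : (X : κ[X]) ^ e - 1 ≠ 0 := by
    have := mult_sub_ne (κ := κ) he0
    rwa [pow_zero] at this
  have h1 := (one_lt_rootMultiplicity_iff_isRoot hne).mp (not_le.mp hc)
  have h2 := h1.2
  rw [IsRoot, derivative_sub, derivative_X_pow, derivative_one, sub_zero, eval_mul, eval_pow,
    eval_X, one_pow, mul_one] at h2
  simp only [eval_natCast, map_natCast] at h2
  exact he ((CharP.cast_eq_zero_iff κ p e).mp h2)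

theorem mult_pow {κ : Type} [Field κ] (p : ℕ) (hp : p.Prime) [CharP κ p] {v e : ℕ}
    (he : ¬ p ∣ e) :
    rootMultiplicity 1 ((X : κ[X]) ^ (p ^ v * e) - 1) ≤ p ^ v := by
  classical
  have : Fact p.Prime := ⟨hp⟩
  have h1 : (X : κ[X]) ^ (p ^ v * e) - 1 = (X ^ e - 1) ^ p ^ v := by
    rw [sub_pow_char_pow, one_pow, mul_comm, pow_mul]
  rw [h1, ← count_roots, roots_pow, Multiset.count_nsmul, count_roots]
  calc p ^ v * rootMultiplicity 1 ((X : κ[X]) ^ e - 1) ≤ p ^ v * 1 :=
        Nat.mul_le_mul_left _ (mult_coprime p he)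
    _ = p ^ v := mul_one _

theorem mult_lt {κ : Type} [Field κ] {a c : ℕ} (h : a < c) :
    rootMultiplicity 1 ((X : κ[X]) ^ a - X ^ c) = rootMultiplicity 1 ((X : κ[X]) ^ (c - a) - 1) ∧
    rootMultiplicity 1 ((X : κ[X]) ^ c - X ^ a) = rootMultiplicity 1 ((X : κ[X]) ^ (c - a) - 1) := by
  have hX : rootMultiplicity 1 ((X : κ[X]) ^ a) = 0 :=
    rootMultiplicity_eq_zero (by simp [IsRoot])
  have hX' : rootMultiplicity 1 (-(X : κ[X]) ^ a) = 0 :=
    rootMultiplicity_eq_zero (by simp [IsRoot])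
  have e : (X : κ[X]) ^ c = X ^ a * X ^ (c - a) := by
    rw [← pow_add, Nat.add_sub_cancel' h.le]
  have hne : (X : κ[X]) ^ (c - a) - 1 ≠ 0 := by
    have := mult_sub_ne (κ := κ) (a := c - a) (c := 0) (by omega)
    rwa [pow_zero] at this
  have hXne : (X : κ[X]) ^ a ≠ 0 := pow_ne_zero _ X_ne_zero
  constructor
  · have e1 : (X : κ[X]) ^ a - X ^ c = (-X ^ a) * (X ^ (c - a) - 1) := by
      rw [e]; ring
    rw [e1, rootMultiplicity_mul (mul_ne_zero (neg_ne_zero.mpr hXne) hne), hX', zero_add]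
  · have e1 : (X : κ[X]) ^ c - X ^ a = (X ^ a) * (X ^ (c - a) - 1) := by
      rw [e]; ring
    rw [e1, rootMultiplicity_mul (mul_ne_zero hXne hne), hX, zero_add]

/-- the multiplicity is bounded by the sum over the levels -/
theorem mult_le_sum {κ : Type} [Field κ] (p : ℕ) (hp : p.Prime) [CharP κ p] {d m : ℕ}
    (hd : 0 < d) (hdm : d < p ^ m) :
    rootMultiplicity 1 ((X : κ[X]) ^ d - 1) ≤
      ∑ r ∈ Finset.range m, if p ^ r ∣ d then p ^ r else 0 := by
  obtain ⟨v, e, he, hde⟩ := Nat.exists_eq_pow_mul_and_not_dvd hd.ne' p hp.ne_one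
  have h1 : rootMultiplicity 1 ((X : κ[X]) ^ d - 1) ≤ p ^ v := by
    rw [hde]
    exact mult_pow p hp he
  have hdv : p ^ v ∣ d := by
    rw [hde]
    exact dvd_mul_right _ _
  have hv : v < m := by
    have h2 : p ^ v < p ^ m := lt_of_le_of_lt (Nat.le_of_dvd hd hdv) hdm
    exact (Nat.pow_lt_pow_iff_right hp.one_lt).mp h2
  refine h1.trans ?_
  have := Finset.single_le_sum (f := fun r => if p ^ r ∣ d then p ^ r else 0)
    (fun i _ => Nat.zero_le _) (Finset.mem_range.mpr hv)
  simp only [hdv, if_true] at this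
  exact this

/-- number of the other members of a residue class -/
theorem mult_count (D N a : ℕ) (hD : 0 < D) (ha : a < N) :
    D * ((Finset.range N).filter (fun c => c ≡ a [MOD D] ∧ c ≠ a)).card ≤ N := by
  classical
  have h1 : ((Finset.range N).filter (fun c => c ≡ a [MOD D] ∧ c ≠ a)) =
      ((Finset.range N).filter (fun c => c ≡ a [MOD D])).erase a := by
    ext c
    simp only [Finset.mem_filter, Finset.mem_erase, Finset.mem_range]
    tauto
  have h2 : a ∈ ((Finset.range N).filter (fun c => c ≡ a [MOD D])) := by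
    simp only [Finset.mem_filter, Finset.mem_range]
    exact ⟨ha, Nat.ModEq.refl a⟩
  rw [h1, Finset.card_erase_of_mem h2]
  have h3 : ((Finset.range N).filter (fun c => c ≡ a [MOD D])).card =
      N.count (fun c => c ≡ a [MOD D]) := by
    rw [Nat.count_eq_card_filter_range]
  rw [h3, Nat.count_modEq_card N hD a]
  calc D * (N / D + (if a % D < N % D then 1 else 0) - 1) ≤ D * (N / D) := by
        apply Nat.mul_le_mul_left
        generalize N / D = q
        split_ifs
        · exact (Nat.add_sub_cancel q 1).le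
        · exact (Nat.sub_le _ _).trans (Nat.add_zero q).le
    _ ≤ N := Nat.mul_div_le N D

theorem mult_prod (p m Q : ℕ) (hp : p.Prime) (hQ0 : 0 < Q) (hQ : Nat.Coprime Q p)
    (κ : Type) [Field κ] [CharP κ p] {ι : Type} [Fintype ι] (y : ι → ℕ)
    (hy : ∀ i, y i < p ^ m) :
    (∏ i : ι, ∏ c ∈ (Finset.range (p ^ m)).filter (fun c => c % Q = y i % Q ∧ c ≠ y i),
        ((X : κ[X]) ^ (y i) - X ^ c)) ≠ 0 ∧
    Q * rootMultiplicity 1
      (∏ i : ι, ∏ c ∈ (Finset.range (p ^ m)).filter (fun c => c % Q = y i % Q ∧ c ≠ y i),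
        ((X : κ[X]) ^ (y i) - X ^ c)) ≤ Fintype.card ι * m * p ^ m := by
  classical
  have hne : ∀ i : ι, ∀ c ∈ (Finset.range (p ^ m)).filter
      (fun c => c % Q = y i % Q ∧ c ≠ y i), (X : κ[X]) ^ (y i) - X ^ c ≠ 0 := by
    intro i c hc
    exact mult_sub_ne (Finset.mem_filter.mp hc).2.2.symm
  have hne2 : ∀ i : ι, (∏ c ∈ (Finset.range (p ^ m)).filter
      (fun c => c % Q = y i % Q ∧ c ≠ y i), ((X : κ[X]) ^ (y i) - X ^ c)) ≠ 0 :=
    fun i => Finset.prod_ne_zero_iff.mpr (hne i)
  refine ⟨Finset.prod_ne_zero_iff.mpr fun i _ => hne2 i, ?_⟩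
  rw [mult_rm_prod Finset.univ _ (fun i _ => hne2 i), Finset.mul_sum]
  have key : ∀ i : ι, Q * rootMultiplicity 1 (∏ c ∈ (Finset.range (p ^ m)).filter
      (fun c => c % Q = y i % Q ∧ c ≠ y i), ((X : κ[X]) ^ (y i) - X ^ c)) ≤ m * p ^ m := by
    intro i
    rw [mult_rm_prod _ _ (hne i)]
    -- each factor
    have h1 : ∀ c ∈ (Finset.range (p ^ m)).filter (fun c => c % Q = y i % Q ∧ c ≠ y i),
        rootMultiplicity 1 ((X : κ[X]) ^ (y i) - X ^ c) ≤
          ∑ r ∈ Finset.range m, if c ≡ y i [MOD (p ^ r)] then p ^ r else 0 := by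
      intro c hc
      have hc1 := Finset.mem_range.mp (Finset.mem_filter.mp hc).1
      have hc2 := (Finset.mem_filter.mp hc).2.2
      rcases lt_or_gt_of_ne hc2 with hlt | hgt
      · rw [(mult_lt hlt).2]
        refine (mult_le_sum p hp (by omega) (lt_of_le_of_lt (Nat.sub_le _ _) (hy i))).trans ?_
        refine Finset.sum_le_sum fun r _ => ?_
        by_cases hr : p ^ r ∣ y i - c
        · have : c ≡ y i [MOD (p ^ r)] := (Nat.modEq_iff_dvd' hlt.le).mpr hr
          rw [if_pos hr, if_pos this]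
        · rw [if_neg hr]; exact Nat.zero_le _
      · rw [(mult_lt hgt).1]
        refine (mult_le_sum p hp (by omega) (lt_of_le_of_lt (Nat.sub_le _ _) hc1)).trans ?_
        refine Finset.sum_le_sum fun r _ => ?_
        by_cases hr : p ^ r ∣ c - y i
        · have : c ≡ y i [MOD (p ^ r)] := ((Nat.modEq_iff_dvd' hgt.le).mpr hr).symm
          rw [if_pos hr, if_pos this]
        · rw [if_neg hr]; exact Nat.zero_le _
    calc Q * ∑ c ∈ (Finset.range (p ^ m)).filter (fun c => c % Q = y i % Q ∧ c ≠ y i),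
          rootMultiplicity 1 ((X : κ[X]) ^ (y i) - X ^ c)
        ≤ Q * ∑ c ∈ (Finset.range (p ^ m)).filter (fun c => c % Q = y i % Q ∧ c ≠ y i),
          ∑ r ∈ Finset.range m, (if c ≡ y i [MOD (p ^ r)] then p ^ r else 0) :=
          Nat.mul_le_mul_left _ (Finset.sum_le_sum h1)
      _ = ∑ r ∈ Finset.range m, (Q * p ^ r) * (((Finset.range (p ^ m)).filter
            (fun c => c ≡ y i [MOD (Q * p ^ r)] ∧ c ≠ y i)).card) := by
          rw [Finset.sum_comm, Finset.mul_sum]
          refine Finset.sum_congr rfl fun r _ => ?_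
          rw [← Finset.sum_filter, Finset.sum_const, smul_eq_mul, Finset.filter_filter]
          have hset : (Finset.range (p ^ m)).filter
              (fun c => (c % Q = y i % Q ∧ c ≠ y i) ∧ c ≡ y i [MOD (p ^ r)]) =
              (Finset.range (p ^ m)).filter
              (fun c => c ≡ y i [MOD (Q * p ^ r)] ∧ c ≠ y i) := by
            refine Finset.filter_congr fun c _ => ?_
            have hcop : Nat.Coprime Q (p ^ r) := Nat.Coprime.pow_right r hQ
            rw [← Nat.modEq_and_modEq_iff_modEq_mul hcop]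
            constructor
            · rintro ⟨⟨h1, h2⟩, h3⟩
              exact ⟨⟨h1, h3⟩, h2⟩
            · rintro ⟨⟨h1, h3⟩, h2⟩
              exact ⟨⟨h1, h2⟩, h3⟩
          rw [hset]
          ring
      _ ≤ ∑ r ∈ Finset.range m, p ^ m := by
          refine Finset.sum_le_sum fun r _ => ?_
          exact mult_count (Q * p ^ r) (p ^ m) (y i) (Nat.mul_pos hQ0 (pow_pos hp.pos r)) (hy i)
      _ = m * p ^ m := by
          rw [Finset.sum_const, Finset.card_range, smul_eq_mul]
  calc ∑ i : ι, Q * rootMultiplicity 1 (∏ c ∈ (Finset.range (p ^ m)).filter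
      (fun c => c % Q = y i % Q ∧ c ≠ y i), ((X : κ[X]) ^ (y i) - X ^ c))
      ≤ ∑ _i : ι, m * p ^ m := Finset.sum_le_sum fun i _ => key i
    _ = Fintype.card ι * m * p ^ m := by
        rw [Finset.sum_const, Finset.card_univ, smul_eq_mul, mul_assoc]

end PTD
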