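import Pool.Agent.helper23.PTD.Kakeya

set_option autoImplicit false

/-!
p-adic tube doubling, module PTD-NikU: the Nikodym bound over `Z/p^k`, unit parameters.

The set on the left is the union over `i₀ : Fin n` and `c : Z/p^k` of the sets `X_{i₀,c}` of the `x` with
`x i₀ = c` having such a `v` with `v i₀` a unit (the proof of `rich_chart` in Kakeya.lean is the model).
Let `ι = {j // j ≠ i₀}`, `E' = {y ∈ E : y i₀ - c unit}`, `K` the image of `E'` under
`y ↦ (s, s y_j)`, `s = (y i₀ - c)⁻¹`.  For `x ∈ X_{i₀,c}` and a unit `τ` with `x + τ v ∈ E`: `s = τ⁻¹ (v i₀)⁻¹`,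
and the image is `(s, s x_j + v_j / v_{i₀})`; these `s` are at least `μ` many.  `coreGen` (with `M = m = k`)
for the directions `Y = {(x_j).val}_{j ≠ i₀}` (`x ∈ X_{i₀,c}` is determined by it) gives, with
`Q` from `exists_Q p (2 (n-1) k p^k) μ`: `|X_{i₀,c}| μ ≤ 2 Q^(n-1) |E|`, so
`|X_{i₀,c}| μ^n ≤ 2 (Q μ)^(n-1) |E| ≤ 2 (2 n k p^k)^(n-1) |E|` (for `μ ≤ p^k`; otherwise the set is empty).
Sum over the `p^k` values `c` and the `n` values `i₀`.
-/

namespace PTD

theorem nikU_inv_inj {N : ℕ} {a b : ZMod N} (ha : IsUnit a) (hb : IsUnit b)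
    (h : a⁻¹ = b⁻¹) : a = b := by
  have h1 : a * a⁻¹ = 1 := ZMod.mul_inv_of_unit _ ha
  have h2 : b * b⁻¹ = 1 := ZMod.mul_inv_of_unit _ hb
  rw [h] at h1
  linear_combination b * h1 - a * h2

theorem nikU_chart (p k n : ℕ) (hp : p.Prime) (hk : 1 ≤ k)
    (E : Finset (Fin n → ZMod (p ^ k))) (μ : ℕ) (hμ : 1 ≤ μ) (hμN : μ ≤ p ^ k) (i : Fin n)
    (c : ZMod (p ^ k)) :
    {x : Fin n → ZMod (p ^ k) | x i = c ∧ ∃ v : Fin n → ZMod (p ^ k), IsUnit (v i) ∧
      μ ≤ {τ : ZMod (p ^ k) | IsUnit τ ∧ x + τ • v ∈ E}.ncard}.ncard * μ ^ n ≤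
      2 * (2 * n * k * p ^ k) ^ (n - 1) * E.card := by
  classical
  have hN0 : 0 < p ^ k := pow_pos hp.pos _
  have : NeZero (p ^ k) := ⟨hN0.ne'⟩
  set U : Set (Fin n → ZMod (p ^ k)) := {x | x i = c ∧ ∃ v : Fin n → ZMod (p ^ k),
      IsUnit (v i) ∧ μ ≤ {τ : ZMod (p ^ k) | IsUnit τ ∧ x + τ • v ∈ E}.ncard} with hU
  have hn : 1 ≤ n := by
    have := i.2
    omega
  have hcard : Fintype.card {j : Fin n // j ≠ i} = n - 1 := by
    rw [Fintype.card_subtype_compl, Fintype.card_fin, Fintype.card_subtype_eq]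
  have hUfin : U.Finite := Set.toFinite _
  let yy : (Fin n → ZMod (p ^ k)) → ({j : Fin n // j ≠ i} → ℕ) :=
    fun x j => (x j.1).val
  let Y : Finset ({j : Fin n // j ≠ i} → ℕ) := hUfin.toFinset.image yy
  let ψ : (Fin n → ZMod (p ^ k)) → ZMod (p ^ k) × ({j : Fin n // j ≠ i} → ZMod (p ^ k)) :=
    fun x => ((x i - c)⁻¹, fun j => (x i - c)⁻¹ * x j.1)
  obtain ⟨Q, hQ0, hQ, hQ1, hQ2⟩ := exists_Q p (2 * ((n - 1) * k * p ^ k)) μ hp hμ
  have hcore := coreGen p k k hp (E.image ψ) Y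
    (by
      intro y hy j
      simp only [Y, Finset.mem_image] at hy
      obtain ⟨u, -, rfl⟩ := hy
      exact ZMod.val_lt _)
    μ hμ
    (by
      intro y hy
      simp only [Y, Finset.mem_image, Set.Finite.mem_toFinset] at hy
      obtain ⟨x, ⟨hx, v, hv1, ha⟩, rfl⟩ := hy
      have hv2 : v i * (v i)⁻¹ = 1 := ZMod.mul_inv_of_unit _ hv1
      refine ⟨(Set.toFinite {τ : ZMod (p ^ k) | IsUnit τ ∧ x + τ • v ∈ E}).toFinset.image
        (fun τ => (τ * v i)⁻¹), fun j => (v i)⁻¹ * v j.1, ?_, ?_⟩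
      · rw [Finset.card_image_of_injOn]
        · rw [← Set.ncard_eq_toFinset_card _ (Set.toFinite _)]
          exact ha
        · intro t ht t' ht' h
          rw [Finset.mem_coe, Set.Finite.mem_toFinset] at ht ht'
          have h1 : t * v i = t' * v i := nikU_inv_inj (ht.1.mul hv1) (ht'.1.mul hv1) h
          exact hv1.mul_right_cancel h1
      · intro s hs
        rw [Finset.mem_image] at hs ⊢
        obtain ⟨t, ht, rfl⟩ := hs
        rw [Set.Finite.mem_toFinset] at ht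
        have h3 : t * v i * (t * v i)⁻¹ = 1 := ZMod.mul_inv_of_unit _ (ht.1.mul hv1)
        have h4 : x i + t * v i - c = t * v i := by rw [hx]; ring
        refine ⟨x + t • v, ht.2, ?_⟩
        refine Prod.ext ?_ ?_
        · simp only [ψ, Pi.add_apply, Pi.smul_apply, smul_eq_mul]
          rw [h4]
        · funext j
          simp only [ψ, yy, Pi.add_apply, Pi.smul_apply, smul_eq_mul, ZMod.natCast_val,
            ZMod.cast_id', id_eq]
          rw [h4]
          linear_combination (v i)⁻¹ * v j.1 * h3 - (t * v i)⁻¹ * t * v j.1 * hv2)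
    Q hQ0 hQ (by rw [hcard]; exact hQ1)
  rw [hcard] at hcore
  have hUY : U.ncard ≤ Y.card := by
    rw [Set.ncard_eq_toFinset_card _ hUfin]
    apply le_of_eq
    symm
    apply Finset.card_image_of_injOn
    intro x hx x' hx' h
    rw [Finset.mem_coe, Set.Finite.mem_toFinset] at hx hx'
    funext j
    by_cases hj : j = i
    · rw [hj, hx.1, hx'.1]
    · exact ZMod.val_injective _ (congrFun h ⟨j, hj⟩)
  have hKc : (E.image ψ).card ≤ E.card := Finset.card_image_le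
  have hQ3 : Q * μ ≤ 2 * n * k * p ^ k := by
    have h1 : 2 * ((n - 1) * k * p ^ k) + 2 * μ ≤ 2 * n * k * p ^ k := by
      obtain ⟨d, rfl⟩ : ∃ d, n = d + 1 := ⟨n - 1, by omega⟩
      have h2 : d + 1 - 1 = d := by omega
      rw [h2]
      nlinarith [Nat.mul_le_mul hk hμN]
    omega
  obtain ⟨d, hd⟩ : ∃ d, n = d + 1 := ⟨n - 1, by omega⟩
  have hd1 : n - 1 = d := by omega
  rw [hd1] at hcore ⊢
  have hμn : μ ^ n = μ ^ d * μ := by rw [hd, pow_succ]
  rw [hμn]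
  calc U.ncard * (μ ^ d * μ) ≤ Y.card * (μ ^ d * μ) := Nat.mul_le_mul_right _ hUY
    _ = μ ^ d * (Y.card * μ) := by ring
    _ ≤ μ ^ d * (2 * Q ^ d * (E.image ψ).card) := Nat.mul_le_mul_left _ hcore
    _ = 2 * (Q * μ) ^ d * (E.image ψ).card := by rw [mul_pow]; ring
    _ ≤ 2 * (2 * n * k * p ^ k) ^ d * E.card :=
        Nat.mul_le_mul (Nat.mul_le_mul_left _ (Nat.pow_le_pow_left hQ3 d)) hKc

theorem nikodymUnit (p k n : ℕ) (hp : p.Prime) (hk : 1 ≤ k)
    (E : Finset (Fin n → ZMod (p ^ k))) (μ : ℕ) (hμ : 1 ≤ μ) :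
    {x : Fin n → ZMod (p ^ k) | ∃ v : Fin n → ZMod (p ^ k), (∃ i, IsUnit (v i)) ∧
      μ ≤ {τ : ZMod (p ^ k) | IsUnit τ ∧ x + τ • v ∈ E}.ncard}.ncard * μ ^ n ≤
      2 * n * (2 * n * k) ^ (n - 1) * (p ^ k) ^ n * E.card := by
  classical
  have hN0 : 0 < p ^ k := pow_pos hp.pos _
  have : NeZero (p ^ k) := ⟨hN0.ne'⟩
  set U : Set (Fin n → ZMod (p ^ k)) := {x | ∃ v : Fin n → ZMod (p ^ k), (∃ i, IsUnit (v i)) ∧
      μ ≤ {τ : ZMod (p ^ k) | IsUnit τ ∧ x + τ • v ∈ E}.ncard} with hU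
  by_cases hμN : μ ≤ p ^ k
  · let V : Fin n × ZMod (p ^ k) → Set (Fin n → ZMod (p ^ k)) := fun a =>
      {x | x a.1 = a.2 ∧ ∃ v : Fin n → ZMod (p ^ k), IsUnit (v a.1) ∧
        μ ≤ {τ : ZMod (p ^ k) | IsUnit τ ∧ x + τ • v ∈ E}.ncard}
    have h1 : U ⊆ ⋃ a : Fin n × ZMod (p ^ k), V a := by
      rintro x ⟨v, ⟨i, hi⟩, hx⟩
      exact Set.mem_iUnion.mpr ⟨(i, x i), rfl, v, hi, hx⟩
    have h2 : U.ncard ≤ ∑ a : Fin n × ZMod (p ^ k), (V a).ncard := by
      refine (Set.ncard_le_ncard h1 (Set.toFinite _)).trans ?_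
      exact Set.ncard_iUnion_le_of_fintype _
    rcases Nat.eq_zero_or_pos n with hn | hn
    · subst hn
      have h3 : U = ∅ := by
        rw [Set.eq_empty_iff_forall_notMem]
        rintro x ⟨v, ⟨i, hi⟩, hx⟩
        exact i.elim0
      rw [h3, Set.ncard_empty, zero_mul]
      exact Nat.zero_le _
    calc U.ncard * μ ^ n
        ≤ (∑ a : Fin n × ZMod (p ^ k), (V a).ncard) * μ ^ n := Nat.mul_le_mul_right _ h2
      _ = ∑ a : Fin n × ZMod (p ^ k), (V a).ncard * μ ^ n := by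
          rw [Finset.sum_mul]
      _ ≤ ∑ _a : Fin n × ZMod (p ^ k), 2 * (2 * n * k * p ^ k) ^ (n - 1) * E.card :=
          Finset.sum_le_sum fun a _ => nikU_chart p k n hp hk E μ hμ hμN a.1 a.2
      _ = 2 * n * (2 * n * k) ^ (n - 1) * (p ^ k) ^ n * E.card := by
          rw [Finset.sum_const, Finset.card_univ, Fintype.card_prod, Fintype.card_fin, ZMod.card,
            smul_eq_mul]
          obtain ⟨d, hd⟩ : ∃ d, n = d + 1 := ⟨n - 1, by omega⟩
          have hd1 : n - 1 = d := by omega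
          have hNn : (p ^ k) ^ n = (p ^ k) ^ d * p ^ k := by rw [hd, pow_succ]
          rw [hd1, hNn, mul_pow (2 * n * k) (p ^ k) d]
          ring
  · have h1 : U = ∅ := by
      rw [Set.eq_empty_iff_forall_notMem]
      rintro x ⟨v, -, ha⟩
      have h2 : {τ : ZMod (p ^ k) | IsUnit τ ∧ x + τ • v ∈ E}.ncard ≤ p ^ k := by
        refine (Set.ncard_le_ncard (Set.subset_univ _) (Set.toFinite _)).trans ?_
        rw [Set.ncard_univ, Nat.card_eq_fintype_card, ZMod.card]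
      omega
    rw [h1, Set.ncard_empty, zero_mul]
    exact Nat.zero_le _

end PTD
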