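import Mathlib

set_option autoImplicit false

namespace PTD

variable {p : ℕ} [Fact p.Prime] {n : ℕ}

/-- The `δ`-tube in `ℚ_p^n` around the unit segment `{a + t u : |t| ≤ 1}`, `l = (a, u)`: its open
`δ`-neighbourhood (maximum norm). -/
def tube (δ : ℝ) (l : (Fin n → ℚ_[p]) × (Fin n → ℚ_[p])) : Set (Fin n → ℚ_[p]) :=
  {x | ∃ t : ℚ_[p], ‖t‖ ≤ 1 ∧ dist x (l.1 + t • l.2) < δ}

/-- The dilate of the `δ`-tube by the factor `p` (image under the homothety `x ↦ a + p⁻¹ (x - a)`,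
`|p⁻¹| = p`): the `pδ`-neighbourhood of the segment `{a + t u : |t| ≤ p}`. -/
def dtube (δ : ℝ) (l : (Fin n → ℚ_[p]) × (Fin n → ℚ_[p])) : Set (Fin n → ℚ_[p]) :=
  {x | ∃ t : ℚ_[p], ‖t‖ ≤ (p : ℝ) ∧ dist x (l.1 + t • l.2) < (p : ℝ) * δ}

/-- `p y mod p^(k+1)` for `|y| ≤ p`. -/
noncomputable def red (k : ℕ) (y : ℚ_[p]) : ZMod (p ^ (k + 1)) :=
  if h : ‖(p : ℚ_[p]) * y‖ ≤ 1 then PadicInt.toZModPow (k + 1) ⟨(p : ℚ_[p]) * y, h⟩ else 0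

/-- Coordinates on the ball of radius `p` around `c`, at scale `p^(-k)`. -/
noncomputable def rho (k : ℕ) (c x : Fin n → ℚ_[p]) : Fin n → ZMod (p ^ (k + 1)) :=
  fun i => red k (x i - c i)

/-- `u mod p^(k+1)` for `|u| ≤ 1`. -/
noncomputable def bar (k : ℕ) (u : Fin n → ℚ_[p]) : Fin n → ZMod (p ^ (k + 1)) :=
  fun i => if h : ‖u i‖ ≤ 1 then PadicInt.toZModPow (k + 1) ⟨u i, h⟩ else 0

end PTD
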