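import Pool.Agent.helper23.PTD.QpDefs

set_option autoImplicit false

/-!
p-adic tube doubling, module PTD-QpGeom: points and tubes of `ℚ_p^n` inside a ball of radius `p`,
read in `(Z/p^(k+1))^n` by `rho k c x = (p (x - c) mod p^(k+1))`.

Everything is coordinatewise (`dist_pi_le_iff`, `norm` of a pi type).  `rho_eq_iff`:
`p (x_i - c_i)`, `p (y_i - c_i)` are in `ℤ_p` and agree mod `p^(k+1)` iff
`|p (x_i - y_i)| ≤ p^(-(k+1))` (`PadicInt.ker_toZModPow`, `PadicInt.norm_le_pow_iff_mem_span_pow`).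
`mem_tube_iff`: for `|t| ≤ 1` the point `a + t u` has `rho = rho a + (p t) u mod p^(k+1)`; the norm
takes its values in `{0} ∪ p^ℤ`, so `dist < δ` is `dist ≤ p^(-k)` for `p^(-k) < δ ≤ p^(1-k)`, and
`dist < p δ` is `dist ≤ p^(1-k)`.  `mem_dtube_iff`: for `|t| ≤ p`, `r = p t mod p^(k+1)`.
-/

namespace PTD

variable {p : ℕ} [Fact p.Prime] {n : ℕ}

lemma QpGeom_ppos : (0 : ℝ) < p := by
  exact_mod_cast (Fact.out : p.Prime).pos

lemma QpGeom_pne : (p : ℚ_[p]) ≠ 0 := by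
  exact_mod_cast (Fact.out : p.Prime).ne_zero

lemma QpGeom_one_lt : (1 : ℝ) < p := by
  exact_mod_cast (Fact.out : p.Prime).one_lt

lemma QpGeom_norm_p_mul (y : ℚ_[p]) : ‖(p : ℚ_[p]) * y‖ = (p : ℝ)⁻¹ * ‖y‖ := by
  rw [norm_mul, Padic.norm_p]

lemma QpGeom_p_mul_le (y : ℚ_[p]) (h : ‖y‖ ≤ p) : ‖(p : ℚ_[p]) * y‖ ≤ 1 := by
  rw [QpGeom_norm_p_mul]
  have h0 := QpGeom_ppos (p := p)
  rw [inv_mul_le_iff₀ h0, mul_one]
  exact h

lemma QpGeom_red_of (k : ℕ) (y : ℚ_[p]) (h : ‖(p : ℚ_[p]) * y‖ ≤ 1) :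
    red k y = PadicInt.toZModPow (k + 1) ⟨(p : ℚ_[p]) * y, h⟩ := by
  unfold red
  rw [dif_pos h]

lemma QpGeom_add_le {y z : ℚ_[p]} {c : ℝ} (hy : ‖y‖ ≤ c) (hz : ‖z‖ ≤ c) : ‖y + z‖ ≤ c :=
  (Padic.nonarchimedean y z).trans (max_le hy hz)

lemma QpGeom_sub_le {y z : ℚ_[p]} {c : ℝ} (hy : ‖y‖ ≤ c) (hz : ‖z‖ ≤ c) : ‖y - z‖ ≤ c := by
  rw [sub_eq_add_neg]
  exact QpGeom_add_le hy (by rwa [norm_neg])

lemma QpGeom_red_add (k : ℕ) (y z : ℚ_[p]) (hy : ‖y‖ ≤ p) (hz : ‖z‖ ≤ p) :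
    red k (y + z) = red k y + red k z := by
  have h1 := QpGeom_p_mul_le y hy
  have h2 := QpGeom_p_mul_le z hz
  have h3 := QpGeom_p_mul_le (y + z) (QpGeom_add_le hy hz)
  rw [QpGeom_red_of k y h1, QpGeom_red_of k z h2, QpGeom_red_of k (y + z) h3, ← map_add]
  congr 1
  apply Subtype.ext
  change (p : ℚ_[p]) * (y + z) = (p : ℚ_[p]) * y + (p : ℚ_[p]) * z
  ring

lemma QpGeom_red_sub (k : ℕ) (y z : ℚ_[p]) (hy : ‖y‖ ≤ p) (hz : ‖z‖ ≤ p) :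
    red k (y - z) = red k y - red k z := by
  have h := QpGeom_red_add k (y - z) z (QpGeom_sub_le hy hz) hz
  rw [sub_add_cancel] at h
  rw [h]
  ring

lemma QpGeom_red_mul (k : ℕ) (t u : ℚ_[p]) (ht : ‖t‖ ≤ p) (hu : ‖u‖ ≤ 1) :
    red k (t * u) = red k t * PadicInt.toZModPow (k + 1) ⟨u, hu⟩ := by
  have h1 := QpGeom_p_mul_le t ht
  have h3 : ‖t * u‖ ≤ p := by
    rw [norm_mul]
    calc ‖t‖ * ‖u‖ ≤ (p : ℝ) * 1 :=
          mul_le_mul ht hu (norm_nonneg _) QpGeom_ppos.le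
      _ = p := mul_one _
  rw [QpGeom_red_of k t h1, QpGeom_red_of k (t * u) (QpGeom_p_mul_le _ h3), ← map_mul]
  congr 1
  apply Subtype.ext
  change (p : ℚ_[p]) * (t * u) = (p : ℚ_[p]) * t * u
  ring

lemma QpGeom_red_int (k : ℕ) (t : ℚ_[p]) (ht : ‖t‖ ≤ 1) :
    red k t = (p : ZMod (p ^ (k + 1))) * PadicInt.toZModPow (k + 1) ⟨t, ht⟩ := by
  have h1 : ‖t‖ ≤ p := ht.trans QpGeom_one_lt.le
  rw [QpGeom_red_of k t (QpGeom_p_mul_le t h1)]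
  obtain ⟨s, hs⟩ : ∃ s : ℤ_[p], s = ⟨t, ht⟩ := ⟨_, rfl⟩
  have h : (⟨(p : ℚ_[p]) * t, QpGeom_p_mul_le t h1⟩ : ℤ_[p]) = (p : ℤ_[p]) * s := by
    apply Subtype.ext
    rw [hs]
    change (p : ℚ_[p]) * t = ((p : ℤ_[p]) : ℚ_[p]) * t
    rw [PadicInt.coe_natCast]
  rw [h, ← hs, map_mul, map_natCast]

lemma QpGeom_toZModPow_eq_zero (m : ℕ) (x : ℤ_[p]) :
    PadicInt.toZModPow m x = 0 ↔ ‖x‖ ≤ (p : ℝ) ^ (-(m : ℤ)) := by
  rw [PadicInt.norm_le_pow_iff_mem_span_pow, ← PadicInt.ker_toZModPow, RingHom.mem_ker]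

lemma QpGeom_red_eq_zero (k : ℕ) (y : ℚ_[p]) (hy : ‖y‖ ≤ p) :
    red k y = 0 ↔ ‖y‖ ≤ (p : ℝ) ^ (-(k : ℤ)) := by
  rw [QpGeom_red_of k y (QpGeom_p_mul_le y hy), QpGeom_toZModPow_eq_zero]
  change ‖(p : ℚ_[p]) * y‖ ≤ _ ↔ _
  rw [QpGeom_norm_p_mul, inv_mul_le_iff₀ QpGeom_ppos]
  have h : (p : ℝ) * (p : ℝ) ^ (-((k + 1 : ℕ) : ℤ)) = (p : ℝ) ^ (-(k : ℤ)) := by
    rw [← zpow_one_add₀ QpGeom_ppos.ne']
    congr 1
    push_cast
    ring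
  rw [h]

lemma QpGeom_norm_lt_iff (y : ℚ_[p]) (δ : ℝ) (m : ℤ) (h1 : (p : ℝ) ^ m < δ)
    (h2 : δ ≤ (p : ℝ) ^ (m + 1)) : ‖y‖ < δ ↔ ‖y‖ ≤ (p : ℝ) ^ m := by
  constructor
  · intro h
    rw [Padic.norm_le_pow_iff_norm_lt_pow_add_one]
    exact h.trans_le h2
  · intro h
    exact h.trans_lt h1

lemma QpGeom_dist_lt_iff (x y : Fin n → ℚ_[p]) (δ : ℝ) (m : ℤ) (h1 : (p : ℝ) ^ m < δ)
    (h2 : δ ≤ (p : ℝ) ^ (m + 1)) : dist x y < δ ↔ ∀ i, ‖x i - y i‖ ≤ (p : ℝ) ^ m := by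
  have h0 : 0 < δ := (zpow_pos QpGeom_ppos m).trans h1
  rw [dist_pi_lt_iff h0]
  refine forall_congr' fun i => ?_
  rw [dist_eq_norm, QpGeom_norm_lt_iff _ δ m h1 h2]

lemma QpGeom_dist_le_p_iff (x c : Fin n → ℚ_[p]) :
    dist x c ≤ p ↔ ∀ i, ‖x i - c i‖ ≤ p := by
  rw [dist_pi_le_iff QpGeom_ppos.le]
  refine forall_congr' fun i => ?_
  rw [dist_eq_norm]

lemma QpGeom_norm_apply_le (u : Fin n → ℚ_[p]) (hu : ‖u‖ = 1) (i : Fin n) : ‖u i‖ ≤ 1 :=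
  (norm_le_pi_norm u i).trans hu.le

lemma QpGeom_bar_of (k : ℕ) (u : Fin n → ℚ_[p]) (i : Fin n) (h : ‖u i‖ ≤ 1) :
    bar k u i = PadicInt.toZModPow (k + 1) ⟨u i, h⟩ := by
  unfold bar
  rw [dif_pos h]

/-- lift of a residue -/
lemma QpGeom_lift (m : ℕ) (r : ZMod (p ^ m)) : ∃ s : ℤ_[p], PadicInt.toZModPow m s = r := by
  have : NeZero (p ^ m) := ⟨pow_ne_zero _ (Fact.out : p.Prime).ne_zero⟩
  refine ⟨(r.val : ℤ_[p]), ?_⟩
  rw [map_natCast, ZMod.natCast_val, ZMod.cast_id', id]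

/-- lift of a residue to a `p`-adic number of norm `≤ p` -/
lemma QpGeom_lift_red (k : ℕ) (r : ZMod (p ^ (k + 1))) :
    ∃ y : ℚ_[p], ‖y‖ ≤ p ∧ red k y = r := by
  obtain ⟨s, hs⟩ := QpGeom_lift (k + 1) r
  have h1 : (p : ℚ_[p]) * ((s : ℚ_[p]) / p) = s := by
    rw [mul_div_cancel₀]
    exact QpGeom_pne
  have h2 : ‖(p : ℚ_[p]) * ((s : ℚ_[p]) / p)‖ ≤ 1 := by
    rw [h1]
    exact s.2
  refine ⟨(s : ℚ_[p]) / p, ?_, ?_⟩
  · rw [QpGeom_norm_p_mul, inv_mul_le_iff₀ QpGeom_ppos, mul_one] at h2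
    exact h2
  · rw [QpGeom_red_of k _ h2, ← hs]
    congr 1
    exact Subtype.ext h1

theorem rho_eq_iff (k : ℕ) (c x y : Fin n → ℚ_[p]) (hx : dist x c ≤ p) (hy : dist y c ≤ p) :
    rho k c x = rho k c y ↔ dist x y ≤ (p : ℝ) ^ (-(k : ℤ)) := by
  rw [dist_pi_le_iff (zpow_pos QpGeom_ppos _).le, funext_iff]
  rw [QpGeom_dist_le_p_iff] at hx hy
  refine forall_congr' fun i => ?_
  have h : x i - y i = (x i - c i) - (y i - c i) := by ring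
  rw [dist_eq_norm, ← QpGeom_red_eq_zero k (x i - y i)
    (by rw [h]; exact QpGeom_sub_le (hx i) (hy i)), h, QpGeom_red_sub k _ _ (hx i) (hy i),
    sub_eq_zero]
  rfl

theorem rho_surj (k : ℕ) (c : Fin n → ℚ_[p]) (v : Fin n → ZMod (p ^ (k + 1))) :
    ∃ x : Fin n → ℚ_[p], dist x c ≤ p ∧ rho k c x = v := by
  choose y hy1 hy2 using fun i => QpGeom_lift_red k (v i)
  refine ⟨fun i => c i + y i, ?_, ?_⟩
  · rw [QpGeom_dist_le_p_iff]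
    intro i
    simpa using hy1 i
  · funext i
    unfold rho
    simp only [add_sub_cancel_left]
    exact hy2 i

lemma QpGeom_isUnit_iff (m : ℕ) (x : ℤ_[p]) :
    IsUnit (PadicInt.toZModPow (m + 1) x) ↔ ‖x‖ = 1 := by
  constructor
  · intro h
    by_contra hne
    have hlt : ‖x‖ < 1 := lt_of_le_of_ne x.norm_le_one hne
    rw [PadicInt.norm_lt_one_iff_dvd] at hlt
    obtain ⟨y, rfl⟩ := hlt
    rw [map_mul, map_natCast] at h
    have h2 : IsUnit ((p : ℕ) : ZMod (p ^ (m + 1))) := isUnit_of_mul_isUnit_left h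
    rw [ZMod.isUnit_iff_coprime] at h2
    have h3 : p.Coprime p := by
      rw [pow_succ] at h2
      exact Nat.Coprime.coprime_mul_left_right h2
    rw [Nat.coprime_self] at h3
    exact (Fact.out : p.Prime).ne_one h3
  · intro h
    rw [← PadicInt.isUnit_iff] at h
    exact h.map _

theorem bar_unit (k : ℕ) (u : Fin n → ℚ_[p]) (hu : ‖u‖ = 1) : ∃ i, IsUnit (bar k u i) := by
  by_contra hcon
  push Not at hcon
  have hlt : ∀ i, ‖u i‖ < 1 := by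
    intro i
    have h1 := QpGeom_norm_apply_le u hu i
    refine lt_of_le_of_ne h1 fun h2 => hcon i ?_
    rw [QpGeom_bar_of k u i h1, QpGeom_isUnit_iff]
    exact h2
  have h : ‖u‖ < 1 := (pi_norm_lt_iff one_pos).2 hlt
  rw [hu] at h
  exact lt_irrefl _ h

theorem bar_surj (k : ℕ) (v : Fin n → ZMod (p ^ (k + 1))) (hv : ∃ i, IsUnit (v i)) :
    ∃ u : Fin n → ℚ_[p], ‖u‖ = 1 ∧ bar k u = v := by
  choose s hs using fun i => QpGeom_lift (k + 1) (v i)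
  refine ⟨fun i => (s i : ℚ_[p]), ?_, ?_⟩
  · apply le_antisymm
    · rw [pi_norm_le_iff_of_nonneg zero_le_one]
      intro i
      exact (s i).2
    · obtain ⟨i, hi⟩ := hv
      rw [← hs i, QpGeom_isUnit_iff] at hi
      calc (1 : ℝ) = ‖s i‖ := hi.symm
        _ = ‖(fun i => (s i : ℚ_[p])) i‖ := rfl
        _ ≤ _ := norm_le_pi_norm (fun i => (s i : ℚ_[p])) i
  · funext i
    rw [QpGeom_bar_of k _ i (s i).2]
    exact hs i

lemma QpGeom_rho_add (k : ℕ) (c a : Fin n → ℚ_[p]) (t : ℚ_[p]) (u : Fin n → ℚ_[p])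
    (ha : ∀ i, ‖a i - c i‖ ≤ p) (ht : ‖t‖ ≤ p) (hu : ‖u‖ = 1) (i : Fin n) :
    rho k c (a + t • u) i = rho k c a i + red k t * bar k u i := by
  have h1 := QpGeom_norm_apply_le u hu i
  have h3 : ‖t * u i‖ ≤ p := by
    rw [norm_mul]
    calc ‖t‖ * ‖u i‖ ≤ (p : ℝ) * 1 :=
          mul_le_mul ht h1 (norm_nonneg _) QpGeom_ppos.le
      _ = p := mul_one _
  rw [QpGeom_bar_of k u i h1, ← QpGeom_red_mul k t (u i) ht h1]
  unfold rho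
  rw [← QpGeom_red_add k _ _ (ha i) h3]
  congr 1
  simp only [Pi.add_apply, Pi.smul_apply, smul_eq_mul]
  ring

lemma QpGeom_dist_add (c a : Fin n → ℚ_[p]) (t : ℚ_[p]) (u : Fin n → ℚ_[p])
    (ha : ∀ i, ‖a i - c i‖ ≤ p) (ht : ‖t‖ ≤ p) (hu : ‖u‖ = 1) (i : Fin n) :
    ‖(a + t • u) i - c i‖ ≤ p := by
  have h1 := QpGeom_norm_apply_le u hu i
  have h3 : ‖t * u i‖ ≤ p := by
    rw [norm_mul]
    calc ‖t‖ * ‖u i‖ ≤ (p : ℝ) * 1 :=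
          mul_le_mul ht h1 (norm_nonneg _) QpGeom_ppos.le
      _ = p := mul_one _
  have h : (a + t • u) i - c i = (a i - c i) + t * u i := by
    simp only [Pi.add_apply, Pi.smul_apply, smul_eq_mul]
    ring
  rw [h]
  exact QpGeom_add_le (ha i) h3

theorem mem_tube_iff (k : ℕ) (δ : ℝ) (hδ1 : (p : ℝ) ^ (-(k : ℤ)) < δ)
    (hδ2 : δ ≤ (p : ℝ) ^ (1 - (k : ℤ))) (hk : 1 ≤ k) (c : Fin n → ℚ_[p])
    (l : (Fin n → ℚ_[p]) × (Fin n → ℚ_[p])) (hu : ‖l.2‖ = 1) (hc : dist l.1 c ≤ p)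
    (x : Fin n → ℚ_[p]) :
    x ∈ tube δ l ↔ dist x c ≤ p ∧ ∃ r : ZMod (p ^ (k + 1)),
      rho k c x = rho k c l.1 + ((p : ZMod (p ^ (k + 1))) * r) • bar k l.2 := by
  have hδ2' : δ ≤ (p : ℝ) ^ (-(k : ℤ) + 1) := by
    rwa [neg_add_eq_sub]
  have hkp : (p : ℝ) ^ (-(k : ℤ)) ≤ p := by
    calc (p : ℝ) ^ (-(k : ℤ)) ≤ (p : ℝ) ^ (1 : ℤ) :=
          zpow_le_zpow_right₀ QpGeom_one_lt.le (by omega)
      _ = p := zpow_one _
  rw [QpGeom_dist_le_p_iff] at hc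
  have key : ∀ t : ℚ_[p], (ht : ‖t‖ ≤ 1) → ∀ x : Fin n → ℚ_[p],
      dist x (l.1 + t • l.2) < δ ↔ dist x c ≤ p ∧
        rho k c x = rho k c l.1 + ((p : ZMod (p ^ (k + 1))) *
          PadicInt.toZModPow (k + 1) ⟨t, ht⟩) • bar k l.2 := by
    intro t ht x
    have ht' : ‖t‖ ≤ p := ht.trans QpGeom_one_lt.le
    have hz : dist (l.1 + t • l.2) c ≤ p := by
      rw [QpGeom_dist_le_p_iff]
      exact QpGeom_dist_add c l.1 t l.2 hc ht' hu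
    have hrho : rho k c (l.1 + t • l.2) = rho k c l.1 + ((p : ZMod (p ^ (k + 1))) *
          PadicInt.toZModPow (k + 1) ⟨t, ht⟩) • bar k l.2 := by
      funext i
      rw [QpGeom_rho_add k c l.1 t l.2 hc ht' hu i, QpGeom_red_int k t ht]
      rfl
    rw [← hrho]
    constructor
    · intro h
      rw [QpGeom_dist_lt_iff _ _ δ _ hδ1 hδ2'] at h
      have hxc : dist x c ≤ p := by
        rw [QpGeom_dist_le_p_iff] at hz ⊢
        intro i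
        have e : x i - c i = (x i - (l.1 + t • l.2) i) + ((l.1 + t • l.2) i - c i) := by ring
        rw [e]
        exact QpGeom_add_le ((h i).trans hkp) (hz i)
      refine ⟨hxc, ?_⟩
      rw [rho_eq_iff k c x _ hxc hz, dist_pi_le_iff (zpow_pos QpGeom_ppos _).le]
      intro i
      rw [dist_eq_norm]
      exact h i
    · rintro ⟨hxc, h⟩
      rw [rho_eq_iff k c x _ hxc hz] at h
      exact h.trans_lt hδ1
  constructor
  · rintro ⟨t, ht, hd⟩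
    obtain ⟨h1, h2⟩ := (key t ht x).1 hd
    exact ⟨h1, _, h2⟩
  · rintro ⟨h1, r, h2⟩
    obtain ⟨s, hs⟩ := QpGeom_lift (k + 1) r
    refine ⟨(s : ℚ_[p]), s.2, (key s s.2 x).2 ⟨h1, ?_⟩⟩
    rw [h2, ← hs]
    rfl

lemma QpGeom_pow_dvd (k : ℕ) (x : ℤ_[p]) :
    (∃ z : ZMod (p ^ (k + 1)), PadicInt.toZModPow (k + 1) x = (p : ZMod (p ^ (k + 1))) ^ k * z) ↔
      ‖x‖ ≤ (p : ℝ) ^ (-(k : ℤ)) := by
  rw [PadicInt.norm_le_pow_iff_mem_span_pow, Ideal.mem_span_singleton]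
  constructor
  · rintro ⟨z, hz⟩
    obtain ⟨s, hs⟩ := QpGeom_lift (k + 1) z
    have h : PadicInt.toZModPow (k + 1) (x - (p : ℤ_[p]) ^ k * s) = 0 := by
      rw [map_sub, map_mul, map_pow, map_natCast, hz, hs, sub_self]
    rw [← RingHom.mem_ker, PadicInt.ker_toZModPow, Ideal.mem_span_singleton] at h
    have h2 : (p : ℤ_[p]) ^ k ∣ x - (p : ℤ_[p]) ^ k * s :=
      (pow_dvd_pow _ (Nat.le_succ k)).trans h
    have h3 := dvd_add h2 (Dvd.intro s rfl : (p : ℤ_[p]) ^ k ∣ (p : ℤ_[p]) ^ k * s)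
    rwa [sub_add_cancel] at h3
  · rintro ⟨s, rfl⟩
    refine ⟨PadicInt.toZModPow (k + 1) s, ?_⟩
    rw [map_mul, map_pow, map_natCast]

theorem mem_dtube_iff (k : ℕ) (δ : ℝ) (hδ1 : (p : ℝ) ^ (-(k : ℤ)) < δ)
    (hδ2 : δ ≤ (p : ℝ) ^ (1 - (k : ℤ))) (hk : 1 ≤ k) (c : Fin n → ℚ_[p])
    (l : (Fin n → ℚ_[p]) × (Fin n → ℚ_[p])) (hu : ‖l.2‖ = 1) (hc : dist l.1 c ≤ p)
    (x : Fin n → ℚ_[p]) :
    x ∈ dtube δ l ↔ dist x c ≤ p ∧ ∃ r : ZMod (p ^ (k + 1)), ∀ i, ∃ z : ZMod (p ^ (k + 1)),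
      rho k c x i - (rho k c l.1 i + r * bar k l.2 i) = (p : ZMod (p ^ (k + 1))) ^ k * z := by
  have hδ1' : (p : ℝ) ^ (1 - (k : ℤ)) < (p : ℝ) * δ := by
    rw [sub_eq_add_neg, zpow_add₀ QpGeom_ppos.ne', zpow_one]
    exact mul_lt_mul_of_pos_left hδ1 QpGeom_ppos
  have hδ2' : (p : ℝ) * δ ≤ (p : ℝ) ^ (1 - (k : ℤ) + 1) := by
    rw [add_comm, zpow_add₀ QpGeom_ppos.ne', zpow_one]
    exact mul_le_mul_of_nonneg_left hδ2 QpGeom_ppos.le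
  have hkp : (p : ℝ) ^ (1 - (k : ℤ)) ≤ p := by
    calc (p : ℝ) ^ (1 - (k : ℤ)) ≤ (p : ℝ) ^ (1 : ℤ) :=
          zpow_le_zpow_right₀ QpGeom_one_lt.le (by omega)
      _ = p := zpow_one _
  rw [QpGeom_dist_le_p_iff] at hc
  have key : ∀ t : ℚ_[p], ‖t‖ ≤ p → ∀ x : Fin n → ℚ_[p],
      dist x (l.1 + t • l.2) < (p : ℝ) * δ ↔ dist x c ≤ p ∧
        ∀ i, ∃ z : ZMod (p ^ (k + 1)),
          rho k c x i - (rho k c l.1 i + red k t * bar k l.2 i) =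
            (p : ZMod (p ^ (k + 1))) ^ k * z := by
    intro t ht x
    have hz : ∀ i, ‖(l.1 + t • l.2) i - c i‖ ≤ p := QpGeom_dist_add c l.1 t l.2 hc ht hu
    have hstep : ∀ i, ‖x i - c i‖ ≤ p →
        ((∃ z : ZMod (p ^ (k + 1)),
          rho k c x i - (rho k c l.1 i + red k t * bar k l.2 i) =
            (p : ZMod (p ^ (k + 1))) ^ k * z) ↔
        ‖x i - (l.1 + t • l.2) i‖ ≤ (p : ℝ) ^ (1 - (k : ℤ))) := by
      intro i hi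
      have e : x i - (l.1 + t • l.2) i = (x i - c i) - ((l.1 + t • l.2) i - c i) := by ring
      have hle : ‖x i - (l.1 + t • l.2) i‖ ≤ p := by
        rw [e]
        exact QpGeom_sub_le hi (hz i)
      have hr : rho k c x i - (rho k c l.1 i + red k t * bar k l.2 i) =
          red k (x i - (l.1 + t • l.2) i) := by
        rw [← QpGeom_rho_add k c l.1 t l.2 hc ht hu i, e,
          QpGeom_red_sub k _ _ hi (hz i)]
        rfl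
      rw [hr, QpGeom_red_of k _ (QpGeom_p_mul_le _ hle), QpGeom_pow_dvd]
      change ‖(p : ℚ_[p]) * _‖ ≤ _ ↔ _
      rw [QpGeom_norm_p_mul, inv_mul_le_iff₀ QpGeom_ppos, ← zpow_one_add₀ QpGeom_ppos.ne',
        ← sub_eq_add_neg]
    constructor
    · intro h
      rw [QpGeom_dist_lt_iff _ _ _ _ hδ1' hδ2'] at h
      have hxc : ∀ i, ‖x i - c i‖ ≤ p := by
        intro i
        have e : x i - c i = (x i - (l.1 + t • l.2) i) + ((l.1 + t • l.2) i - c i) := by ring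
        rw [e]
        exact QpGeom_add_le ((h i).trans hkp) (hz i)
      exact ⟨(QpGeom_dist_le_p_iff x c).2 hxc, fun i => (hstep i (hxc i)).2 (h i)⟩
    · rintro ⟨hxc, h⟩
      rw [QpGeom_dist_le_p_iff] at hxc
      rw [QpGeom_dist_lt_iff _ _ _ _ hδ1' hδ2']
      exact fun i => (hstep i (hxc i)).1 (h i)
  constructor
  · rintro ⟨t, ht, hd⟩
    obtain ⟨h1, h2⟩ := (key t ht x).1 hd
    exact ⟨h1, _, h2⟩
  · rintro ⟨h1, r, h2⟩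
    obtain ⟨t, ht, htr⟩ := QpGeom_lift_red k r
    refine ⟨t, ht, (key t ht x).2 ⟨h1, ?_⟩⟩
    rw [htr]
    exact h2

end PTD
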