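import Pool.Agent.helper23.PTD.QpGeom

set_option autoImplicit false

/-!
p-adic tube doubling, module PTD-QpMeas: Haar measure of sets read by `rho`.

The set is the disjoint union over `v ∈ S` of the closed balls of radius `p^(-k)` around points
`x_v` with `dist x_v c ≤ p`, `rho k c x_v = v` (`rho_surj`, `rho_eq_iff`, ultrametric inequality:
a point at distance `≤ p^(-k) ≤ p` from `x_v` is at distance `≤ p` from `c`), and all closed balls of
radius `p^(-k)` have the same measure.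
-/

namespace PTD

open MeasureTheory

section geom

variable {p : ℕ} [Fact p.Prime] {n : ℕ}

theorem dist_le_p_of_near (k : ℕ) (c x y : Fin n → ℚ_[p]) (hx : dist x c ≤ p)
    (hxy : dist y x ≤ (p : ℝ) ^ (-(k : ℤ))) : dist y c ≤ p := by
  have hp : (1 : ℝ) ≤ p := by exact_mod_cast (Fact.out : p.Prime).one_le
  have h1 : (p : ℝ) ^ (-(k : ℤ)) ≤ p := by
    calc (p : ℝ) ^ (-(k : ℤ)) ≤ (p : ℝ) ^ (1 : ℤ) :=
          zpow_le_zpow_right₀ hp (by have : (0 : ℤ) ≤ k := Int.natCast_nonneg k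
                                     omega)
      _ = p := zpow_one _
  exact (dist_triangle_max y x c).trans (max_le (hxy.trans h1) hx)

theorem setOf_rho_eq (k : ℕ) (c x : Fin n → ℚ_[p]) (hx : dist x c ≤ p) :
    {y : Fin n → ℚ_[p] | dist y c ≤ p ∧ rho k c y = rho k c x} =
      Metric.closedBall x ((p : ℝ) ^ (-(k : ℤ))) := by
  ext y
  simp only [Set.mem_ofPred_eq, Metric.mem_closedBall]
  constructor
  · rintro ⟨h1, h2⟩
    exact (rho_eq_iff k c y x h1 hx).1 h2
  · intro h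
    have h1 := dist_le_p_of_near k c x y hx h
    exact ⟨h1, (rho_eq_iff k c y x h1 hx).2 h⟩

theorem setOf_rho_union (k : ℕ) (c : Fin n → ℚ_[p]) (S : Set (Fin n → ZMod (p ^ (k + 1))))
    (f : (Fin n → ZMod (p ^ (k + 1))) → (Fin n → ℚ_[p]))
    (hf : ∀ v, dist (f v) c ≤ p ∧ rho k c (f v) = v) :
    {x : Fin n → ℚ_[p] | dist x c ≤ p ∧ rho k c x ∈ S} =
      ⋃ v ∈ S, Metric.closedBall (f v) ((p : ℝ) ^ (-(k : ℤ))) := by
  have h : ∀ v, Metric.closedBall (f v) ((p : ℝ) ^ (-(k : ℤ))) =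
      {y : Fin n → ℚ_[p] | dist y c ≤ p ∧ rho k c y = v} := by
    intro v
    rw [← setOf_rho_eq k c (f v) (hf v).1, (hf v).2]
  ext x
  simp only [h, Set.mem_ofPred_eq, Set.mem_iUnion, exists_prop]
  constructor
  · rintro ⟨h1, h2⟩
    exact ⟨_, h2, h1, rfl⟩
  · rintro ⟨v, hv, h1, h2⟩
    exact ⟨h1, h2 ▸ hv⟩

end geom

variable {p : ℕ} [Fact p.Prime] {n : ℕ} [MeasurableSpace (Fin n → ℚ_[p])]
  [BorelSpace (Fin n → ℚ_[p])]

theorem measurable_rho (k : ℕ) (c : Fin n → ℚ_[p]) (S : Set (Fin n → ZMod (p ^ (k + 1)))) :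
    MeasurableSet {x : Fin n → ℚ_[p] | dist x c ≤ p ∧ rho k c x ∈ S} := by
  choose f hf using rho_surj (p := p) (n := n) k c
  rw [setOf_rho_union k c S f hf]
  have : NeZero (p ^ (k + 1)) := ⟨pow_ne_zero _ (Fact.out : p.Prime).ne_zero⟩
  exact MeasurableSet.biUnion (Set.toFinite S).countable
    (fun v _ => Metric.isClosed_closedBall.measurableSet)

theorem measure_rho (μ : Measure (Fin n → ℚ_[p])) [μ.IsAddHaarMeasure] (k : ℕ)
    (c : Fin n → ℚ_[p]) (S : Set (Fin n → ZMod (p ^ (k + 1)))) :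
    μ {x : Fin n → ℚ_[p] | dist x c ≤ p ∧ rho k c x ∈ S} =
      (S.ncard : ENNReal) * μ (Metric.closedBall 0 ((p : ℝ) ^ (-(k : ℤ)))) := by
  classical
  choose f hf using rho_surj (p := p) (n := n) k c
  have : NeZero (p ^ (k + 1)) := ⟨pow_ne_zero _ (Fact.out : p.Prime).ne_zero⟩
  have hfin : S.Finite := Set.toFinite S
  have hball : ∀ x : Fin n → ℚ_[p],
      μ (Metric.closedBall x ((p : ℝ) ^ (-(k : ℤ)))) =
        μ (Metric.closedBall 0 ((p : ℝ) ^ (-(k : ℤ)))) := by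
    intro x
    have h1 : (fun y => x + y) ⁻¹' (Metric.closedBall x ((p : ℝ) ^ (-(k : ℤ)))) =
        Metric.closedBall 0 ((p : ℝ) ^ (-(k : ℤ))) := by
      ext y
      simp [Metric.mem_closedBall, dist_eq_norm]
    rw [← h1, measure_preimage_add]
  rw [setOf_rho_union k c S f hf]
  have hS : (⋃ v ∈ S, Metric.closedBall (f v) ((p : ℝ) ^ (-(k : ℤ)))) =
      ⋃ v ∈ hfin.toFinset, Metric.closedBall (f v) ((p : ℝ) ^ (-(k : ℤ))) := by
    simp only [Set.Finite.mem_toFinset]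
  rw [hS, measure_biUnion_finset]
  · rw [Finset.sum_congr rfl (fun v _ => hball (f v)), Finset.sum_const, nsmul_eq_mul,
      Set.ncard_eq_toFinset_card S hfin]
  · intro v _ w _ hvw
    rw [Function.onFun, Set.disjoint_left]
    intro x hx1 hx2
    apply hvw
    rw [← setOf_rho_eq k c (f v) (hf v).1] at hx1
    rw [← setOf_rho_eq k c (f w) (hf w).1] at hx2
    rw [← (hf v).2, ← (hf w).2, ← hx1.2, ← hx2.2]
  · intro v _
    exact Metric.isClosed_closedBall.measurableSet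

end PTD
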