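import Pool.Agent.helper23.PTD.Core
import Pool.Agent.helper23.PTD.Defs

set_option autoImplicit false

/-!
p-adic tube doubling, module PTD-Slice: from `core` to the upper bound.

Proof of `slice`.  Let `N = p^(m+1)`, `d = n - 1`, `ι = {i // i ≠ i₀}`, `E' = {x ∈ E : x i₀ - c unit}` and
`ψ x = (s, fun i => s * x i)` with `s = (x i₀ - c)⁻¹`; `K = E'.image ψ`, so `|K| ≤ |E|`.  For `x ∈ X` with
`v`: the point `x + τ v`, `τ = 1 + p r`, is in `E'`, `s = τ⁻¹ v₀⁻¹` (`v₀ = v i₀`), and `ψ` of it is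
`(s, s x_i + v_i / v₀)`.  As `r` varies, `s` runs through all of `s₀ + p R`, `s₀ = v₀⁻¹` (given
`s = s₀ + p r'`, it is a unit and `τ = s⁻¹ v₀⁻¹ ≡ 1 mod p`).  For `x ∈ X` let `y(x)_i = (x_i).val % p^m`
(`i ≠ i₀`), `x_i = y_i + p^m z_i` with `z_i < p`; then `s x_i + v_i/v₀ = s y_i + b_i` for all
`s ∈ s₀ + p R`, with `b_i = v_i/v₀ + s₀ p^m z_i`, since `p^m p = 0`.  So `core` applies to
`Y = X.image y`: `|Y| p^m ≤ 2 Q^d |K|`.  Finally `|X| ≤ p^d |Y|`, as `x ∈ X` is determined by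
`y(x)` and `z(x) ∈ [0,p)^ι`, `x i₀ = c` being fixed.

Proof of `upper`.  `k = m + 1`, `E = Tub`, `D = Dil`.  Every `x ∈ D \ E` is `x = a + s u` with
`(a, u) ∈ L`, and `s` is a unit (else `x ∈ E`); put `v = -s • u`: `x + (1 + p r) v = a - p r s u ∈ E` for
all `r`, and `v i₀` is a unit for the `i₀` with `u i₀` a unit.  For `i₀` and `c` let `X_{i₀,c}` be the set
of the `x ∈ D \ E` with `x i₀ = c` and such a `v`.  `slice` gives
`|X_{i₀,c}| p^m ≤ 2 (pQ)^(n-1) |E|`; sum over the `p^(m+1)` values of `c` and the `n` values of `i₀`: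
`|D \ E| ≤ 2 n p (pQ)^(n-1) |E| = 2 n p^n Q^(n-1) |E|`.  Take `Q ∈ {2(n-1)m + 1, 2(n-1)m + 2}` prime
to `p`; `Q ≤ 2 n k`.
-/

namespace PTD

theorem pm_mul_p (p m : ℕ) : ((p ^ m : ℕ) : ZMod (p ^ (m + 1))) * (p : ZMod (p ^ (m + 1))) = 0 := by
  rw [← Nat.cast_mul, ← pow_succ]
  exact ZMod.natCast_self _

theorem isUnit_one_add_p (p m : ℕ) (r : ZMod (p ^ (m + 1))) : IsUnit (1 + (p : ZMod (p ^ (m + 1))) * r) := by
  have h : IsNilpotent ((p : ZMod (p ^ (m + 1))) * r) := by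
    refine ⟨m + 1, ?_⟩
    rw [mul_pow, ← Nat.cast_pow, ZMod.natCast_self, zero_mul]
  exact h.isUnit_one_add

/-- the parameter: every `s ∈ v₀⁻¹ + p R` is the inverse of `(1 + p r) v₀` for some `r` -/
theorem exists_param (p m : ℕ) {v0 : ZMod (p ^ (m + 1))} (hv : IsUnit v0) (r' : ZMod (p ^ (m + 1))) :
    ∃ r : ZMod (p ^ (m + 1)), IsUnit ((1 + (p : ZMod (p ^ (m + 1))) * r) * v0) ∧
      ((1 + (p : ZMod (p ^ (m + 1))) * r) * v0)⁻¹ = v0⁻¹ + p * r' := by
  have hw := isUnit_one_add_p p m (r' * v0)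
  have hww : (1 + (p : ZMod (p ^ (m + 1))) * (r' * v0)) * (1 + (p : ZMod (p ^ (m + 1))) * (r' * v0))⁻¹ = 1 :=
    ZMod.mul_inv_of_unit _ hw
  have hvv : v0 * v0⁻¹ = 1 := ZMod.mul_inv_of_unit _ hv
  refine ⟨-(r' * v0) * (1 + (p : ZMod (p ^ (m + 1))) * (r' * v0))⁻¹, ?_, ?_⟩
  · exact (isUnit_one_add_p p m _).mul hv
  · have hu : IsUnit ((1 + (p : ZMod (p ^ (m + 1))) * (-(r' * v0) * (1 + (p : ZMod (p ^ (m + 1))) * (r' * v0))⁻¹)) * v0) :=
      (isUnit_one_add_p p m _).mul hv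
    have h1 := ZMod.mul_inv_of_unit _ hu
    have h2 : ((1 + (p : ZMod (p ^ (m + 1))) * (-(r' * v0) * (1 + (p : ZMod (p ^ (m + 1))) * (r' * v0))⁻¹)) * v0) *
        (v0⁻¹ + p * r') = 1 := by
      generalize hW : (1 + (p : ZMod (p ^ (m + 1))) * (r' * v0))⁻¹ = w at *
      linear_combination (1 + (p : ZMod (p ^ (m + 1))) * (-(r' * v0) * w)) * hvv -
        (p : ZMod (p ^ (m + 1))) * (r' * v0) * hww
    exact hu.mul_left_cancel (h1.trans h2.symm)

section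

variable {p m n : ℕ}

/-- One slice: all points of `X` have coordinate `i₀` equal to `c`, and through every `x ∈ X`
passes a line with direction `v`, `v i₀` a unit, with `x + t v ∈ E` for all `t ≡ 1 mod p`. -/
theorem slice (p m n : ℕ) (hp : p.Prime) (i₀ : Fin n)
    (c : ZMod (p ^ (m + 1))) (E X : Finset (Fin n → ZMod (p ^ (m + 1))))
    (hX : ∀ x ∈ X, x i₀ = c ∧ ∃ v : Fin n → ZMod (p ^ (m + 1)), IsUnit (v i₀) ∧
      ∀ r : ZMod (p ^ (m + 1)), x + (1 + p * r) • v ∈ E)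
    (Q : ℕ) (hQ0 : 0 < Q) (hQ : Nat.Coprime Q p) (hQ2 : 2 * ((n - 1) * m) ≤ Q) :
    X.card * p ^ m ≤ 2 * (p * Q) ^ (n - 1) * E.card := by
  classical
  have hN0 : 0 < p ^ (m + 1) := pow_pos hp.pos _
  have : NeZero (p ^ (m + 1)) := ⟨hN0.ne'⟩
  have hPm : 0 < p ^ m := pow_pos hp.pos _
  have hcι : Fintype.card {i : Fin n // i ≠ i₀} = n - 1 := by
    rw [Fintype.card_subtype_compl, Fintype.card_fin, Fintype.card_subtype_eq]
  let ψ : (Fin n → ZMod (p ^ (m + 1))) → ZMod (p ^ (m + 1)) × ({i : Fin n // i ≠ i₀} → ZMod (p ^ (m + 1))) :=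
    fun x => ((x i₀ - c)⁻¹, fun i => (x i₀ - c)⁻¹ * x i)
  let K := E.image ψ
  let y : (Fin n → ZMod (p ^ (m + 1))) → ({i : Fin n // i ≠ i₀} → ℕ) := fun x i => (x i).val % p ^ m
  let z : (Fin n → ZMod (p ^ (m + 1))) → ({i : Fin n // i ≠ i₀} → ℕ) := fun x i => (x i).val / p ^ m
  have hyz : ∀ x : Fin n → ZMod (p ^ (m + 1)), ∀ i : {i : Fin n // i ≠ i₀},
      x i = (y x i : ZMod (p ^ (m + 1))) + ((p ^ m : ℕ) : ZMod (p ^ (m + 1))) * (z x i : ZMod (p ^ (m + 1))) := by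
    intro x i
    have h1 : ((x i).val : ZMod (p ^ (m + 1))) = x i := ZMod.natCast_zmod_val _
    rw [← Nat.cast_mul, ← Nat.cast_add, Nat.mod_add_div, h1]
  have hz : ∀ x : Fin n → ZMod (p ^ (m + 1)), ∀ i : {i : Fin n // i ≠ i₀}, z x i < p := by
    intro x i
    show (x i).val / p ^ m < p
    rw [Nat.div_lt_iff_lt_mul hPm, mul_comm, ← pow_succ]
    exact ZMod.val_lt _
  -- `core`
  have hcore := core p m hp (ι := {i : Fin n // i ≠ i₀}) K (X.image y)
    (by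
      intro w hw i
      obtain ⟨x, -, rfl⟩ := Finset.mem_image.mp hw
      exact Nat.mod_lt _ hPm)
    (by
      intro w hw
      obtain ⟨x, hx, rfl⟩ := Finset.mem_image.mp hw
      obtain ⟨hxc, v, hv, hE⟩ := hX x hx
      refine ⟨(v i₀)⁻¹, fun i => v i * (v i₀)⁻¹ +
        (v i₀)⁻¹ * (((p ^ m : ℕ) : ZMod (p ^ (m + 1))) * (z x i : ZMod (p ^ (m + 1)))), ?_⟩
      intro r'
      obtain ⟨r, hu, hr⟩ := exists_param p m hv r'
      refine Finset.mem_image.mpr ⟨x + (1 + p * r) • v, hE r, ?_⟩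
      have h0 : (x + (1 + (p : ZMod (p ^ (m + 1))) * r) • v) i₀ - c = (1 + p * r) * v i₀ := by
        rw [Pi.add_apply, Pi.smul_apply, smul_eq_mul, hxc]; ring
      have h1 : ((1 + (p : ZMod (p ^ (m + 1))) * r) * v i₀) * ((v i₀)⁻¹ + p * r') = 1 := by
        rw [← hr]; exact ZMod.mul_inv_of_unit _ hu
      have hvv : v i₀ * (v i₀)⁻¹ = 1 := ZMod.mul_inv_of_unit _ hv
      have hpp := pm_mul_p p m
      show ((((x + (1 + (p : ZMod (p ^ (m + 1))) * r) • v) i₀ - c)⁻¹ : ZMod (p ^ (m + 1))),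
        fun i : {i : Fin n // i ≠ i₀} => ((x + (1 + (p : ZMod (p ^ (m + 1))) * r) • v) i₀ - c)⁻¹ *
          (x + (1 + (p : ZMod (p ^ (m + 1))) * r) • v) i) = _
      rw [h0, hr]
      refine Prod.ext rfl (funext fun i => ?_)
      show ((v i₀)⁻¹ + p * r') * (x + (1 + (p : ZMod (p ^ (m + 1))) * r) • v) i =
        ((v i₀)⁻¹ + p * r') * (y x i : ZMod (p ^ (m + 1))) + (v i * (v i₀)⁻¹ +
        (v i₀)⁻¹ * (((p ^ m : ℕ) : ZMod (p ^ (m + 1))) * (z x i : ZMod (p ^ (m + 1)))))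
      rw [Pi.add_apply, Pi.smul_apply, smul_eq_mul]
      have hxi := hyz x i
      rw [hxi]
      generalize hs0 : (v i₀)⁻¹ = s0 at *
      generalize (y x i : ZMod (p ^ (m + 1))) = yy at *
      generalize (z x i : ZMod (p ^ (m + 1))) = zz at *
      generalize ((p ^ m : ℕ) : ZMod (p ^ (m + 1))) = P at *
      -- `s (1 + p r) v_i = v_i s₀`
      linear_combination (r' * zz) * hpp + (v i * s0) * h1 - (v i * (s0 + p * r') * (1 + p * r)) * hvv)
    Q hQ0 hQ (by rw [hcι]; exact hQ2)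
  rw [hcι] at hcore
  -- `|X| ≤ p ^ (n - 1) |Y|`
  have hXY : X.card ≤ (X.image y).card * p ^ (n - 1) := by
    have h1 : X.card ≤ ((X.image y) ×ˢ (Finset.univ : Finset ({i : Fin n // i ≠ i₀} → Fin p))).card := by
      refine Finset.card_le_card_of_injOn (fun x => (y x, fun i => ⟨z x i, hz x i⟩)) ?_ ?_
      · intro x hx
        rw [Finset.mem_coe, Finset.mem_product]
        exact ⟨Finset.mem_image_of_mem _ hx, Finset.mem_univ _⟩
      · intro x hx x' hx' heq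
        have h2 : y x = y x' := congrArg Prod.fst heq
        have h3 : (fun i => (⟨z x i, hz x i⟩ : Fin p)) = fun i => ⟨z x' i, hz x' i⟩ := congrArg Prod.snd heq
        funext i
        by_cases hi : i = i₀
        · rw [hi, (hX x hx).1, (hX x' hx').1]
        · have h4 := congrFun h2 ⟨i, hi⟩
          have h5 := congrArg Fin.val (congrFun h3 ⟨i, hi⟩)
          have h6 : z x ⟨i, hi⟩ = z x' ⟨i, hi⟩ := h5
          have h7 := hyz x ⟨i, hi⟩
          have h8 := hyz x' ⟨i, hi⟩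
          rw [h4, h6] at h7
          exact h7.trans h8.symm
    rw [Finset.card_product, Finset.card_univ, Fintype.card_fun, Fintype.card_fin, hcι] at h1
    exact h1
  have hKE : K.card ≤ E.card := Finset.card_image_le
  calc X.card * p ^ m ≤ (X.image y).card * p ^ (n - 1) * p ^ m := Nat.mul_le_mul_right _ hXY
    _ = p ^ (n - 1) * ((X.image y).card * p ^ m) := by ring
    _ ≤ p ^ (n - 1) * (2 * Q ^ (n - 1) * K.card) := Nat.mul_le_mul_left _ hcore
    _ ≤ p ^ (n - 1) * (2 * Q ^ (n - 1) * E.card) :=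
        Nat.mul_le_mul_left _ (Nat.mul_le_mul_left _ hKE)
    _ = 2 * (p * Q) ^ (n - 1) * E.card := by rw [mul_pow]; ring

/-- a number in `{a + 1, a + 2}` prime to `p` -/
theorem exists_coprime (p a : ℕ) (hp : p.Prime) : ∃ Q, a < Q ∧ Q ≤ a + 2 ∧ Nat.Coprime Q p := by
  by_cases h : p ∣ a + 1
  · refine ⟨a + 2, by omega, le_rfl, ?_⟩
    rw [Nat.coprime_comm, hp.coprime_iff_not_dvd]
    intro h2
    have h3 : p ∣ 1 := by
      have := (Nat.dvd_add_right h).mp (show p ∣ (a + 1) + 1 from h2)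
      exact this
    exact hp.one_lt.ne' (Nat.dvd_one.mp h3)
  · refine ⟨a + 1, by omega, by omega, ?_⟩
    rw [Nat.coprime_comm, hp.coprime_iff_not_dvd]
    exact h

/-- a nonunit is divisible by `p` -/
theorem nonunit_dvd (p m : ℕ) (hp : p.Prime) (s : ZMod (p ^ (m + 1))) (hs : ¬ IsUnit s) :
    ∃ t : ZMod (p ^ (m + 1)), s = p * t := by
  have hN0 : 0 < p ^ (m + 1) := pow_pos hp.pos _
  have : NeZero (p ^ (m + 1)) := ⟨hN0.ne'⟩
  have h1 : ((s.val : ℕ) : ZMod (p ^ (m + 1))) = s := ZMod.natCast_zmod_val _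
  have h2 : p ∣ s.val := by
    by_contra hcon
    apply hs
    rw [← h1, ZMod.isUnit_iff_coprime]
    exact Nat.Coprime.pow_right _ ((hp.coprime_iff_not_dvd.mpr hcon).symm)
  obtain ⟨t, ht⟩ := h2
  refine ⟨(t : ZMod (p ^ (m + 1))), ?_⟩
  rw [← h1, ht, Nat.cast_mul]

/-- The upper bound. -/
theorem upper (p k n : ℕ) (hp : p.Prime) (hk : 1 ≤ k)
    (L : Finset ((Fin n → ZMod (p ^ k)) × (Fin n → ZMod (p ^ k))))
    (hL : ∀ l ∈ L, ∃ i, IsUnit (l.2 i)) :
    (Dil p k n L).ncard ≤ (1 + 2 * n * p ^ n * (2 * n * k) ^ (n - 1)) * (Tub p k n L).ncard := by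
  classical
  obtain ⟨m, rfl⟩ : ∃ m, k = m + 1 := ⟨k - 1, by omega⟩
  have hN0 : 0 < p ^ (m + 1) := pow_pos hp.pos _
  have : NeZero (p ^ (m + 1)) := ⟨hN0.ne'⟩
  have hPm : 0 < p ^ m := pow_pos hp.pos _
  obtain ⟨E, hE⟩ : ∃ E : Finset (Fin n → ZMod (p ^ (m + 1))), (E : Set _) = Tub p (m + 1) n L :=
    ⟨(Set.toFinite (Tub p (m + 1) n L)).toFinset, by simp⟩
  obtain ⟨D, hD⟩ : ∃ D : Finset (Fin n → ZMod (p ^ (m + 1))), (D : Set _) = Dil p (m + 1) n L :=
    ⟨(Set.toFinite (Dil p (m + 1) n L)).toFinset, by simp⟩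
  have hmE : ∀ x, x ∈ E ↔ x ∈ Tub p (m + 1) n L := fun x => by rw [← hE, Finset.mem_coe]
  have hmD : ∀ x, x ∈ D ↔ x ∈ Dil p (m + 1) n L := fun x => by rw [← hD, Finset.mem_coe]
  rw [← hE, ← hD, Set.ncard_coe_finset, Set.ncard_coe_finset]
  obtain ⟨Q, hQ1, hQ2, hQ⟩ := exists_coprime p (2 * ((n - 1) * m)) hp
  -- the slices
  let X : Fin n × ZMod (p ^ (m + 1)) → Finset (Fin n → ZMod (p ^ (m + 1))) := fun ic =>
    (D \ E).filter (fun x => x ic.1 = ic.2 ∧ ∃ v : Fin n → ZMod (p ^ (m + 1)), IsUnit (v ic.1) ∧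
      ∀ r : ZMod (p ^ (m + 1)), x + (1 + p * r) • v ∈ E)
  have hcover : D \ E ⊆ Finset.univ.biUnion X := by
    intro x hx
    rw [Finset.mem_sdiff] at hx
    obtain ⟨l, hl, s, hs⟩ := (hmD x).mp hx.1
    obtain ⟨i, hi⟩ := hL l hl
    have hsu : IsUnit s := by
      by_contra hcon
      obtain ⟨t, ht⟩ := nonunit_dvd p m hp s hcon
      exact hx.2 ((hmE x).mpr ⟨l, hl, t, by rw [hs, ht]⟩)
    rw [Finset.mem_biUnion]
    refine ⟨(i, x i), Finset.mem_univ _, ?_⟩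
    rw [Finset.mem_filter, Finset.mem_sdiff]
    refine ⟨hx, rfl, -(s • l.2), ?_, ?_⟩
    · show IsUnit (-(s * l.2 i))
      exact (hsu.mul hi).neg
    · intro r
      refine (hmE _).mpr ⟨l, hl, -(r * s), ?_⟩
      rw [hs]
      funext j
      simp only [Pi.add_apply, Pi.smul_apply, Pi.neg_apply, smul_eq_mul]
      ring
  have hslice : ∀ ic, (X ic).card * p ^ m ≤ 2 * (p * Q) ^ (n - 1) * E.card := by
    intro ic
    refine slice p m n hp ic.1 ic.2 E (X ic) ?_ Q (by omega) hQ (by omega)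
    intro x hx
    exact (Finset.mem_filter.mp hx).2
  have hsum : (D \ E).card * p ^ m ≤ n * p ^ (m + 1) * (2 * (p * Q) ^ (n - 1) * E.card) := by
    calc (D \ E).card * p ^ m ≤ (Finset.univ.biUnion X).card * p ^ m :=
          Nat.mul_le_mul_right _ (Finset.card_le_card hcover)
      _ ≤ (∑ ic, (X ic).card) * p ^ m := Nat.mul_le_mul_right _ Finset.card_biUnion_le
      _ = ∑ ic, (X ic).card * p ^ m := by rw [Finset.sum_mul]
      _ ≤ ∑ _ic : Fin n × ZMod (p ^ (m + 1)), 2 * (p * Q) ^ (n - 1) * E.card :=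
          Finset.sum_le_sum (fun ic _ => hslice ic)
      _ = n * p ^ (m + 1) * (2 * (p * Q) ^ (n - 1) * E.card) := by
          rw [Finset.sum_const, Finset.card_univ, Fintype.card_prod, Fintype.card_fin, ZMod.card, smul_eq_mul]
  have hDE : (D \ E).card ≤ 2 * n * p ^ n * (2 * n * (m + 1)) ^ (n - 1) * E.card := by
    rcases Nat.eq_zero_or_pos n with hn | hn
    · subst hn
      have h1 : (D \ E).card * p ^ m ≤ 0 := by simpa using hsum
      have h2 : (D \ E).card = 0 := by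
        rcases Nat.mul_eq_zero.mp (Nat.le_zero.mp h1) with h | h
        · exact h
        · omega
      rw [h2]
      exact Nat.zero_le _
    · obtain ⟨d, rfl⟩ : ∃ d, n = d + 1 := ⟨n - 1, by omega⟩
      have h1 : d + 1 - 1 = d := by omega
      rw [h1] at hsum hQ2 ⊢
      have h2 : Q ≤ 2 * (d + 1) * (m + 1) := by nlinarith
      have h3 : (D \ E).card * p ^ m ≤ (2 * (d + 1) * p ^ (d + 1) * Q ^ d * E.card) * p ^ m := by
        refine hsum.trans (le_of_eq ?_)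
        generalize E.card = e
        ring
      refine (Nat.le_of_mul_le_mul_right h3 hPm).trans ?_
      have h4 : Q ^ d ≤ (2 * (d + 1) * (m + 1)) ^ d := Nat.pow_le_pow_left h2 d
      exact Nat.mul_le_mul_right _ (Nat.mul_le_mul_left _ h4)
  have hD2 : D.card ≤ (D \ E).card + E.card := by
    have := Finset.card_le_card_sdiff_add_card (s := D) (t := E)
    omega
  calc D.card ≤ (D \ E).card + E.card := hD2
    _ ≤ 2 * n * p ^ n * (2 * n * (m + 1)) ^ (n - 1) * E.card + E.card := Nat.add_le_add_right hDE _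
    _ = (1 + 2 * n * p ^ n * (2 * n * (m + 1)) ^ (n - 1)) * E.card := by ring

end

end PTD
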