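import Mathlib

set_option autoImplicit false

/-!
p-adic tube doubling, module PTD-Tree: random `1`-Lipschitz functions on `Z / p^j`, coded by
digit trees; the proportion of those whose graph meets a given line is at most
`p^2 / (j + p^2)` (survival of a critical branching process).

Proof of `tree_count`.  Let `B_j` be the number of `w : T p j` with no such `c`; it does not
depend on `t, z`: `B_0 = 0`, `B_(j+1) = ((p - 1) |T_j| + B_j)^p`, `|T_(j+1)| = (p |T_j|)^p`.  Indeed
writing `c = e + p c'`, `e < p`, `c' < p^j`, the condition at `j + 1` is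
`p^(j+1) ∣ d_e + p ev w_e c' + t e + t p c' - z`, that is `d_e ≡ z - t e mod p` (exactly one
digit `d_e`) and `p^j ∣ ev w_e c' + t c' - (z - t e - d_e) / p`.  So for each `e` the number of pairs
`(d_e, w_e)` without a solution is `p |T_j| - (|T_j| - B_j)`, and these are independent in `e`.
With `P_j = 1 - B_j / |T_j|`: `P_0 = 1`, `P_(j+1) = 1 - (1 - P_j / p)^p ≤ P_j - P_j^2 / p^2` by
`(1 - x)^p ≥ 1 - p x + x^2` (`p ≥ 2`, `0 ≤ x ≤ 1`, induction on `p`); hence `P_j ≤ p^2 / (j + p^2)` by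
induction (`x - x^2/p^2` is increasing on `[0, 1]`).
-/

namespace PTD

/-- Digit trees: codes of the `1`-Lipschitz functions on `Z / p^j`. -/
def T (p : ℕ) : ℕ → Type
  | 0 => Unit
  | j + 1 => Fin p → (Fin p × T p j)

instance instFintypeT (p : ℕ) : (j : ℕ) → Fintype (T p j)
  | 0 => (inferInstance : Fintype Unit)
  | j + 1 =>
    letI := instFintypeT p j
    (inferInstance : Fintype (Fin p → (Fin p × T p j)))

/-- The function coded by a tree: `ev w (e + p c) = d_e + p ev w_e c`. -/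
def ev (p : ℕ) [NeZero p] : (j : ℕ) → T p j → ℕ → ℕ
  | 0, _, _ => 0
  | j + 1, w, c => ((w (Fin.ofNat p c)).1 : ℕ) + p * ev p j (w (Fin.ofNat p c)).2 (c / p)

/-- `ev w` is `1`-Lipschitz: for `i ≤ j`, congruent arguments mod `p^i` have congruent values. -/
theorem ev_lip (p : ℕ) [NeZero p] (j : ℕ) (w : T p j) (i : ℕ) (hi : i ≤ j) (c c' : ℕ)
    (h : c ≡ c' [MOD p ^ i]) : ev p j w c ≡ ev p j w c' [MOD p ^ i] := by
  induction j generalizing i c c' with
  | zero => exact Nat.ModEq.refl _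
  | succ j ih =>
    cases i with
    | zero => simpa using Nat.modEq_one
    | succ i =>
      have h0 : p ^ (i + 1) = p * p ^ i := pow_succ' p i
      have h1 : c ≡ c' [MOD p] := h.of_dvd (by rw [h0]; exact dvd_mul_right _ _)
      have h2 : (Fin.ofNat p c : Fin p) = Fin.ofNat p c' := by
        apply Fin.ext
        show c % p = c' % p
        exact h1
      have h3 : c / p ≡ c' / p [MOD p ^ i] := by
        have e1 := Nat.mod_mul_right_div_self c p (p ^ i)
        have e2 := Nat.mod_mul_right_div_self c' p (p ^ i)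
        have e3 : c % (p * p ^ i) = c' % (p * p ^ i) := by
          rw [← h0]
          exact h
        show c / p % p ^ i = c' / p % p ^ i
        rw [← e1, ← e2, e3]
      have h4 := ih (w (Fin.ofNat p c')).2 i (by omega) _ _ h3
      show ((w (Fin.ofNat p c)).1 : ℕ) + p * ev p j (w (Fin.ofNat p c)).2 (c / p) ≡
        ((w (Fin.ofNat p c')).1 : ℕ) + p * ev p j (w (Fin.ofNat p c')).2 (c' / p) [MOD p ^ (i + 1)]
      rw [h2, h0]
      exact (Nat.ModEq.refl _).add (Nat.ModEq.mul_left' p h4)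

/-- the graph of `w` meets the line -/
def Good (p : ℕ) [NeZero p] (j : ℕ) (t z : ℤ) (w : T p j) : Prop :=
  ∃ c : ℕ, c < p ^ j ∧ ((p : ℤ) ^ j ∣ (ev p j w c : ℤ) + t * c - z)

theorem good_zero (p : ℕ) [NeZero p] (t z : ℤ) (w : T p 0) : Good p 0 t z w :=
  ⟨0, by simp, by simp⟩

theorem digit_iff {p : ℕ} (hp : 0 < p) (j : ℕ) (d : Fin p) (a s : ℤ) :
    (p : ℤ) ^ (j + 1) ∣ ((d : ℕ) : ℤ) + p * a - s ↔
      ((d : ℕ) : ℤ) = s % p ∧ (p : ℤ) ^ j ∣ a - s / p := by
  have hp' : (0 : ℤ) < p := by exact_mod_cast hp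
  have hs : s = p * (s / p) + s % p := (Int.mul_ediv_add_emod s p).symm
  have hd0 : (0 : ℤ) ≤ ((d : ℕ) : ℤ) := by positivity
  have hd1 : ((d : ℕ) : ℤ) < p := by exact_mod_cast d.2
  have hm0 := Int.emod_nonneg s hp'.ne'
  have hm1 := Int.emod_lt_of_pos s hp'
  have key : ((d : ℕ) : ℤ) + p * a - s = (((d : ℕ) : ℤ) - s % p) + p * (a - s / p) := by
    linear_combination -hs
  constructor
  · intro h
    rw [key, pow_succ'] at h
    have h1 : (p : ℤ) ∣ (((d : ℕ) : ℤ) - s % p) := by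
      have h2 : (p : ℤ) ∣ (((d : ℕ) : ℤ) - s % p) + p * (a - s / p) := (dvd_mul_right _ _).trans h
      exact (dvd_add_left (dvd_mul_right _ _)).1 h2
    have h3 : ((d : ℕ) : ℤ) - s % p = 0 := by
      apply Int.eq_zero_of_abs_lt_dvd h1
      rw [abs_lt]
      constructor <;> linarith
    refine ⟨by linarith, ?_⟩
    rw [h3, zero_add] at h
    exact (mul_dvd_mul_iff_left hp'.ne').1 h
  · rintro ⟨h1, h2⟩
    rw [key, pow_succ', h1, sub_self, zero_add]
    exact mul_dvd_mul_left _ h2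

theorem good_succ (p : ℕ) [NeZero p] (j : ℕ) (t z : ℤ) (w : T p (j + 1)) :
    Good p (j + 1) t z w ↔ ∃ e : Fin p, (((w e).1 : ℕ) : ℤ) = (z - t * e) % p ∧
      Good p j t ((z - t * e) / p) (w e).2 := by
  have hp : 0 < p := Nat.pos_of_ne_zero (NeZero.ne p)
  have main : ∀ (e : Fin p) (c' : ℕ),
      ((p : ℤ) ^ (j + 1) ∣ (ev p (j + 1) w (e + p * c') : ℤ) + t * ((e + p * c' : ℕ) : ℤ) - z) ↔
      ((((w e).1 : ℕ) : ℤ) = (z - t * e) % p ∧
        (p : ℤ) ^ j ∣ (ev p j (w e).2 c' : ℤ) + t * c' - (z - t * e) / p) := by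
    intro e c'
    have h1 : (Fin.ofNat p (e + p * c') : Fin p) = e := by
      apply Fin.ext
      simp [Fin.ofNat, Nat.mod_eq_of_lt e.2]
    have h2 : ((e : ℕ) + p * c') / p = c' := by
      rw [Nat.add_mul_div_left _ _ hp, Nat.div_eq_of_lt e.2, zero_add]
    have h3 : ev p (j + 1) w (e + p * c') = ((w e).1 : ℕ) + p * ev p j (w e).2 c' := by
      show ((w (Fin.ofNat p (e + p * c'))).1 : ℕ) +
        p * ev p j (w (Fin.ofNat p (e + p * c'))).2 ((e + p * c') / p) = _
      rw [h1, h2]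
    rw [h3, ← digit_iff hp j (w e).1 ((ev p j (w e).2 c' : ℤ) + t * c') (z - t * e)]
    push_cast
    ring_nf
  constructor
  · rintro ⟨c, hc, hd⟩
    have hc' : c = ((⟨c % p, Nat.mod_lt _ hp⟩ : Fin p) : ℕ) + p * (c / p) := by
      simp [Nat.mod_add_div]
    refine ⟨⟨c % p, Nat.mod_lt _ hp⟩, ?_⟩
    rw [hc'] at hd
    have h1 := (main _ _).1 hd
    refine ⟨h1.1, c / p, ?_, h1.2⟩
    rw [Nat.div_lt_iff_lt_mul hp]
    rwa [pow_succ] at hc
  · rintro ⟨e, he, c', hc', hd⟩
    refine ⟨e + p * c', ?_, (main e c').2 ⟨he, hd⟩⟩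
    rw [pow_succ']
    have h1 : c' + 1 ≤ p ^ j := hc'
    have h2 : p * (c' + 1) ≤ p * p ^ j := Nat.mul_le_mul_left p h1
    have h3 := e.2
    nlinarith

theorem card_T_succ (p j : ℕ) : Nat.card (T p (j + 1)) = (p * Nat.card (T p j)) ^ p := by
  have : Nat.card (T p (j + 1)) = Nat.card (Fin p → (Fin p × T p j)) := rfl
  rw [this, Nat.card_fun, Nat.card_prod, Nat.card_eq_fintype_card, Fintype.card_fin]

theorem card_split {α : Type} [Finite α] (P : α → Prop) :
    Nat.card {a // P a} + Nat.card {a // ¬ P a} = Nat.card α := by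
  classical
  rw [← Nat.card_sum]
  exact Nat.card_congr (Equiv.sumCompl P)

instance finiteT (p j : ℕ) : Finite (T p j) := Finite.of_fintype _

theorem card_pair (p : ℕ) [NeZero p] (j : ℕ) (t s z : ℤ) :
    Nat.card {x : Fin p × T p j // ((x.1 : ℕ) : ℤ) = s % p ∧ Good p j t z x.2} =
      Nat.card {w : T p j // Good p j t z w} := by
  have hp : 0 < p := Nat.pos_of_ne_zero (NeZero.ne p)
  have hp' : (0 : ℤ) < p := by exact_mod_cast hp
  have hm0 := Int.emod_nonneg s hp'.ne'
  have hm1 := Int.emod_lt_of_pos s hp'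
  obtain ⟨d, hd⟩ : ∃ d : Fin p, ((d : ℕ) : ℤ) = s % p := by
    refine ⟨⟨(s % p).toNat, ?_⟩, ?_⟩
    · omega
    · simp only
      omega
  refine Nat.card_congr
    { toFun := fun x => ⟨x.1.2, x.2.2⟩
      invFun := fun v => ⟨(d, v.1), hd, v.2⟩
      left_inv := ?_
      right_inv := fun v => rfl }
  rintro ⟨⟨e, v⟩, he, hv⟩
  have : d = e := by
    apply Fin.ext
    have : ((d : ℕ) : ℤ) = ((e : ℕ) : ℤ) := by rw [hd]; exact he.symm
    exact_mod_cast this
  subst this
  rfl

theorem bern {n : ℕ} (hn : 2 ≤ n) {x : ℝ} (h0 : 0 ≤ x) (h1 : x ≤ 1) :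
    1 - n * x + x ^ 2 ≤ (1 - x) ^ n := by
  induction n, hn using Nat.le_induction with
  | base => push_cast; nlinarith
  | succ n hn ih =>
    have h2 : (2 : ℝ) ≤ n := by exact_mod_cast hn
    rw [pow_succ]
    have h3 : (1 - n * x + x ^ 2) * (1 - x) ≤ (1 - x) ^ n * (1 - x) :=
      mul_le_mul_of_nonneg_right ih (by linarith)
    refine le_trans ?_ h3
    push_cast
    have h4 : 0 ≤ x ^ 2 * (n - x) := mul_nonneg (sq_nonneg x) (by linarith)
    nlinarith

theorem step_real {p : ℕ} (hp : 2 ≤ p) {T g a : ℝ} (hT : 0 < T) (hg0 : 0 ≤ g) (hgT : g ≤ T)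
    (ha : (p : ℝ) ^ 2 ≤ a) (h : g * a ≤ p ^ 2 * T) :
    ((p * T) ^ p - (p * T - g) ^ p) * (a + 1) ≤ p ^ 2 * (p * T) ^ p := by
  have hp2 : (2 : ℝ) ≤ p := by exact_mod_cast hp
  have hp0 : (0 : ℝ) < p := by linarith
  have hpT : 0 < p * T := mul_pos hp0 hT
  have ha0 : 0 < a := lt_of_lt_of_le (by positivity) ha
  set P : ℝ := g / T with hP
  have hP0 : 0 ≤ P := div_nonneg hg0 hT.le
  have hP1 : P ≤ 1 := (div_le_one hT).2 hgT
  have hPa : P * a ≤ p ^ 2 := by
    rw [hP, div_mul_eq_mul_div, div_le_iff₀ hT]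
    exact h
  set x : ℝ := P / p with hx
  have hx0 : 0 ≤ x := div_nonneg hP0 hp0.le
  have hx1 : x ≤ 1 := by
    rw [hx, div_le_one hp0]
    linarith
  have e1 : p * T - g = p * T * (1 - x) := by
    rw [hx, hP]
    field_simp
  have hb := bern hp hx0 hx1
  have h1 : (p * T - g) ^ p = (p * T) ^ p * (1 - x) ^ p := by rw [e1, mul_pow]
  have hpow : 0 < (p * T) ^ p := pow_pos hpT p
  have h2 : (p * T) ^ p - (p * T - g) ^ p ≤ (p * T) ^ p * (P - P ^ 2 / p ^ 2) := by
    rw [h1]
    have e2 : 1 - p * x + x ^ 2 = 1 - (P - P ^ 2 / p ^ 2) := by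
      rw [hx]
      field_simp
      ring
    rw [e2] at hb
    nlinarith [mul_le_mul_of_nonneg_left hb hpow.le]
  have h3 : (P - P ^ 2 / p ^ 2) * (a + 1) ≤ p ^ 2 := by
    set Q : ℝ := p ^ 2 / a with hQ
    have hQ1 : Q ≤ 1 := (div_le_one ha0).2 ha
    have hPQ : P ≤ Q := by
      rw [hQ, le_div_iff₀ ha0]
      exact hPa
    have hQ0 : 0 ≤ Q := hP0.trans hPQ
    have h4 : P - P ^ 2 / p ^ 2 ≤ Q - Q ^ 2 / p ^ 2 := by
      have e3 : Q - Q ^ 2 / p ^ 2 - (P - P ^ 2 / p ^ 2) = (Q - P) * (1 - (Q + P) / p ^ 2) := by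
        field_simp
        ring
      have h5 : (Q + P) / p ^ 2 ≤ 1 := by
        rw [div_le_one (by positivity)]
        nlinarith
      have h6 : 0 ≤ (Q - P) * (1 - (Q + P) / p ^ 2) :=
        mul_nonneg (by linarith) (by linarith)
      linarith
    have h7 : (Q - Q ^ 2 / p ^ 2) * (a + 1) ≤ p ^ 2 := by
      have e4 : (Q - Q ^ 2 / p ^ 2) * (a + 1) = p ^ 2 - p ^ 2 / a ^ 2 := by
        rw [hQ]
        field_simp
        ring
      rw [e4]
      have : 0 ≤ (p : ℝ) ^ 2 / a ^ 2 := by positivity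
      linarith
    exact (mul_le_mul_of_nonneg_right h4 (by linarith)).trans h7
  calc ((p * T) ^ p - (p * T - g) ^ p) * (a + 1)
      ≤ (p * T) ^ p * (P - P ^ 2 / p ^ 2) * (a + 1) :=
        mul_le_mul_of_nonneg_right h2 (by linarith)
    _ = (p * T) ^ p * ((P - P ^ 2 / p ^ 2) * (a + 1)) := by ring
    _ ≤ (p * T) ^ p * p ^ 2 := mul_le_mul_of_nonneg_left h3 hpow.le
    _ = p ^ 2 * (p * T) ^ p := by ring

theorem card_T_pos (p : ℕ) [NeZero p] (j : ℕ) : 0 < Nat.card (T p j) := by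
  have hp : 0 < p := Nat.pos_of_ne_zero (NeZero.ne p)
  induction j with
  | zero =>
    have : Nat.card (T p 0) = Nat.card Unit := rfl
    rw [this]
    simp
  | succ j ih =>
    rw [card_T_succ]
    exact pow_pos (Nat.mul_pos hp ih) p

/-- the number of good trees does not depend on `t`, `z` -/
theorem card_good (p : ℕ) [NeZero p] (hp2 : 2 ≤ p) (j : ℕ) : ∃ g : ℕ, g ≤ Nat.card (T p j) ∧
    (∀ t z : ℤ, Nat.card {w : T p j // Good p j t z w} = g) ∧
    (g : ℝ) * (j + p ^ 2) ≤ p ^ 2 * Nat.card (T p j) := by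
  have hp : 0 < p := Nat.pos_of_ne_zero (NeZero.ne p)
  induction j with
  | zero =>
    refine ⟨1, card_T_pos p 0, fun t z => ?_, ?_⟩
    · have h1 := card_split (fun w : T p 0 => Good p 0 t z w)
      have h2 : Nat.card {w : T p 0 // ¬ Good p 0 t z w} = 0 := by
        have : IsEmpty {w : T p 0 // ¬ Good p 0 t z w} := ⟨fun w => w.2 (good_zero p t z w.1)⟩
        exact Nat.card_of_isEmpty
      have h3 : Nat.card (T p 0) = 1 := by
        have : Nat.card (T p 0) = Nat.card Unit := rfl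
        rw [this]
        simp
      omega
    · have h3 : Nat.card (T p 0) = 1 := by
        have : Nat.card (T p 0) = Nat.card Unit := rfl
        rw [this]
        simp
      rw [h3]
      simp
  | succ j ih =>
    obtain ⟨g, hgT, hg, hreal⟩ := ih
    have hTs := card_T_succ p j
    have hle : (p * Nat.card (T p j) - g) ^ p ≤ (p * Nat.card (T p j)) ^ p :=
      Nat.pow_le_pow_left (Nat.sub_le _ _) p
    refine ⟨(p * Nat.card (T p j)) ^ p - (p * Nat.card (T p j) - g) ^ p, ?_, fun t z => ?_, ?_⟩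
    · rw [hTs]
      exact Nat.sub_le _ _
    · have h1 := card_split (fun w : T p (j + 1) => Good p (j + 1) t z w)
      have h2 : Nat.card {w : T p (j + 1) // ¬ Good p (j + 1) t z w} =
          (p * Nat.card (T p j) - g) ^ p := by
        have e1 : Nat.card {w : T p (j + 1) // ¬ Good p (j + 1) t z w} =
            Nat.card {w : Fin p → Fin p × T p j // ∀ e : Fin p,
              ¬ ((((w e).1 : ℕ) : ℤ) = (z - t * e) % p ∧
                Good p j t ((z - t * e) / p) (w e).2)} := by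
          refine Nat.card_congr (Equiv.subtypeEquivRight fun w => ?_)
          rw [good_succ]
          push Not
          rfl
        rw [e1, Nat.card_congr (Equiv.subtypePiEquivPi
          (p := fun (e : Fin p) (x : Fin p × T p j) => ¬ ((((x).1 : ℕ) : ℤ) = (z - t * e) % p ∧
                Good p j t ((z - t * e) / p) x.2))), Nat.card_pi]
        have e2 : ∀ e : Fin p, Nat.card {x : Fin p × T p j //
            ¬ (((x.1 : ℕ) : ℤ) = (z - t * e) % p ∧ Good p j t ((z - t * e) / p) x.2)} =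
              p * Nat.card (T p j) - g := by
          intro e
          have h3 := card_split (fun x : Fin p × T p j =>
            (((x.1 : ℕ) : ℤ) = (z - t * e) % p ∧ Good p j t ((z - t * e) / p) x.2))
          have h5 : Nat.card (Fin p) = p := by simp
          rw [card_pair, hg, Nat.card_prod, h5] at h3
          omega
        rw [Finset.prod_congr rfl (fun e _ => e2 e)]
        simp
      rw [hTs] at h1
      omega
    · rw [hTs, Nat.cast_sub hle]
      have hgp : g ≤ p * Nat.card (T p j) := hgT.trans (Nat.le_mul_of_pos_left _ hp)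
      push_cast [Nat.cast_sub hgp]
      have h4 := step_real (T := Nat.card (T p j)) (g := g) (a := j + p ^ 2) hp2
        (by exact_mod_cast card_T_pos p j) (by positivity) (by exact_mod_cast hgT)
        (by have : (0 : ℝ) ≤ j := by positivity
            linarith) hreal
      have e5 : ((j : ℝ) + 1 + p ^ 2) = (j + p ^ 2) + 1 := by ring
      rw [e5]
      exact h4

open Classical in
/-- The proportion of trees whose graph meets the line `x ↦ z - t x`, is at most
`p^2 / (j + p^2)`. -/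
theorem tree_count (p : ℕ) [NeZero p] (hp : 2 ≤ p) (j : ℕ) (t z : ℤ) :
    (Finset.univ.filter (fun w : T p j =>
      ∃ c : ℕ, c < p ^ j ∧ ((p : ℤ) ^ j ∣ (ev p j w c : ℤ) + t * c - z))).card * (j + p ^ 2) ≤
      p ^ 2 * Fintype.card (T p j) := by
  obtain ⟨g, hgT, hg, hreal⟩ := card_good p hp j
  have h1 : (Finset.univ.filter (fun w : T p j =>
      ∃ c : ℕ, c < p ^ j ∧ ((p : ℤ) ^ j ∣ (ev p j w c : ℤ) + t * c - z))).card = g := by
    rw [← hg t z, Nat.card_eq_fintype_card, Fintype.card_subtype]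
    congr 1
    ext w
    simp only [Finset.mem_filter, Good]
  rw [h1, ← Nat.card_eq_fintype_card]
  exact_mod_cast hreal

end PTD
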